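import Pool.Agent.E8helper96.HT.L2
import Pool.Agent.H433R3.Ml12

/-!
# The regularised Hilbert transform as a Calderon-Zygmund operator
-/

set_option autoImplicit false

open MeasureTheory Filter Topology Set
open scoped ENNReal NNReal

namespace Pool.Agent.E8helper96.HT

open Pool.Agent.Helper49.Sq.Keps

/-- the regularised Hilbert transform, complex version -/
noncomputable def S (f : ℝ → ℂ) (s : ℝ) : ℂ := ∫ t, (k1 (s - t) : ℂ) * f t

lemma k1_memLpC (s : ℝ) : MemLp (fun t => (k1 (s - t) : ℂ)) 2 volume :=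
  (k1_memLp s).ofReal

lemma S_integrable {f : ℝ → ℂ} (hf : MemLp f 2 volume) (s : ℝ) :
    Integrable (fun t => (k1 (s - t) : ℂ) * f t) :=
  (k1_memLpC s).integrable_mul hf

lemma S_re {f : ℝ → ℂ} (hf : MemLp f 2 volume) (s : ℝ) : (S f s).re = SR (fun t => (f t).re) s := by
  have h := (S_integrable hf s)
  unfold S SR
  have := integral_re h
  simp only [RCLike.re_to_complex] at this
  rw [← this]
  congr 1
  ext t
  simp

lemma S_im {f : ℝ → ℂ} (hf : MemLp f 2 volume) (s : ℝ) : (S f s).im = SR (fun t => (f t).im) s := by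
  have h := (S_integrable hf s)
  unfold S SR
  have := integral_im h
  simp only [RCLike.im_to_complex] at this
  rw [← this]
  congr 1
  ext t
  simp

lemma enorm_sq_eq (z : ℂ) : ‖z‖ₑ ^ (2:ℝ) = ENNReal.ofReal (z.re ^ 2) + ENNReal.ofReal (z.im ^ 2) := by
  rw [ENNReal.rpow_two, ← ofReal_norm, ← ENNReal.ofReal_pow (norm_nonneg _),
    ← ENNReal.ofReal_add (sq_nonneg _) (sq_nonneg _), Complex.sq_norm, Complex.normSq_apply]
  congr 1
  ring

lemma S_sq {f : ℝ → ℂ} (hf : MemLp f 2 volume) :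
    ∫⁻ s, ‖S f s‖ₑ ^ (2:ℝ) ≤ ENNReal.ofReal (Real.pi ^ 2) * ∫⁻ t, ‖f t‖ₑ ^ (2:ℝ) := by
  have hre : MemLp (fun t => (f t).re) 2 volume := hf.re
  have him : MemLp (fun t => (f t).im) 2 volume := hf.im
  simp_rw [enorm_sq_eq, S_re hf, S_im hf]
  rw [lintegral_add_left' (((SR_aesm hre.1).aemeasurable.pow_const 2).ennreal_ofReal),
    lintegral_add_left' ((hre.1.aemeasurable.pow_const 2).ennreal_ofReal), mul_add]
  exact add_le_add (SR_sq hre) (SR_sq him)

lemma S_aesm {f : ℝ → ℂ} (hf : AEStronglyMeasurable f volume) :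
    AEStronglyMeasurable (S f) volume := by
  unfold S
  have h : AEStronglyMeasurable (fun z : ℝ × ℝ => (k1 (z.1 - z.2) : ℂ) * f z.2)
      ((volume : Measure ℝ).prod volume) :=
    ((Complex.continuous_ofReal.comp
      (k1_cont.comp (continuous_fst.sub continuous_snd))).aestronglyMeasurable).mul hf.comp_snd
  exact h.integral_prod_right'

lemma eLp2 {X : Type*} [MeasurableSpace X] (μ : Measure X) (f : X → ℂ) :
    eLpNorm f 2 μ = (∫⁻ x, ‖f x‖ₑ ^ (2:ℝ) ∂μ) ^ (1 / (2:ℝ)) := by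
  rw [eLpNorm_eq_lintegral_rpow_enorm_toReal (by norm_num) (by norm_num)]
  simp

lemma S_bound {f : ℝ → ℂ} (hf : MemLp f 2 volume) :
    eLpNorm (S f) 2 volume ≤ (Real.toNNReal Real.pi : ℝ≥0) * eLpNorm f 2 volume := by
  rw [eLp2, eLp2]
  refine (ENNReal.rpow_le_rpow (S_sq hf) (by norm_num)).trans ?_
  rw [ENNReal.mul_rpow_of_nonneg _ _ (by norm_num)]
  apply mul_le_mul_left
  rw [ENNReal.ofReal_rpow_of_nonneg (by positivity) (by norm_num), ← Real.sqrt_eq_rpow,
    Real.sqrt_sq Real.pi_pos.le]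
  rfl

lemma S_memLp {f : ℝ → ℂ} (hf : MemLp f 2 volume) : MemLp (S f) 2 volume :=
  ⟨S_aesm hf.1, (S_bound hf).trans_lt (ENNReal.mul_lt_top (by simp) hf.2)⟩

/-- the equivalence of `Fin 1 → ℝ` and `ℝ` -/
noncomputable def e1 : (Fin 1 → ℝ) ≃ᵐ ℝ := MeasurableEquiv.funUnique (Fin 1) ℝ

lemma e1_mp : MeasurePreserving e1 (volume : Measure (Fin 1 → ℝ)) volume :=
  volume_preserving_funUnique (Fin 1) ℝ

lemma e1_apply (x : Fin 1 → ℝ) : e1 x = x 0 := rfl

/-- the operator on functions of `Fin 1 → ℝ` -/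
noncomputable def T (f : (Fin 1 → ℝ) → ℂ) (x : Fin 1 → ℝ) : ℂ := S (fun t => f (e1.symm t)) (e1 x)

/-- the kernel -/
noncomputable def K (x y : Fin 1 → ℝ) : ℂ := (k1 (x 0 - y 0) : ℂ)

lemma memLp_symm {f : (Fin 1 → ℝ) → ℂ} {p : ℝ≥0∞} (hf : MemLp f p volume) :
    MemLp (fun t => f (e1.symm t)) p volume :=
  hf.comp_measurePreserving (e1_mp.symm e1)

lemma T_memLp {f : (Fin 1 → ℝ) → ℂ} (hf : MemLp f 2 volume) : MemLp (T f) 2 volume :=
  (S_memLp (memLp_symm hf)).comp_measurePreserving e1_mp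

lemma T_bound {f : (Fin 1 → ℝ) → ℂ} (hf : MemLp f 2 volume) :
    eLpNorm (T f) 2 volume ≤ (Real.toNNReal Real.pi : ℝ≥0) * eLpNorm f 2 volume := by
  have h1 : eLpNorm (T f) 2 volume = eLpNorm (S (fun t => f (e1.symm t))) 2 volume :=
    eLpNorm_comp_measurePreserving (S_aesm (memLp_symm hf).1) e1_mp
  have h2 : eLpNorm (fun t => f (e1.symm t)) 2 volume = eLpNorm f 2 volume :=
    eLpNorm_comp_measurePreserving hf.1 (e1_mp.symm e1)
  rw [h1, ← h2]
  exact S_bound (memLp_symm hf)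

lemma T_rep (f : (Fin 1 → ℝ) → ℂ) (x : Fin 1 → ℝ) : T f x = ∫ y, K x y * f y := by
  unfold T S
  rw [← e1_mp.integral_comp']
  congr 1
  ext y
  show (k1 (e1 x - e1 y) : ℂ) * f (e1.symm (e1 y)) = _
  rw [e1.symm_apply_apply]
  rfl

lemma len_eq (x : Fin 1 → ℝ) : Pool.Agent.H433R3.MixedSup.len x = |x 0| := by
  unfold Pool.Agent.H433R3.MixedSup.len
  rw [Fin.sum_univ_one, Real.sqrt_sq_eq_abs]

lemma k1_le (u : ℝ) (hu : u ≠ 0) : |k1 u| ≤ 1 / |u| := by
  unfold k1 k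
  have h : 0 < |u| := abs_pos.2 hu
  rw [abs_div, abs_of_pos (show (0:ℝ) < u ^ 2 + 1 ^ 2 by positivity), div_le_div_iff₀ (by positivity) h]
  nlinarith [abs_mul_abs_self u]

lemma k1_diff (u v : ℝ) (hu : u ≠ 0) (hv : |u| ≤ 2 * |v|) :
    |k1 u - k1 v| ≤ 2 * |u - v| / |u| ^ 2 := by
  have h : 0 < |u| := abs_pos.2 hu
  have hv0 : 0 < |v| := by linarith
  unfold k1 k
  have e : u / (u ^ 2 + 1 ^ 2) - v / (v ^ 2 + 1 ^ 2) =
      (u - v) * (1 - u * v) / ((u ^ 2 + 1) * (v ^ 2 + 1)) := by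
    field_simp; ring
  rw [e, abs_div, abs_mul, abs_of_pos (show (0:ℝ) < (u ^ 2 + 1) * (v ^ 2 + 1) by positivity)]
  rw [div_le_div_iff₀ (by positivity) (by positivity)]
  have h1 : |1 - u * v| ≤ 1 + |u| * |v| := by
    rw [← abs_mul]
    calc |1 - u * v| ≤ |(1:ℝ)| + |u * v| := abs_sub _ _
      _ = 1 + |u * v| := by rw [abs_one]
  have h2 : (1 + |u| * |v|) * |u| ^ 2 ≤ 2 * ((u ^ 2 + 1) * (v ^ 2 + 1)) := by
    have e1 : u ^ 2 = |u| ^ 2 := (sq_abs u).symm
    have e2 : v ^ 2 = |v| ^ 2 := (sq_abs v).symm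
    rw [e1, e2]
    set a := |u|
    set b := |v|
    nlinarith [mul_pos h hv0, sq_nonneg (a * b - 1), mul_nonneg (mul_pos h hv0).le
      (mul_nonneg h.le (by linarith : (0:ℝ) ≤ 2 * b - a)), mul_nonneg h.le
      (by linarith : (0:ℝ) ≤ 2 * b - a), sq_nonneg (a - b)]
  calc |u - v| * |1 - u * v| * |u| ^ 2 ≤ |u - v| * (1 + |u| * |v|) * |u| ^ 2 := by gcongr
    _ = |u - v| * ((1 + |u| * |v|) * |u| ^ 2) := by ring
    _ ≤ |u - v| * (2 * ((u ^ 2 + 1) * (v ^ 2 + 1))) := by gcongr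
    _ = 2 * |u - v| * ((u ^ 2 + 1) * (v ^ 2 + 1)) := by ring

lemma k1_odd (u : ℝ) : k1 (-u) = - k1 u := k_neg 1 u

lemma isCZO : Pool.Agent.H433R3.MixedSup.IsCZO T K where
  l2 := by
    refine ⟨fun f hf => T_memLp hf, ?_, ?_, ⟨_, fun f hf => T_bound hf⟩⟩
    · intro f g hf hg
      refine Eventually.of_forall fun x => ?_
      show (∫ t, (k1 (e1 x - t) : ℂ) * (f (e1.symm t) + g (e1.symm t))) =
        (∫ t, (k1 (e1 x - t) : ℂ) * f (e1.symm t)) + ∫ t, (k1 (e1 x - t) : ℂ) * g (e1.symm t)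
      rw [← integral_add (S_integrable (memLp_symm hf) _) (S_integrable (memLp_symm hg) _)]
      congr 1
      ext t
      ring
    · intro c f hf
      refine Eventually.of_forall fun x => ?_
      show (∫ t, (k1 (e1 x - t) : ℂ) * (c * f (e1.symm t))) =
        c * ∫ t, (k1 (e1 x - t) : ℂ) * f (e1.symm t)
      rw [← integral_const_mul]
      congr 1
      ext t
      ring
  rep := by
    intro f _ _ _
    exact Eventually.of_forall fun x _ => T_rep f x
  size := by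
    refine ⟨1, fun x y hxy => ?_⟩
    rw [len_eq, pow_one]
    unfold K
    rw [Complex.norm_real, Real.norm_eq_abs]
    apply k1_le
    intro h
    apply hxy
    ext i
    fin_cases i
    simp only [Fin.zero_eta, Fin.isValue]
    linarith
  reg := by
    refine ⟨4, 1, one_pos, le_rfl, fun x x' y hxy hle => ?_⟩
    rw [len_eq, len_eq] at hle
    rw [len_eq, len_eq]
    simp only [Pi.sub_apply] at hle ⊢
    have hne : x 0 - y 0 ≠ 0 := by
      intro h
      apply hxy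
      ext i
      fin_cases i
      simp only [Fin.zero_eta, Fin.isValue]
      linarith
    have hpos : 0 < |x 0 - y 0| := abs_pos.2 hne
    set u := x 0 - y 0 with hu
    set v := x' 0 - y 0 with hv
    have huv : u - v = x 0 - x' 0 := by rw [hu, hv]; ring
    rw [← huv] at hle ⊢
    have h2 : |u| ≤ 2 * |v| := by
      have := abs_sub_abs_le_abs_sub u v
      linarith
    have h3 := k1_diff u v hne h2
    have e1 : ‖K x y - K x' y‖ = |k1 u - k1 v| := by
      unfold K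
      rw [← Complex.ofReal_sub, Complex.norm_real, Real.norm_eq_abs]
    have e2 : ‖K y x - K y x'‖ = |k1 u - k1 v| := by
      unfold K
      rw [← Complex.ofReal_sub, Complex.norm_real, Real.norm_eq_abs]
      have a1 : y 0 - x 0 = -u := by rw [hu]; ring
      have a2 : y 0 - x' 0 = -v := by rw [hv]; ring
      rw [a1, a2, k1_odd, k1_odd, ← abs_neg]
      congr 1
      ring
    rw [e1, e2, Real.rpow_one]
    have e3 : ((1:ℕ):ℝ) + 1 = ((2:ℕ):ℝ) := by norm_num
    rw [e3, Real.rpow_natCast]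
    calc |k1 u - k1 v| + |k1 u - k1 v| ≤ 2 * |u - v| / |u| ^ 2 + 2 * |u - v| / |u| ^ 2 :=
          add_le_add h3 h3
      _ = 4 * |u - v| / |u| ^ 2 := by ring

end Pool.Agent.E8helper96.HT
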