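import Mathlib

/-!
# Definitions for the mean-zero weight problem of the Hilbert transform
-/

set_option autoImplicit false

open MeasureTheory Filter Topology Set
open scoped ENNReal NNReal Real

namespace Pool.Agent.E8helper96.HT

/-- The truncated Hilbert integral `(1/π) ∫_{|y-x|>δ} f(y)/(x-y) dy`. -/
noncomputable def truncHilbert (f : ℝ → ℂ) (δ x : ℝ) : ℂ :=
  (1 / (π : ℂ)) * ∫ y in {y : ℝ | δ < |y - x|}, f y / ((x : ℂ) - (y : ℂ))

open Classical in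
/-- The Hilbert transform: the limit of the truncated integrals as `δ ↓ 0` where this limit exists
(almost everywhere, for integrable `f`), and `0` at the other points. -/
noncomputable def hilbert (f : ℝ → ℂ) (x : ℝ) : ℂ :=
  if h : ∃ v, Tendsto (fun δ : ℝ => truncHilbert f δ x) (𝓝[>] 0) (𝓝 v) then h.choose else 0

/-- A weight: a nonnegative, locally integrable (in particular Lebesgue measurable) function that
is not almost everywhere zero. -/
structure IsWeight (U : ℝ → ℝ) : Prop where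
  nonneg : ∀ x, 0 ≤ U x
  locInt : LocallyIntegrable U volume
  ne_zero : ¬ U =ᵐ[volume] 0

/-- `W ∈ A_p`: the supremum over bounded intervals `I` of
`(|I|⁻¹ ∫_I W) (|I|⁻¹ ∫_I W^{-1/(p-1)})^{p-1}` is finite.  The integrals are `[0,∞]`-valued and
`0^{-1/(p-1)} = ∞`. -/
def MemAp (p : ℝ) (W : ℝ → ℝ) : Prop :=
  ∃ C : ℝ≥0, ∀ a b : ℝ, a < b →
    ((∫⁻ x in Ioo a b, ENNReal.ofReal (W x)) / ENNReal.ofReal (b - a)) *
      ((∫⁻ x in Ioo a b, ENNReal.ofReal (W x) ^ (-(1 / (p - 1)))) / ENNReal.ofReal (b - a)) ^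
        (p - 1) ≤ C

/-- `U` is admissible: `∫ |Hf|^p U ≤ C ∫ |f|^p U` for all complex valued `f ∈ L¹` with `∫ f = 0`. -/
def Admissible (p : ℝ) (U : ℝ → ℝ) : Prop :=
  ∃ C : ℝ≥0, ∀ f : ℝ → ℂ, Integrable f → ∫ x, f x = 0 →
    ∫⁻ x, ‖hilbert f x‖ₑ ^ p * ENNReal.ofReal (U x) ≤
      C * ∫⁻ x, ‖f x‖ₑ ^ p * ENNReal.ofReal (U x)

/-- the same, with real valued `f` only -/
def AdmissibleReal (p : ℝ) (U : ℝ → ℝ) : Prop :=
  ∃ C : ℝ≥0, ∀ f : ℝ → ℝ, Integrable f → ∫ x, f x = 0 →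
    ∫⁻ x, ‖hilbert (fun y => (f y : ℂ)) x‖ₑ ^ p * ENNReal.ofReal (U x) ≤
      C * ∫⁻ x, ‖f x‖ₑ ^ p * ENNReal.ofReal (U x)

end Pool.Agent.E8helper96.HT
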