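import Mathlib
import Pool.Agent.Helper49.Sq.Keps

/-!
# The regularised Hilbert transform on `L²(ℝ)`
-/

set_option autoImplicit false

open MeasureTheory Filter Topology Set
open scoped ENNReal NNReal

namespace Pool.Agent.E8helper96.HT

open Pool.Agent.Helper49.Sq.Keps

/-- the kernel `u / (u² + 1)` -/
noncomputable def k1 (u : ℝ) : ℝ := k 1 u

lemma k1_cont : Continuous k1 := k_cont one_pos

lemma k1_memLp (s : ℝ) : MemLp (fun t => k1 (s - t)) 2 volume := by
  rw [memLp_two_iff_integrable_sq (by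
    exact (k1_cont.comp (continuous_const.sub continuous_id)).aestronglyMeasurable)]
  have h := (integrable_k_sq (ε := 1) one_pos).comp_sub_left s
  exact h

/-- the regularised Hilbert transform, real version -/
noncomputable def SR (a : ℝ → ℝ) (s : ℝ) : ℝ := ∫ t, k1 (s - t) * a t

lemma SR_integrable {a : ℝ → ℝ} (ha : MemLp a 2 volume) (s : ℝ) :
    Integrable (fun t => k1 (s - t) * a t) :=
  (k1_memLp s).integrable_mul ha

lemma SR_sq_bdd {a : ℝ → ℝ} (ha : Measurable a) {M : ℝ} (hM : ∀ x, |a x| ≤ M) (n : ℕ) :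
    ∫⁻ s, ENNReal.ofReal ((SR ((Icc (-(n:ℝ)) n).indicator a) s) ^ 2) ≤
      ENNReal.ofReal (Real.pi ^ 2) *
        ∫⁻ t, ENNReal.ofReal (((Icc (-(n:ℝ)) n).indicator a t) ^ 2) := by
  have hms : MeasurableSet (Icc (-(n:ℝ)) n) := measurableSet_Icc
  obtain ⟨h1, h2⟩ := keps_bound (ε := 1) one_pos (volume.restrict (Icc (-(n:ℝ)) n))
    Measure.restrict_le_self a ha M hM
  have e1 : ∀ s, (SR ((Icc (-(n:ℝ)) n).indicator a) s) ^ 2 =
      (∫ y, a y * k 1 (y - s) ∂(volume.restrict (Icc (-(n:ℝ)) n))) ^ 2 := by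
    intro s
    have : SR ((Icc (-(n:ℝ)) n).indicator a) s =
        - ∫ y, a y * k 1 (y - s) ∂(volume.restrict (Icc (-(n:ℝ)) n)) := by
      unfold SR
      rw [← integral_neg, ← integral_indicator hms]
      congr 1
      ext t
      by_cases ht : t ∈ Icc (-(n:ℝ)) n
      · rw [indicator_of_mem ht, indicator_of_mem ht]
        have : k1 (s - t) = - k 1 (t - s) := by
          unfold k1
          rw [← k_neg]; congr 1; ring
        rw [this]; ring
      · rw [indicator_of_notMem ht, indicator_of_notMem ht, mul_zero]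
    rw [this, neg_sq]
  simp_rw [e1]
  rw [← ofReal_integral_eq_lintegral_ofReal h1 (Eventually.of_forall fun x => sq_nonneg _)]
  have e2 : ∫⁻ t, ENNReal.ofReal (((Icc (-(n:ℝ)) n).indicator a t) ^ 2) =
      ENNReal.ofReal (∫ y, (a y) ^ 2 ∂(volume.restrict (Icc (-(n:ℝ)) n))) := by
    rw [ofReal_integral_eq_lintegral_ofReal _ (Eventually.of_forall fun x => sq_nonneg _)]
    · rw [← lintegral_indicator hms]
      congr 1
      ext t
      by_cases ht : t ∈ Icc (-(n:ℝ)) n
      · rw [indicator_of_mem ht, indicator_of_mem ht]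
      · rw [indicator_of_notMem ht, indicator_of_notMem ht]; simp
    · refine Integrable.of_bound (ha.pow_const 2).aestronglyMeasurable (M ^ 2)
        (Eventually.of_forall fun x => ?_)
      rw [Real.norm_eq_abs, abs_pow]
      exact pow_le_pow_left₀ (abs_nonneg _) (hM x) 2
  rw [e2, ← ENNReal.ofReal_mul (by positivity)]
  exact ENNReal.ofReal_le_ofReal h2

lemma SR_aesm {a : ℝ → ℝ} (ha : AEStronglyMeasurable a volume) :
    AEStronglyMeasurable (SR a) volume := by
  unfold SR
  have h : AEStronglyMeasurable (fun z : ℝ × ℝ => k1 (z.1 - z.2) * a z.2)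
      ((volume : Measure ℝ).prod volume) :=
    (k1_cont.comp (continuous_fst.sub continuous_snd)).aestronglyMeasurable.mul ha.comp_snd
  exact h.integral_prod_right'

lemma SR_congr {a b : ℝ → ℝ} (h : a =ᵐ[volume] b) (s : ℝ) : SR a s = SR b s := by
  unfold SR
  apply integral_congr_ae
  filter_upwards [h] with t ht
  rw [ht]

lemma SR_sq {a : ℝ → ℝ} (ha : MemLp a 2 volume) :
    ∫⁻ s, ENNReal.ofReal ((SR a s) ^ 2) ≤
      ENNReal.ofReal (Real.pi ^ 2) * ∫⁻ t, ENNReal.ofReal ((a t) ^ 2) := by
  wlog ham : Measurable a generalizing a with H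
  · obtain ⟨b, hb, hab⟩ := ha.1.aemeasurable
    have hb2 : MemLp b 2 volume := (memLp_congr_ae hab).1 ha
    have h := H hb2 hb
    have e1 : ∀ s, SR a s = SR b s := fun s => SR_congr hab s
    have e2 : ∫⁻ t, ENNReal.ofReal ((a t) ^ 2) = ∫⁻ t, ENNReal.ofReal ((b t) ^ 2) := by
      apply lintegral_congr_ae
      filter_upwards [hab] with t ht
      rw [ht]
    simp_rw [e1]
    rw [e2]
    exact h
  -- truncations
  set c : ℕ → ℝ → ℝ := fun n t => max (-(n:ℝ)) (min (a t) n) with hc
  have hcm : ∀ n, Measurable (c n) := fun n => by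
    simp only [hc]
    fun_prop
  have hcb : ∀ n t, |c n t| ≤ n := by
    intro n t
    simp only [hc]
    rw [abs_le]
    have : (0:ℝ) ≤ n := Nat.cast_nonneg n
    constructor
    · exact le_max_left _ _
    · exact max_le (by linarith) (min_le_right _ _)
  have hca : ∀ n t, |c n t| ≤ |a t| := by
    intro n t
    simp only [hc]
    have : (0:ℝ) ≤ n := Nat.cast_nonneg n
    rcases le_total 0 (a t) with h | h
    · have h0 : 0 ≤ min (a t) (n:ℝ) := le_min h this
      rw [max_eq_right (by linarith), abs_of_nonneg h0, abs_of_nonneg h]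
      exact min_le_left _ _
    · rw [min_eq_left (by linarith), abs_of_nonpos h]
      have h1 : max (-(n:ℝ)) (a t) ≤ 0 := max_le (by linarith) h
      rw [abs_of_nonpos h1]
      have := le_max_right (-(n:ℝ)) (a t)
      linarith
  have hcl : ∀ t, ∀ᶠ n : ℕ in atTop, (Icc (-(n:ℝ)) n).indicator (c n) t = a t := by
    intro t
    obtain ⟨N, hN⟩ := exists_nat_ge (max |t| |a t|)
    filter_upwards [eventually_ge_atTop N] with n hn
    have hn' : max |t| |a t| ≤ (n:ℝ) := hN.trans (by exact_mod_cast hn)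
    have h1 : |t| ≤ n := (le_max_left _ _).trans hn'
    have h2 : |a t| ≤ n := (le_max_right _ _).trans hn'
    rw [abs_le] at h1 h2
    rw [indicator_of_mem (show t ∈ Icc (-(n:ℝ)) n from ⟨h1.1, h1.2⟩)]
    simp only [hc]
    rw [min_eq_left h2.2, max_eq_right h2.1]
  have hdom : ∀ (n : ℕ) (t : ℝ), |(Icc (-(n:ℝ)) n).indicator (c n) t| ≤ |a t| := by
    intro n t
    by_cases ht : t ∈ Icc (-(n:ℝ)) n
    · rw [indicator_of_mem ht]; exact hca n t
    · rw [indicator_of_notMem ht, abs_zero]; exact abs_nonneg _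
  have hlim : ∀ s, Tendsto (fun n : ℕ => SR ((Icc (-(n:ℝ)) n).indicator (c n)) s) atTop
      (𝓝 (SR a s)) := by
    intro s
    unfold SR
    apply tendsto_integral_of_dominated_convergence (fun t => ‖k1 (s - t) * a t‖)
    · intro n
      exact ((k1_cont.comp (continuous_const.sub continuous_id)).measurable.mul
        ((hcm n).indicator measurableSet_Icc)).aestronglyMeasurable
    · exact (SR_integrable ha s).norm
    · intro n
      refine Eventually.of_forall fun t => ?_
      rw [norm_mul, norm_mul]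
      apply mul_le_mul_of_nonneg_left _ (norm_nonneg _)
      exact hdom n t
    · refine Eventually.of_forall fun t => ?_
      apply tendsto_const_nhds.congr'
      filter_upwards [hcl t] with n hn
      rw [hn]
  have hlim2 : ∀ s, ENNReal.ofReal ((SR a s) ^ 2) = liminf (fun n : ℕ =>
      ENNReal.ofReal ((SR ((Icc (-(n:ℝ)) n).indicator (c n)) s) ^ 2)) atTop := by
    intro s
    exact ((ENNReal.continuous_ofReal.tendsto _).comp ((hlim s).pow 2)).liminf_eq.symm
  simp_rw [hlim2]
  refine (lintegral_liminf_le' ?_).trans ?_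
  · intro n
    have h1 : AEStronglyMeasurable ((Icc (-(n:ℝ)) n).indicator (c n)) volume :=
      ((hcm n).indicator measurableSet_Icc).aestronglyMeasurable
    exact ((SR_aesm h1).aemeasurable.pow_const 2).ennreal_ofReal
  · refine liminf_le_of_frequently_le' (Frequently.of_forall fun n => ?_)
    refine (SR_sq_bdd (hcm n) (hcb n) n).trans ?_
    exact mul_le_mul_right (lintegral_mono fun t =>
      ENNReal.ofReal_le_ofReal (sq_le_sq.2 (hdom n t))) _

end Pool.Agent.E8helper96.HT
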