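import Pool.Agent.E8helper96.HT.Defs

/-!
# Tools for necessity
-/

set_option autoImplicit false

open MeasureTheory Filter Topology Set
open scoped ENNReal NNReal Real

namespace Pool.Agent.E8helper96.HT

/-- Hilbert transform off the support -/
lemma hilbert_eq {f : ℝ → ℂ} {x κ : ℝ} (hκ : 0 < κ) (h : ∀ y, |y - x| < κ → f y = 0) :
    hilbert f x = (1 / (π : ℂ)) * ∫ y, f y / ((x : ℂ) - (y : ℂ)) := by
  have h1 : Tendsto (fun δ : ℝ => truncHilbert f δ x) (𝓝[>] 0)
      (𝓝 ((1 / (π : ℂ)) * ∫ y, f y / ((x : ℂ) - (y : ℂ)))) := by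
    apply tendsto_const_nhds.congr'
    have h2 : ∀ᶠ δ : ℝ in 𝓝[>] 0, δ < κ := by
      have : ∀ᶠ δ : ℝ in 𝓝 0, δ < κ := gt_mem_nhds hκ
      exact this.filter_mono nhdsWithin_le_nhds
    filter_upwards [h2] with δ hδ
    unfold truncHilbert
    congr 1
    have hm : MeasurableSet {y : ℝ | δ < |y - x|} :=
      measurableSet_lt measurable_const (by fun_prop)
    rw [← integral_indicator hm]
    congr 1
    ext y
    by_cases hy : y ∈ {y : ℝ | δ < |y - x|}
    · rw [indicator_of_mem hy]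
    · rw [indicator_of_notMem hy]
      have h3 : |y - x| ≤ δ := not_lt.1 hy
      rw [h y (by linarith), zero_div]
  have h2 : ∃ v, Tendsto (fun δ : ℝ => truncHilbert f δ x) (𝓝[>] 0) (𝓝 v) := ⟨_, h1⟩
  unfold hilbert
  rw [dif_pos h2]
  exact tendsto_nhds_unique h2.choose_spec h1

/-- test functions -/
structure TF (f : ℝ → ℝ) : Prop where
  meas : AEStronglyMeasurable f volume
  nonneg : ∀ x, 0 ≤ f x
  bdd : ∃ M : ℝ, ∀ x, f x ≤ M
  supp : ∃ R : ℝ, ∀ x, R < |x| → f x = 0

lemma TF.integrable {f : ℝ → ℝ} (hf : TF f) : Integrable f := by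
  obtain ⟨M, hM⟩ := hf.bdd
  obtain ⟨R, hR⟩ := hf.supp
  have h1 : Integrable ((Icc (-R) R).indicator (fun _ : ℝ => M)) :=
    (integrable_indicator_iff measurableSet_Icc).2 (integrableOn_const (by simp))
  refine h1.mono hf.meas (Eventually.of_forall fun x => ?_)
  by_cases hx : x ∈ Icc (-R) R
  · rw [indicator_of_mem hx, Real.norm_eq_abs, Real.norm_eq_abs, abs_of_nonneg (hf.nonneg x)]
    exact (hM x).trans (le_abs_self M)
  · have h2 : R < |x| := by
      by_contra h3
      exact hx (abs_le.1 (not_lt.1 h3))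
    rw [hR x h2, norm_zero]
    exact norm_nonneg _

lemma TF.rpow_integrable {f : ℝ → ℝ} (hf : TF f) {U : ℝ → ℝ} (hU : IsWeight U) {p : ℝ}
    (hp : 0 < p) : ∫⁻ x, ENNReal.ofReal (f x) ^ p * ENNReal.ofReal (U x) ≠ ∞ := by
  obtain ⟨M, hM⟩ := hf.bdd
  obtain ⟨R, hR⟩ := hf.supp
  have h1 : ∫⁻ x in Icc (-R) R, ENNReal.ofReal (U x) ≠ ∞ := by
    have h2 := hU.locInt.integrableOn_isCompact (isCompact_Icc (a := -R) (b := R))
    have h3 := h2.2
    rw [hasFiniteIntegral_iff_ofReal (Eventually.of_forall hU.nonneg)] at h3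
    exact h3.ne
  have h2 : ∫⁻ x, ENNReal.ofReal (f x) ^ p * ENNReal.ofReal (U x) ≤
      ENNReal.ofReal M ^ p * ∫⁻ x in Icc (-R) R, ENNReal.ofReal (U x) := by
    rw [← lintegral_const_mul' _ _ (ENNReal.rpow_ne_top_of_nonneg hp.le ENNReal.ofReal_ne_top),
      ← lintegral_indicator measurableSet_Icc]
    apply lintegral_mono
    intro x
    by_cases hx : x ∈ Icc (-R) R
    · rw [indicator_of_mem hx]
      simp only []
      gcongr
      exact hM x
    · have h2 : R < |x| := by
        by_contra h3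
        exact hx (abs_le.1 (not_lt.1 h3))
      simp only []
      rw [hR x h2, ENNReal.ofReal_zero, ENNReal.zero_rpow_of_pos hp, zero_mul]
      exact bot_le
  apply ne_top_of_le_ne_top _ h2
  exact ENNReal.mul_ne_top (ENNReal.rpow_ne_top_of_nonneg hp.le ENNReal.ofReal_ne_top) h1

/-- the dual density -/
noncomputable def dens (p : ℝ) (W : ℝ → ℝ) (x : ℝ) : ℝ≥0∞ :=
  ENNReal.ofReal (W x) ^ (-(1 / (p - 1)))

/-- truncated dual density -/
noncomputable def sN (p : ℝ) (W : ℝ → ℝ) (n : ℕ) (x : ℝ) : ℝ := (min (dens p W x) n).toReal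

lemma sN_ofReal (p : ℝ) (W : ℝ → ℝ) (n : ℕ) (x : ℝ) :
    ENNReal.ofReal (sN p W n x) = min (dens p W x) n := by
  unfold sN
  apply ENNReal.ofReal_toReal
  exact (min_lt_of_right_lt (ENNReal.natCast_lt_top n)).ne

lemma sN_nonneg (p : ℝ) (W : ℝ → ℝ) (n : ℕ) (x : ℝ) : 0 ≤ sN p W n x := ENNReal.toReal_nonneg

lemma sN_le (p : ℝ) (W : ℝ → ℝ) (n : ℕ) (x : ℝ) : sN p W n x ≤ n := by
  unfold sN
  have h : min (dens p W x) (n:ℝ≥0∞) ≤ n := min_le_right _ _
  have := ENNReal.toReal_mono (ENNReal.natCast_ne_top n) h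
  simpa using this

lemma sN_aesm (p : ℝ) {W : ℝ → ℝ} (hW : AEStronglyMeasurable W volume) (n : ℕ) :
    AEStronglyMeasurable (sN p W n) volume := by
  unfold sN dens
  exact (((hW.aemeasurable.ennreal_ofReal.pow_const _).min aemeasurable_const).ennreal_toReal).aestronglyMeasurable

/-- the key inequality `s^p W ≤ s` for `s ≤ σ` -/
lemma rpow_mul_le {p : ℝ} (hp : 1 < p) (W s : ℝ≥0∞) (hW : W ≠ ∞) (hs : s ≠ ∞)
    (h : s ≤ W ^ (-(1 / (p - 1)))) : s ^ p * W ≤ s := by
  have hp1 : 0 < p - 1 := by linarith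
  rcases eq_or_ne W 0 with h0 | h0
  · rw [h0, mul_zero]; exact bot_le
  rcases eq_or_ne s 0 with hs0 | hs0
  · rw [hs0, ENNReal.zero_rpow_of_pos (by linarith), zero_mul]
  have h1 : s ^ (p - 1) ≤ (W ^ (-(1 / (p - 1)))) ^ (p - 1) := ENNReal.rpow_le_rpow h hp1.le
  rw [← ENNReal.rpow_mul] at h1
  have h2 : -(1 / (p - 1)) * (p - 1) = -1 := by field_simp
  rw [h2, ENNReal.rpow_neg_one] at h1
  have h3 : s ^ p = s * s ^ (p - 1) := by
    nth_rewrite 2 [← ENNReal.rpow_one s]
    rw [← ENNReal.rpow_add _ _ hs0 hs]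
    congr 1
    ring
  calc s ^ p * W = s * (s ^ (p - 1) * W) := by rw [h3]; ring
    _ ≤ s * (W⁻¹ * W) := by gcongr
    _ = s := by rw [ENNReal.inv_mul_cancel h0 hW, mul_one]

lemma sN_rpow {p : ℝ} (hp : 1 < p) (W : ℝ → ℝ) (n : ℕ) (x : ℝ) :
    ENNReal.ofReal (sN p W n x) ^ p * ENNReal.ofReal (W x) ≤ ENNReal.ofReal (sN p W n x) := by
  apply rpow_mul_le hp _ _ ENNReal.ofReal_ne_top ENNReal.ofReal_ne_top
  rw [sN_ofReal]
  exact min_le_left _ _

lemma dens_pos (p : ℝ) (hp : 1 < p) (W : ℝ → ℝ) (x : ℝ) : 0 < dens p W x := by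
  have hp1 : 0 < p - 1 := by linarith
  rw [pos_iff_ne_zero]
  intro h
  unfold dens at h
  rw [ENNReal.rpow_eq_zero_iff] at h
  rcases h with ⟨_, h⟩ | ⟨h, _⟩
  · have : 0 < 1 / (p - 1) := by positivity
    linarith
  · exact ENNReal.ofReal_ne_top h

/-- truncations of the dual density on an exhausting sequence -/
lemma lint_trunc {p : ℝ} {W : ℝ → ℝ} (hW : AEStronglyMeasurable W volume) {E : Set ℝ}
    (hE : MeasurableSet E) {K : ℕ → Set ℝ} (hKm : ∀ n, MeasurableSet (K n)) (hKmono : Monotone K)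
    (hK : ∀ᵐ x : ℝ, ∃ n, x ∈ K n) :
    Tendsto (fun n : ℕ => ∫⁻ x, ENNReal.ofReal ((E ∩ K n).indicator (sN p W n) x)) atTop
      (𝓝 (∫⁻ x in E, dens p W x)) := by
  rw [← lintegral_indicator hE]
  have he : ∀ (n : ℕ) (x : ℝ), ENNReal.ofReal ((E ∩ K n).indicator (sN p W n) x) =
      (E ∩ K n).indicator (fun x => min (dens p W x) n) x := by
    intro n x
    by_cases hx : x ∈ E ∩ K n
    · rw [indicator_of_mem hx, indicator_of_mem hx, sN_ofReal]
    · rw [indicator_of_notMem hx, indicator_of_notMem hx, ENNReal.ofReal_zero]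
  simp_rw [he]
  have hd : AEMeasurable (dens p W) volume := hW.aemeasurable.ennreal_ofReal.pow_const _
  apply lintegral_tendsto_of_tendsto_of_monotone
  · intro n
    exact (hd.min aemeasurable_const).indicator (hE.inter (hKm n))
  · refine Eventually.of_forall fun x => ?_
    intro m n hmn
    simp only []
    by_cases hx : x ∈ E ∩ K m
    · have hx' : x ∈ E ∩ K n := ⟨hx.1, hKmono hmn hx.2⟩
      rw [indicator_of_mem hx, indicator_of_mem hx']
      exact min_le_min le_rfl (by exact_mod_cast hmn)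
    · rw [indicator_of_notMem hx]
      exact bot_le
  · filter_upwards [hK] with x ⟨k, hk⟩
    by_cases hx : x ∈ E
    · rw [indicator_of_mem hx]
      have h1 : Tendsto (fun n : ℕ => min (dens p W x) (n:ℝ≥0∞)) atTop
          (𝓝 (min (dens p W x) ∞)) := by
        apply Tendsto.min tendsto_const_nhds
        exact ENNReal.tendsto_nat_nhds_top
      rw [min_eq_left le_top] at h1
      apply h1.congr'
      filter_upwards [eventually_ge_atTop k] with n hn
      have hmem : x ∈ E ∩ K n := ⟨hx, hKmono hn hk⟩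
      rw [indicator_of_mem hmem]
    · rw [indicator_of_notMem hx]
      apply tendsto_const_nhds.congr
      intro n
      rw [indicator_of_notMem (fun h => hx h.1)]

/-- geometry: `x ∈ J` lies on a fixed side of `I`, at distance at most `2l` -/
def Adj (ε l : ℝ) (I J : Set ℝ) : Prop :=
  ∀ x ∈ J, ∃ κ : ℝ, 0 < κ ∧ ∀ y ∈ I, κ ≤ ε * (x - y) ∧ ε * (x - y) ≤ 2 * l

lemma adj_right (a l : ℝ) : Adj 1 l (Ioo a (a + l)) (Ioo (a + l) (a + 2 * l)) := by
  intro x hx
  refine ⟨x - (a + l), by linarith [hx.1], fun y hy => ?_⟩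
  constructor
  · linarith [hy.2]
  · linarith [hy.1, hx.2]

lemma adj_left (a l : ℝ) : Adj (-1) l (Ioo (a + l) (a + 2 * l)) (Ioo a (a + l)) := by
  intro x hx
  refine ⟨(a + l) - x, by linarith [hx.2], fun y hy => ?_⟩
  constructor
  · linarith [hy.1]
  · linarith [hy.2, hx.1]

/-- the test inequality -/
def Test (p : ℝ) (W : ℝ → ℝ) (B : ℝ≥0) (K : ℕ → Set ℝ) : Prop :=
  ∀ (ε l a b : ℝ) (I : Set ℝ), (ε = 1 ∨ ε = -1) → 0 < l → Adj ε l I (Ioo a b) →
    ∀ f : ℝ → ℝ, TF f → (∀ x, x ∉ I → f x = 0) → (∃ n, ∀ x, x ∉ K n → f x = 0) →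
      (∫⁻ x in Ioo a b, ENNReal.ofReal (W x)) * (∫⁻ x, ENNReal.ofReal (f x)) ^ p ≤
        B * ENNReal.ofReal l ^ p * ∫⁻ x, ENNReal.ofReal (f x) ^ p * ENNReal.ofReal (W x)

theorem memAp_of_test {p : ℝ} (hp : 1 < p) {W : ℝ → ℝ}
    (hWm : AEStronglyMeasurable W volume) (B : ℝ≥0) {K : ℕ → Set ℝ}
    (hKm : ∀ n, MeasurableSet (K n)) (hKmono : Monotone K) (hK : ∀ᵐ x : ℝ, ∃ n, x ∈ K n)
    (h : Test p W B K) : MemAp p W := by
  have hp0 : 0 < p := by linarith
  have hp1 : 0 < p - 1 := by linarith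
  refine ⟨B ^ 2, fun a b hab => ?_⟩
  set l := b - a with hl
  have hl0 : 0 < l := by linarith
  have hb : b = a + l := by linarith
  rw [hb]
  set I := Ioo a (a + l) with hI
  set J := Ioo (a + l) (a + 2 * l) with hJ
  set L := ENNReal.ofReal l with hL
  have hL0 : L ≠ 0 := by simpa [hL] using hl0
  have hLt : L ≠ ∞ := ENNReal.ofReal_ne_top
  set WI := ∫⁻ x in I, ENNReal.ofReal (W x) with hWI
  set WJ := ∫⁻ x in J, ENNReal.ofReal (W x) with hWJ
  set SI := ∫⁻ x in I, dens p W x with hSI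
  -- first inequality: WJ * SI^(p-1) ≤ B L^p
  have hd : AEMeasurable (dens p W) volume := hWm.aemeasurable.ennreal_ofReal.pow_const _
  have h1 : WJ * SI ^ (p - 1) ≤ B * L ^ p := by
    have ht := lint_trunc (p := p) hWm (measurableSet_Ioo (a := a) (b := a + l)) hKm hKmono hK
    have hn : ∀ n : ℕ, (∫⁻ x, ENNReal.ofReal ((I ∩ K n).indicator (sN p W n) x)) ≠ 0 →
        WJ * (∫⁻ x, ENNReal.ofReal ((I ∩ K n).indicator (sN p W n) x)) ^ (p - 1) ≤ B * L ^ p := by
      intro n hne
      set f : ℝ → ℝ := (I ∩ K n).indicator (sN p W n) with hf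
      have hTF : TF f := by
        refine ⟨(sN_aesm p hWm n).indicator (measurableSet_Ioo.inter (hKm n)), ?_, ⟨n, ?_⟩,
          ⟨max |a| |a + l|, ?_⟩⟩
        · intro x
          exact indicator_nonneg (fun _ _ => sN_nonneg _ _ _ _) x
        · intro x
          by_cases hx : x ∈ I ∩ K n
          · rw [hf, indicator_of_mem hx]; exact sN_le _ _ _ _
          · rw [hf, indicator_of_notMem hx]; positivity
        · intro x hx
          rw [hf, indicator_of_notMem]
          intro hx2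
          have h3 := hx2.1
          rw [hI] at h3
          have : |x| ≤ max |a| |a + l| := abs_le_max_abs_abs h3.1.le h3.2.le
          linarith
      have hsup : ∀ x, x ∉ I → f x = 0 := fun x hx => by
        rw [hf, indicator_of_notMem (fun h => hx h.1)]
      have hsupK : ∃ n, ∀ x, x ∉ K n → f x = 0 := ⟨n, fun x hx => by
        rw [hf, indicator_of_notMem (fun h => hx h.2)]⟩
      have h3 := h 1 l (a + l) (a + 2 * l) I (Or.inl rfl) hl0 (adj_right a l) f hTF hsup hsupK
      have h4 : ∫⁻ x, ENNReal.ofReal (f x) ^ p * ENNReal.ofReal (W x) ≤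
          ∫⁻ x, ENNReal.ofReal (f x) := by
        apply lintegral_mono
        intro x
        simp only []
        by_cases hx : x ∈ I ∩ K n
        · rw [hf, indicator_of_mem hx]; exact sN_rpow hp W n x
        · rw [hf, indicator_of_notMem hx, ENNReal.ofReal_zero, ENNReal.zero_rpow_of_pos hp0,
            zero_mul]
      set s := ∫⁻ x, ENNReal.ofReal (f x) with hs
      have hst : s ≠ ∞ := by
        have := hTF.integrable.2
        rw [hasFiniteIntegral_iff_ofReal (Eventually.of_forall hTF.nonneg)] at this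
        exact this.ne
      have h5 : WJ * s ^ p ≤ B * L ^ p * s := h3.trans (by gcongr)
      have h6 : s ^ p = s ^ (p - 1) * s := by
        nth_rewrite 3 [← ENNReal.rpow_one s]
        rw [← ENNReal.rpow_add _ _ hne hst]
        congr 1
        ring
      rw [h6, ← mul_assoc] at h5
      exact (ENNReal.mul_le_mul_iff_left hne hst).1 h5
    have hlim : Tendsto (fun n : ℕ => WJ * (∫⁻ x, ENNReal.ofReal
        ((I ∩ K n).indicator (sN p W n) x)) ^ (p - 1)) atTop (𝓝 (WJ * SI ^ (p - 1))) := by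
      apply ENNReal.Tendsto.const_mul
      · exact (ENNReal.continuous_rpow_const.tendsto _).comp ht
      · left
        have hSI0 : SI ≠ 0 := by
          intro h0
          have h5 := (lintegral_eq_zero_iff' hd.restrict).1 h0
          have h6 : ∀ᵐ x ∂(volume.restrict I), False := by
            filter_upwards [h5] with x hx
            exact (dens_pos p hp W x).ne' hx
          rw [ae_iff] at h6
          simp only [not_false_eq_true] at h6
          have h7 : volume.restrict I univ = 0 := h6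
          rw [Measure.restrict_apply_univ, hI, Real.volume_Ioo] at h7
          simp only [ENNReal.ofReal_eq_zero] at h7
          linarith
        intro h0
        rw [ENNReal.rpow_eq_zero_iff] at h0
        rcases h0 with ⟨h0, _⟩ | ⟨_, h0⟩
        · exact hSI0 h0
        · linarith
    apply le_of_tendsto hlim
    refine Eventually.of_forall fun n => ?_
    rcases eq_or_ne (∫⁻ x, ENNReal.ofReal ((I ∩ K n).indicator (sN p W n) x)) 0 with h0 | h0
    · rw [h0, ENNReal.zero_rpow_of_pos hp1, mul_zero]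
      exact bot_le
    · exact hn n h0
  -- second inequality: WI ≤ B WJ
  have h2 : WI ≤ B * WJ := by
    have hone : ∀ n : ℕ, WI * (volume (J ∩ K n)) ^ p ≤ B * L ^ p * WJ := by
      intro n
      set f : ℝ → ℝ := (J ∩ K n).indicator (fun _ => 1) with hf
      have hTF : TF f := by
        refine ⟨aestronglyMeasurable_const.indicator (measurableSet_Ioo.inter (hKm n)), ?_, ⟨1, ?_⟩,
          ⟨max |a + l| |a + 2 * l|, ?_⟩⟩
        · intro x
          exact indicator_nonneg (fun _ _ => zero_le_one) x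
        · intro x
          by_cases hx : x ∈ J ∩ K n
          · rw [hf, indicator_of_mem hx]
          · rw [hf, indicator_of_notMem hx]; exact zero_le_one
        · intro x hx
          rw [hf, indicator_of_notMem]
          intro hx2
          have h3 := hx2.1
          rw [hJ] at h3
          have : |x| ≤ max |a + l| |a + 2 * l| := abs_le_max_abs_abs h3.1.le h3.2.le
          linarith
      have hsup : ∀ x, x ∉ J → f x = 0 := fun x hx => by
        rw [hf, indicator_of_notMem (fun h => hx h.1)]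
      have hsupK : ∃ n, ∀ x, x ∉ K n → f x = 0 := ⟨n, fun x hx => by
        rw [hf, indicator_of_notMem (fun h => hx h.2)]⟩
      have h3 := h (-1) l a (a + l) J (Or.inr rfl) hl0 (adj_left a l) f hTF hsup hsupK
      have e1 : ∫⁻ x, ENNReal.ofReal (f x) = volume (J ∩ K n) := by
        have : ∀ x, ENNReal.ofReal (f x) = (J ∩ K n).indicator (fun _ => (1:ℝ≥0∞)) x := by
          intro x
          by_cases hx : x ∈ J ∩ K n
          · rw [hf, indicator_of_mem hx, indicator_of_mem hx, ENNReal.ofReal_one]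
          · rw [hf, indicator_of_notMem hx, indicator_of_notMem hx, ENNReal.ofReal_zero]
        simp_rw [this]
        rw [lintegral_indicator_const (measurableSet_Ioo.inter (hKm n)), one_mul]
      have e2 : ∫⁻ x, ENNReal.ofReal (f x) ^ p * ENNReal.ofReal (W x) ≤ WJ := by
        rw [hWJ, ← lintegral_indicator measurableSet_Ioo]
        apply lintegral_mono
        intro x
        simp only []
        by_cases hx : x ∈ J ∩ K n
        · rw [hf, indicator_of_mem hx, indicator_of_mem hx.1, ENNReal.ofReal_one,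
            ENNReal.one_rpow, one_mul]
        · rw [hf, indicator_of_notMem hx, ENNReal.ofReal_zero, ENNReal.zero_rpow_of_pos hp0,
            zero_mul]
          exact bot_le
      rw [e1] at h3
      exact h3.trans (by gcongr)
    have hvol : Tendsto (fun n : ℕ => volume (J ∩ K n)) atTop (𝓝 L) := by
      have h5 : Tendsto (fun n : ℕ => volume (J ∩ K n)) atTop (𝓝 (volume (⋃ n, J ∩ K n))) :=
        tendsto_measure_iUnion_atTop (fun m n hmn => inter_subset_inter_right _ (hKmono hmn))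
      have h6 : volume (⋃ n, J ∩ K n) = L := by
        have h7 : (⋃ n, J ∩ K n : Set ℝ) =ᵐ[volume] J := by
          rw [← inter_iUnion]
          have : (⋃ n, K n) =ᵐ[volume] (univ : Set ℝ) := by
            rw [eventuallyEq_univ]
            filter_upwards [hK] with x hx
            exact mem_iUnion.2 hx
          have h8 := (ae_eq_refl J).inter this
          rwa [inter_univ] at h8
        rw [measure_congr h7, hJ, Real.volume_Ioo, hL]
        congr 1
        ring
      rwa [h6] at h5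
    have hlim : Tendsto (fun n : ℕ => WI * (volume (J ∩ K n)) ^ p) atTop (𝓝 (WI * L ^ p)) := by
      apply ENNReal.Tendsto.const_mul
      · exact (ENNReal.continuous_rpow_const.tendsto _).comp hvol
      · left
        intro h0
        rw [ENNReal.rpow_eq_zero_iff] at h0
        rcases h0 with ⟨h0, _⟩ | ⟨_, h0⟩
        · exact hL0 h0
        · linarith
    have h5 : WI * L ^ p ≤ B * L ^ p * WJ := le_of_tendsto hlim (Eventually.of_forall hone)
    have hLp0 : L ^ p ≠ 0 := by
      intro h0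
      rw [ENNReal.rpow_eq_zero_iff] at h0
      rcases h0 with ⟨h0, _⟩ | ⟨_, h0⟩
      · exact hL0 h0
      · linarith
    have hLpt : L ^ p ≠ ∞ := ENNReal.rpow_ne_top_of_nonneg hp0.le hLt
    have h6 : WI * L ^ p ≤ (B * WJ) * L ^ p := h5.trans (le_of_eq (by ring))
    exact (ENNReal.mul_le_mul_iff_left hLp0 hLpt).1 h6
  have h3 : WI * SI ^ (p - 1) ≤ B ^ 2 * L ^ p := by
    calc WI * SI ^ (p - 1) ≤ (B * WJ) * SI ^ (p - 1) := by gcongr
      _ = B * (WJ * SI ^ (p - 1)) := by ring
      _ ≤ B * (B * L ^ p) := by gcongr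
      _ = _ := by ring
  show (WI / L) * (SI / L) ^ (p - 1) ≤ _
  rw [ENNReal.div_rpow_of_nonneg _ _ hp1.le]
  have e2 : L ^ p = L * L ^ (p - 1) := by
    nth_rewrite 2 [← ENNReal.rpow_one L]
    rw [← ENNReal.rpow_add _ _ hL0 hLt]
    congr 1
    ring
  have hLq0 : L ^ (p - 1) ≠ 0 := by
    intro h0
    rw [ENNReal.rpow_eq_zero_iff] at h0
    rcases h0 with ⟨h0, _⟩ | ⟨_, h0⟩
    · exact hL0 h0
    · linarith
  have hLqt : L ^ (p - 1) ≠ ∞ := ENNReal.rpow_ne_top_of_nonneg hp1.le hLt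
  calc (WI / L) * (SI ^ (p - 1) / L ^ (p - 1)) = (WI * SI ^ (p - 1)) / (L * L ^ (p - 1)) := by
        rw [ENNReal.div_eq_inv_mul, ENNReal.div_eq_inv_mul, ENNReal.div_eq_inv_mul,
          ENNReal.mul_inv (Or.inl hL0) (Or.inl hLt)]
        ring
    _ ≤ (B ^ 2 * L ^ p) / (L * L ^ (p - 1)) := by gcongr
    _ = (B:ℝ≥0∞) ^ 2 := by
        rw [← e2]
        apply ENNReal.mul_div_cancel_right
        · rw [e2]; exact mul_ne_zero hL0 hLq0
        · rw [e2]; exact ENNReal.mul_ne_top hLt hLqt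
    _ ≤ _ := by push_cast; exact le_rfl

/-- bumps with small norm on sets where the dual density is not integrable -/
lemma exists_bump {p : ℝ} (hp : 1 < p) {U : ℝ → ℝ} (hUm : AEStronglyMeasurable U volume)
    {E : Set ℝ} (hE : MeasurableSet E) (hinf : ∫⁻ x in E, dens p U x = ∞) (η : ℝ≥0) (hη : 0 < η) :
    ∃ h : ℝ → ℝ, TF h ∧ (∀ x, x ∉ E → h x = 0) ∧ ∫ x, h x = 1 ∧
      ∫⁻ x, ENNReal.ofReal (h x) ^ p * ENNReal.ofReal (U x) ≤ η := by
  have hp0 : 0 < p := by linarith
  have hp1 : 0 < p - 1 := by linarith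
  set K : ℕ → Set ℝ := fun n => Icc (-(n:ℝ)) n with hK
  have hKm : ∀ n, MeasurableSet (K n) := fun n => measurableSet_Icc
  have hKmono : Monotone K := by
    intro m n hmn
    have : (m:ℝ) ≤ n := by exact_mod_cast hmn
    exact Icc_subset_Icc (by linarith) this
  have hKu : ∀ᵐ x : ℝ, ∃ n, x ∈ K n := by
    refine Eventually.of_forall fun x => ?_
    obtain ⟨n, hn⟩ := exists_nat_ge |x|
    exact ⟨n, abs_le.1 hn⟩
  have ht := lint_trunc (p := p) hUm hE hKm hKmono hKu
  rw [hinf] at ht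
  -- choose n with large integral
  have ht2 : Tendsto (fun n : ℕ => (∫⁻ x, ENNReal.ofReal ((E ∩ K n).indicator (sN p U n) x)) ^
      (1 - p)) atTop (𝓝 0) := by
    have h1 := (ENNReal.continuous_rpow_const (y := 1 - p)).tendsto (∞ : ℝ≥0∞)
    rw [ENNReal.top_rpow_of_neg (by linarith)] at h1
    exact h1.comp ht
  have h1 : ∀ᶠ n : ℕ in atTop, (∫⁻ x, ENNReal.ofReal ((E ∩ K n).indicator (sN p U n) x)) ^
      (1 - p) < η := (tendsto_order.1 ht2).2 _ (by exact_mod_cast hη)
  have h2 : ∀ᶠ n : ℕ in atTop, 1 < ∫⁻ x, ENNReal.ofReal ((E ∩ K n).indicator (sN p U n) x) :=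
    (tendsto_order.1 ht).1 _ ENNReal.one_lt_top
  obtain ⟨n, hn1, hn2⟩ := (h1.and h2).exists
  set s : ℝ → ℝ := (E ∩ K n).indicator (sN p U n) with hs
  have hTF : TF s := by
    refine ⟨(sN_aesm p hUm n).indicator (hE.inter (hKm n)), ?_, ⟨n, ?_⟩, ⟨n, ?_⟩⟩
    · intro x
      exact indicator_nonneg (fun _ _ => sN_nonneg _ _ _ _) x
    · intro x
      by_cases hx : x ∈ E ∩ K n
      · rw [hs, indicator_of_mem hx]; exact sN_le _ _ _ _
      · rw [hs, indicator_of_notMem hx]; positivity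
    · intro x hx
      rw [hs, indicator_of_notMem]
      intro hx2
      have h3 : |x| ≤ n := abs_le.2 hx2.2
      linarith
  set S := ∫⁻ x, ENNReal.ofReal (s x) with hS
  have hSt : S ≠ ∞ := by
    have := hTF.integrable.2
    rw [hasFiniteIntegral_iff_ofReal (Eventually.of_forall hTF.nonneg)] at this
    exact this.ne
  have hS0 : S ≠ 0 := (zero_lt_one.trans hn2).ne'
  have hSr : ∫ x, s x = S.toReal := by
    rw [integral_eq_lintegral_of_nonneg_ae (Eventually.of_forall hTF.nonneg) hTF.meas]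
  have hSr0 : 0 < S.toReal := ENNReal.toReal_pos hS0 hSt
  obtain ⟨M, hM⟩ := hTF.bdd
  obtain ⟨R, hR⟩ := hTF.supp
  refine ⟨fun x => S.toReal⁻¹ * s x, ⟨hTF.meas.const_mul _, fun x => mul_nonneg (by positivity)
    (hTF.nonneg x), ⟨S.toReal⁻¹ * M, fun x => mul_le_mul_of_nonneg_left (hM x) (by positivity)⟩,
    ⟨R, fun x hx => by rw [hR x hx, mul_zero]⟩⟩, ?_, ?_, ?_⟩
  · intro x hx
    show S.toReal⁻¹ * s x = 0
    have h5 : s x = 0 := by rw [hs, indicator_of_notMem (fun h => hx h.1)]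
    rw [h5, mul_zero]
  · rw [integral_const_mul, hSr, inv_mul_cancel₀ hSr0.ne']
  · have e1 : ∀ x, ENNReal.ofReal (S.toReal⁻¹ * s x) ^ p * ENNReal.ofReal (U x) =
        S⁻¹ ^ p * (ENNReal.ofReal (s x) ^ p * ENNReal.ofReal (U x)) := by
      intro x
      rw [ENNReal.ofReal_mul (by positivity), ENNReal.mul_rpow_of_nonneg _ _ hp0.le, mul_assoc,
        ENNReal.ofReal_inv_of_pos hSr0, ENNReal.ofReal_toReal hSt]
    simp_rw [e1]
    rw [lintegral_const_mul' _ _ (ENNReal.rpow_ne_top_of_nonneg hp0.le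
      (ENNReal.inv_ne_top.2 hS0))]
    have e2 : ∫⁻ x, ENNReal.ofReal (s x) ^ p * ENNReal.ofReal (U x) ≤ S := by
      apply lintegral_mono
      intro x
      simp only []
      by_cases hx : x ∈ E ∩ K n
      · rw [hs, indicator_of_mem hx]; exact sN_rpow hp U n x
      · rw [hs, indicator_of_notMem hx, ENNReal.ofReal_zero, ENNReal.zero_rpow_of_pos hp0,
          zero_mul]
    calc S⁻¹ ^ p * ∫⁻ x, ENNReal.ofReal (s x) ^ p * ENNReal.ofReal (U x) ≤ S⁻¹ ^ p * S := by
          gcongr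
      _ = S ^ (1 - p) := by
          rw [ENNReal.inv_rpow, ← ENNReal.rpow_neg]
          nth_rewrite 2 [← ENNReal.rpow_one S]
          rw [← ENNReal.rpow_add _ _ hS0 hSt]
          congr 1
          ring
      _ ≤ η := hn1.le

end Pool.Agent.E8helper96.HT
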