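import Pool.Agent.E8helper96.HT.Nec1

/-!
# Necessity: the first two cases
-/

set_option autoImplicit false

open MeasureTheory Filter Topology Set
open scoped ENNReal NNReal Real

namespace Pool.Agent.E8helper96.HT

/-- the unnormalised Hilbert integral -/
noncomputable def HI (g : ℝ → ℂ) (x : ℝ) : ℂ := ∫ y, g y / ((x : ℂ) - (y : ℂ))

lemma sub_norm (x y : ℝ) : ‖(x : ℂ) - (y : ℂ)‖ = |x - y| := by
  rw [← Complex.ofReal_sub, Complex.norm_real, Real.norm_eq_abs]

lemma HI_le {g : ℝ → ℂ} {x D : ℝ} (hD : 0 < D) (h : ∀ y, g y ≠ 0 → D ≤ |x - y|) (y : ℝ) :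
    ‖g y / ((x : ℂ) - (y : ℂ))‖ ≤ D⁻¹ * ‖g y‖ := by
  rw [norm_div, sub_norm]
  rcases eq_or_ne (g y) 0 with h0 | h0
  · rw [h0]; simp
  · rw [div_eq_mul_inv, mul_comm]
    exact mul_le_mul_of_nonneg_right (inv_anti₀ hD (h y h0)) (norm_nonneg _)

lemma HI_integrable {g : ℝ → ℂ} (hg : Integrable g) {x D : ℝ} (hD : 0 < D)
    (h : ∀ y, g y ≠ 0 → D ≤ |x - y|) : Integrable (fun y : ℝ => g y / ((x : ℂ) - (y : ℂ))) := by
  refine (hg.norm.const_mul D⁻¹).mono ?_ (Eventually.of_forall fun y => ?_)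
  · have hm : Measurable (fun y : ℝ => ((x : ℂ) - (y : ℂ))) := by fun_prop
    exact (hg.1.aemeasurable.div hm.aemeasurable).aestronglyMeasurable
  · exact (HI_le hD h y).trans (le_abs_self _)

lemma HI_upper {g : ℝ → ℂ} (hg : Integrable g) {x D : ℝ} (hD : 0 < D)
    (h : ∀ y, g y ≠ 0 → D ≤ |x - y|) : ‖HI g x‖ ≤ D⁻¹ * ∫ y, ‖g y‖ := by
  unfold HI
  rw [← integral_const_mul]
  exact norm_integral_le_of_norm_le (hg.norm.const_mul D⁻¹) (Eventually.of_forall (HI_le hD h))

lemma HI_lower {f : ℝ → ℝ} (hf : TF f) {ε l κ x : ℝ} (hε : ε = 1 ∨ ε = -1)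
    (hκ : 0 < κ) (h : ∀ y, f y ≠ 0 → κ ≤ ε * (x - y) ∧ ε * (x - y) ≤ 2 * l) :
    (∫ y, f y) / (2 * l) ≤ ‖HI (fun y => (f y : ℂ)) x‖ := by
  have habs : ∀ y, f y ≠ 0 → |x - y| = ε * (x - y) := by
    intro y hy
    have h1 := (h y hy).1
    rcases hε with rfl | rfl
    · rw [one_mul] at h1 ⊢; exact abs_of_pos (by linarith)
    · rw [abs_of_neg (by linarith)]; ring
  have h1 : HI (fun y => (f y : ℂ)) x = ((∫ y, f y / (x - y) : ℝ) : ℂ) := by
    unfold HI
    rw [← integral_complex_ofReal]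
    congr 1
    ext y
    push_cast
    rfl
  have hint : Integrable (fun y => f y / (x - y)) := by
    refine (hf.integrable.norm.const_mul κ⁻¹).mono
      (hf.meas.aemeasurable.div (by fun_prop)).aestronglyMeasurable
      (Eventually.of_forall fun y => ?_)
    refine le_trans ?_ (le_abs_self _)
    rw [norm_div, Real.norm_eq_abs (x - y)]
    rcases eq_or_ne (f y) 0 with h0 | h0
    · rw [h0]; simp
    · rw [div_eq_mul_inv, mul_comm, habs y h0]
      exact mul_le_mul_of_nonneg_right (inv_anti₀ hκ (h y h0).1) (norm_nonneg _)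
  rw [h1, Complex.norm_real, Real.norm_eq_abs]
  have h2 : (∫ y, f y) / (2 * l) ≤ ε * ∫ y, f y / (x - y) := by
    rw [← integral_div, ← integral_const_mul]
    apply integral_mono (hf.integrable.div_const _) (hint.const_mul _)
    intro y
    simp only []
    rcases eq_or_ne (f y) 0 with h0 | h0
    · rw [h0]; simp
    · have h3 := h y h0
      have hxy : 0 < ε * (x - y) := lt_of_lt_of_le hκ h3.1
      have h4 : ε * (f y / (x - y)) = f y / (ε * (x - y)) := by
        rcases hε with rfl | rfl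
        · rw [one_mul, one_mul]
        · rw [neg_one_mul, neg_one_mul, div_neg]
      rw [h4]
      exact div_le_div_of_nonneg_left (hf.nonneg y) hxy h3.2
  refine h2.trans ?_
  rcases hε with rfl | rfl
  · rw [one_mul]; exact le_abs_self _
  · rw [neg_one_mul]; exact neg_le_abs _

lemma HI_mul {g : ℝ → ℂ} (hg : Integrable g) {x D : ℝ} (hD : 0 < D)
    (h : ∀ y, g y ≠ 0 → D ≤ |x - y|) (z : ℂ)
    (hgz : Integrable (fun y : ℝ => ((y : ℂ) - z) * g y)) :
    ((x : ℂ) - z) * HI g x = (∫ y, g y) + HI (fun y => ((y : ℂ) - z) * g y) x := by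
  have h' : ∀ y : ℝ, ((y : ℂ) - z) * g y ≠ 0 → D ≤ |x - y| := fun y hy =>
    h y (right_ne_zero_of_mul hy)
  have h2 := HI_integrable hgz hD h'
  unfold HI
  rw [← integral_const_mul, ← integral_add hg h2]
  congr 1
  ext y
  rcases eq_or_ne (g y) 0 with h0 | h0
  · rw [h0]; simp
  · have h1 := h y h0
    have h3 : (x : ℂ) - (y : ℂ) ≠ 0 := by
      rw [← norm_ne_zero_iff, sub_norm]
      linarith
    field_simp
    ring

lemma HI_sub {g₁ g₂ : ℝ → ℂ} (h₁ : Integrable g₁) (h₂ : Integrable g₂) {x D : ℝ} (hD : 0 < D)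
    (k₁ : ∀ y, g₁ y ≠ 0 → D ≤ |x - y|) (k₂ : ∀ y, g₂ y ≠ 0 → D ≤ |x - y|) (c : ℂ) :
    HI (fun y => g₁ y - c * g₂ y) x = HI g₁ x - c * HI g₂ x := by
  unfold HI
  rw [← integral_const_mul, ← integral_sub (HI_integrable h₁ hD k₁)
    ((HI_integrable h₂ hD k₂).const_mul c)]
  congr 1
  ext y
  ring

lemma hilbert_HI {g : ℝ → ℂ} {x D : ℝ} (hD : 0 < D) (h : ∀ y, g y ≠ 0 → D ≤ |x - y|) :
    hilbert g x = (1 / (π : ℂ)) * HI g x := by
  apply hilbert_eq hD
  intro y hy
  by_contra h0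
  have := h y h0
  rw [abs_sub_comm] at this
  linarith

lemma norm_hilbert_HI {g : ℝ → ℂ} {x D : ℝ} (hD : 0 < D) (h : ∀ y, g y ≠ 0 → D ≤ |x - y|) :
    ‖hilbert g x‖ = π⁻¹ * ‖HI g x‖ := by
  rw [hilbert_HI hD h, norm_mul, norm_div, norm_one, Complex.norm_real, Real.norm_eq_abs,
    abs_of_pos Real.pi_pos, one_div]

lemma rhs_bound {p : ℝ} (hp : 1 < p) {U : ℝ → ℝ} (hU : AEStronglyMeasurable U volume)
    (F : ℝ → ℂ) {h : ℝ → ℝ} (hh : TF h) (c : ℂ) :
    ∫⁻ x, ‖F x - c * (h x : ℂ)‖ₑ ^ p * ENNReal.ofReal (U x) ≤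
      2 ^ (p - 1) * ((∫⁻ x, ‖F x‖ₑ ^ p * ENNReal.ofReal (U x)) +
        ‖c‖ₑ ^ p * ∫⁻ x, ENNReal.ofReal (h x) ^ p * ENNReal.ofReal (U x)) := by
  have hp0 : 0 < p := by linarith
  have h2 : (2:ℝ≥0∞) ^ (p - 1) ≠ ∞ := ENNReal.rpow_ne_top_of_nonneg (by linarith) (by simp)
  have hc : ‖c‖ₑ ^ p ≠ ∞ := ENNReal.rpow_ne_top_of_nonneg (by linarith) (by simp)
  rw [← lintegral_const_mul' _ _ hc, ← lintegral_add_right', ← lintegral_const_mul' _ _ h2]
  · apply lintegral_mono
    intro x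
    simp only []
    have e1 : ‖F x - c * (h x : ℂ)‖ₑ ≤ ‖F x‖ₑ + ‖c‖ₑ * ENNReal.ofReal (h x) := by
      refine (enorm_sub_le).trans ?_
      rw [enorm_mul]
      apply le_of_eq
      congr 2
      rw [← ofReal_norm, Complex.norm_real, Real.norm_eq_abs, abs_of_nonneg (hh.nonneg x)]
    calc ‖F x - c * (h x : ℂ)‖ₑ ^ p * ENNReal.ofReal (U x)
        ≤ (‖F x‖ₑ + ‖c‖ₑ * ENNReal.ofReal (h x)) ^ p * ENNReal.ofReal (U x) := by gcongr
      _ ≤ (2 ^ (p - 1) * (‖F x‖ₑ ^ p + (‖c‖ₑ * ENNReal.ofReal (h x)) ^ p)) *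
            ENNReal.ofReal (U x) := by
          gcongr
          exact ENNReal.rpow_add_le_mul_rpow_add_rpow _ _ hp.le
      _ = _ := by
          rw [ENNReal.mul_rpow_of_nonneg _ _ hp0.le]
          ring
  · exact ((hh.meas.aemeasurable.ennreal_ofReal.pow_const p).mul
      hU.aemeasurable.ennreal_ofReal).const_mul _

/-- elimination of small errors -/
lemma le_of_small {X Y : ℝ≥0∞} (K : ℝ≥0∞) (hK : K ≠ ∞)
    (h : ∀ η : ℝ≥0, 0 < η → X ≤ Y + K * η) : X ≤ Y := by
  lift K to ℝ≥0 using hK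
  apply ENNReal.le_of_forall_pos_le_add
  intro ε hε _
  refine (h (ε / (K + 1)) (by positivity)).trans ?_
  gcongr
  rw [← ENNReal.coe_mul, ENNReal.coe_le_coe]
  rw [mul_div_assoc', div_le_iff₀ (by positivity)]
  calc K * ε ≤ (K + 1) * ε := by gcongr; exact le_self_add
    _ = ε * (K + 1) := mul_comm _ _

lemma TF.cint {f : ℝ → ℝ} (hf : TF f) : Integrable (fun y => (f y : ℂ)) := hf.integrable.ofReal

lemma TF.lint {f : ℝ → ℝ} (hf : TF f) : ∫⁻ x, ENNReal.ofReal (f x) = ENNReal.ofReal (∫ x, f x) :=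
  (ofReal_integral_eq_lintegral_ofReal hf.integrable (Eventually.of_forall hf.nonneg)).symm

lemma abs_of_adj {ε x y κ : ℝ} (hε : ε = 1 ∨ ε = -1) (h : κ ≤ ε * (x - y)) :
    κ ≤ |x - y| := by
  rcases hε with rfl | rfl
  · rw [one_mul] at h; exact h.trans (le_abs_self _)
  · rw [neg_one_mul] at h; exact h.trans (neg_le_abs _)

/-- the constant bookkeeping -/
lemma finish {p : ℝ} (hp : 1 < p) {c l : ℝ} (hc : 0 ≤ c) (hl : 0 < l) {X A : ℝ≥0∞} {C : ℝ≥0}
    (h : X * ENNReal.ofReal (c / (4 * π * l)) ^ p ≤ C * (2 ^ (p - 1) * A)) :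
    X * ENNReal.ofReal c ^ p ≤
      (C * 2 ^ (p - 1) * (4 * Real.toNNReal π) ^ p : ℝ≥0) * ENNReal.ofReal l ^ p * A := by
  have hp0 : 0 < p := by linarith
  have hπ := Real.pi_pos
  have e : ENNReal.ofReal c ^ p = ENNReal.ofReal (c / (4 * π * l)) ^ p *
      ENNReal.ofReal (4 * π * l) ^ p := by
    rw [← ENNReal.mul_rpow_of_nonneg _ _ hp0.le, ← ENNReal.ofReal_mul (by positivity)]
    congr 2
    field_simp
  have e2 : ENNReal.ofReal (4 * π * l) ^ p =
      (((4 * Real.toNNReal π) ^ p : ℝ≥0) : ℝ≥0∞) * ENNReal.ofReal l ^ p := by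
    rw [ENNReal.coe_rpow_of_nonneg _ hp0.le, ← ENNReal.mul_rpow_of_nonneg _ _ hp0.le,
      ENNReal.ofReal_mul (by positivity)]
    congr 2
    rw [ENNReal.coe_mul, ENNReal.ofReal_mul (by positivity)]
    congr 1
    simp
  rw [e, ← mul_assoc]
  calc X * ENNReal.ofReal (c / (4 * π * l)) ^ p * ENNReal.ofReal (4 * π * l) ^ p
      ≤ (C * (2 ^ (p - 1) * A)) * ENNReal.ofReal (4 * π * l) ^ p := by gcongr
    _ = _ := by
        rw [e2, ENNReal.coe_mul, ENNReal.coe_mul, ENNReal.coe_rpow_of_nonneg 2 (by linarith)]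
        push_cast
        ring

/-- The inequality defining admissibility, with its constant, for real valued functions. -/
def Adm (p : ℝ) (U : ℝ → ℝ) (C : ℝ≥0) : Prop :=
  ∀ f : ℝ → ℂ, (∀ x, (f x).im = 0) → Integrable f → ∫ x, f x = 0 →
    ∫⁻ x, ‖hilbert f x‖ₑ ^ p * ENNReal.ofReal (U x) ≤
      C * ∫⁻ x, ‖f x‖ₑ ^ p * ENNReal.ofReal (U x)

theorem case_i {p : ℝ} (hp : 1 < p) {U : ℝ → ℝ} (hU : IsWeight U) {C : ℝ≥0} (hC : Adm p U C)
    (hinf : ∀ R : ℝ, ∫⁻ x in {x : ℝ | R < |x|}, dens p U x = ∞) : MemAp p U := by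
  have hp0 : 0 < p := by linarith
  have hp1 : 0 < p - 1 := by linarith
  have hπ := Real.pi_pos
  have hUm := hU.locInt.aestronglyMeasurable
  apply memAp_of_test hp hUm (C * 2 ^ (p - 1) * (4 * Real.toNNReal π) ^ p)
    (K := fun _ => univ) (fun _ => MeasurableSet.univ) (fun _ _ _ => le_rfl)
    (Eventually.of_forall fun x => ⟨0, mem_univ x⟩)
  intro ε l a b I hε hl hadj f hf hsup _
  set c := ∫ x, f x with hc
  have hc0 : 0 ≤ c := integral_nonneg hf.nonneg
  rw [hf.lint]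
  apply finish hp hc0 hl
  have hK : (C:ℝ≥0∞) * (2 ^ (p - 1) * ENNReal.ofReal c ^ p) ≠ ∞ := by
    apply ENNReal.mul_ne_top ENNReal.coe_ne_top
    apply ENNReal.mul_ne_top
    · exact ENNReal.rpow_ne_top_of_nonneg hp1.le (by simp)
    · exact ENNReal.rpow_ne_top_of_nonneg hp0.le ENNReal.ofReal_ne_top
  apply le_of_small _ hK
  intro η hη
  set R := max |a| |b| + 4 * l with hR
  obtain ⟨h, hh, hhE, hh1, hhU⟩ := exists_bump hp hUm
    (measurableSet_lt measurable_const (by fun_prop) : MeasurableSet {x : ℝ | R < |x|}) (hinf R) η hη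
  set g : ℝ → ℂ := fun y => (f y : ℂ) - (c : ℂ) * (h y : ℂ) with hg
  have hgi : Integrable g := hf.cint.sub (hh.cint.const_mul _)
  have hg0 : ∫ x, g x = 0 := by
    rw [hg, integral_sub hf.cint (hh.cint.const_mul _), integral_const_mul,
      integral_complex_ofReal, integral_complex_ofReal, hh1, ← hc]
    simp
  have hgr : ∀ x, (g x).im = 0 := by
    intro x
    simp [hg]
  have hmain := hC g hgr hgi hg0
  have hrhs := rhs_bound hp hUm (fun y => (f y : ℂ)) hh (c : ℂ)
  have e1 : ∀ x, ‖((f x : ℝ) : ℂ)‖ₑ = ENNReal.ofReal (f x) := by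
    intro x
    rw [← ofReal_norm, Complex.norm_real, Real.norm_eq_abs, abs_of_nonneg (hf.nonneg x)]
  have e2 : ‖(c : ℂ)‖ₑ = ENNReal.ofReal c := by
    rw [← ofReal_norm, Complex.norm_real, Real.norm_eq_abs, abs_of_nonneg hc0]
  simp_rw [e1, e2] at hrhs
  -- lower bound
  have hlow : (∫⁻ x in Ioo a b, ENNReal.ofReal (U x)) * ENNReal.ofReal (c / (4 * π * l)) ^ p ≤
      ∫⁻ x, ‖hilbert g x‖ₑ ^ p * ENNReal.ofReal (U x) := by
    rw [← lintegral_mul_const' _ _ (ENNReal.rpow_ne_top_of_nonneg hp0.le ENNReal.ofReal_ne_top)]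
    refine le_trans ?_ (setLIntegral_le_lintegral (Ioo a b) _)
    apply setLIntegral_mono' measurableSet_Ioo
    intro x hx
    rw [mul_comm]
    gcongr
    obtain ⟨κ, hκ, hI⟩ := hadj x hx
    have hxR : |x| ≤ max |a| |b| := abs_le_max_abs_abs hx.1.le hx.2.le
    have hfy : ∀ y, f y ≠ 0 → κ ≤ ε * (x - y) ∧ ε * (x - y) ≤ 2 * l := fun y hy =>
      hI y (by by_contra h0; exact hy (hsup y h0))
    have hfD : ∀ y, f y ≠ 0 → κ ≤ |x - y| := fun y hy => abs_of_adj hε (hfy y hy).1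
    have hhD : ∀ y, h y ≠ 0 → 4 * l ≤ |x - y| := by
      intro y hy
      have hyE : y ∈ {x : ℝ | R < |x|} := by by_contra h0; exact hy (hhE y h0)
      have hyR : R < |y| := hyE
      have := abs_sub_abs_le_abs_sub y x
      rw [abs_sub_comm] at this
      linarith
    set D := min κ (4 * l) with hD
    have hD0 : 0 < D := lt_min hκ (by linarith)
    have k₁ : ∀ y, (f y : ℂ) ≠ 0 → D ≤ |x - y| := fun y hy =>
      (min_le_left _ _).trans (hfD y (by exact_mod_cast hy))
    have k₂ : ∀ y, (h y : ℂ) ≠ 0 → D ≤ |x - y| := fun y hy =>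
      (min_le_right _ _).trans (hhD y (by exact_mod_cast hy))
    have k₃ : ∀ y, g y ≠ 0 → D ≤ |x - y| := by
      intro y hy
      by_cases h0 : (f y : ℂ) = 0
      · apply k₂ y
        intro h1
        apply hy
        simp only [hg]
        rw [h0, h1, mul_zero, sub_zero]
      · exact k₁ y h0
    have hs := HI_sub hf.cint hh.cint hD0 k₁ k₂ (c : ℂ)
    have hlo := HI_lower hf hε hκ hfy
    have hup := HI_upper hh.cint (by linarith : 0 < 4 * l) (x := x) (fun y hy =>
      hhD y (by exact_mod_cast hy))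
    have e3 : ∫ y, ‖(h y : ℂ)‖ = 1 := by
      rw [← hh1]
      congr 1
      ext y
      rw [Complex.norm_real, Real.norm_eq_abs, abs_of_nonneg (hh.nonneg y)]
    rw [e3, mul_one] at hup
    rw [← ofReal_norm, norm_hilbert_HI hD0 k₃]
    apply ENNReal.ofReal_le_ofReal
    have h5 : c / (4 * l) ≤ ‖HI g x‖ := by
      have h6 : ‖HI (fun y => (f y : ℂ)) x‖ - ‖(c : ℂ) * HI (fun y => (h y : ℂ)) x‖ ≤ ‖HI g x‖ := by
        rw [hg, hs]
        exact norm_sub_norm_le _ _
      have h7 : ‖(c : ℂ) * HI (fun y => (h y : ℂ)) x‖ ≤ c * (4 * l)⁻¹ := by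
        rw [norm_mul, Complex.norm_real, Real.norm_eq_abs, abs_of_nonneg hc0]
        exact mul_le_mul_of_nonneg_left hup hc0
      have h8 : c / (2 * l) - c * (4 * l)⁻¹ = c / (4 * l) := by field_simp; norm_num
      rw [← hc] at hlo
      linarith
    calc c / (4 * π * l) = π⁻¹ * (c / (4 * l)) := by field_simp
      _ ≤ π⁻¹ * ‖HI g x‖ := by gcongr
  calc (∫⁻ x in Ioo a b, ENNReal.ofReal (U x)) * ENNReal.ofReal (c / (4 * π * l)) ^ p
      ≤ C * ∫⁻ x, ‖g x‖ₑ ^ p * ENNReal.ofReal (U x) := hlow.trans hmain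
    _ ≤ C * (2 ^ (p - 1) * ((∫⁻ x, ENNReal.ofReal (f x) ^ p * ENNReal.ofReal (U x)) +
        ENNReal.ofReal c ^ p * η)) := by
        gcongr
        exact hrhs.trans (by gcongr)
    _ = _ := by ring

theorem case_ii {p : ℝ} (hp : 1 < p) {U : ℝ → ℝ} (hU : IsWeight U) {C : ℝ≥0} (hC : Adm p U C)
    (a₀ : ℝ) (hinf : ∀ r : ℝ, 0 < r → ∫⁻ x in {x : ℝ | |x - a₀| < r}, dens p U x = ∞) :
    MemAp p (fun x => |x - a₀| ^ (-p) * U x) := by
  have hp0 : 0 < p := by linarith
  have hp1 : 0 < p - 1 := by linarith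
  have hπ := Real.pi_pos
  have hUm := hU.locInt.aestronglyMeasurable
  set W : ℝ → ℝ := fun x => |x - a₀| ^ (-p) * U x with hW
  have hWm : AEStronglyMeasurable W volume := by
    have h1 : Measurable (fun x : ℝ => |x - a₀| ^ (-p)) := by fun_prop
    exact h1.aestronglyMeasurable.mul hUm
  set K : ℕ → Set ℝ := fun n => {x | 1 / ((n:ℝ) + 1) ≤ |x - a₀|} with hKd
  have hKm : ∀ n, MeasurableSet (K n) := fun n => measurableSet_le measurable_const (by fun_prop)
  have hKmono : Monotone K := by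
    intro m n hmn x hx
    have h1 : 1 / ((n:ℝ) + 1) ≤ 1 / ((m:ℝ) + 1) := one_div_le_one_div_of_le (by positivity)
      (by have : (m:ℝ) ≤ n := by exact_mod_cast hmn
          linarith)
    exact h1.trans hx
  have hKex : ∀ x : ℝ, x ≠ a₀ → ∃ n, x ∈ K n := by
    intro x hx
    have h1 : 0 < |x - a₀| := abs_pos.2 (sub_ne_zero.2 hx)
    obtain ⟨n, hn⟩ := exists_nat_one_div_lt h1
    exact ⟨n, hn.le⟩
  have hne : ∀ᵐ x : ℝ, x ≠ a₀ := by
    rw [ae_iff]
    simp
  have hKae : ∀ᵐ x : ℝ, ∃ n, x ∈ K n := by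
    filter_upwards [hne] with x hx
    exact hKex x hx
  apply memAp_of_test hp hWm (C * 2 ^ (p - 1) * (4 * Real.toNNReal π) ^ p) hKm hKmono hKae
  intro ε l a b I hε hl hadj f hf hsup hsupK
  obtain ⟨n, hn⟩ := hsupK
  set c := ∫ x, f x with hc
  have hc0 : 0 ≤ c := integral_nonneg hf.nonneg
  rw [hf.lint]
  apply finish hp hc0 hl
  -- reduce to J ∩ K k
  have hred : ∀ k : ℕ, (∫⁻ x in Ioo a b ∩ K k, ENNReal.ofReal (W x)) *
      ENNReal.ofReal (c / (4 * π * l)) ^ p ≤
      C * (2 ^ (p - 1) * ∫⁻ x, ENNReal.ofReal (f x) ^ p * ENNReal.ofReal (W x)) := by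
    intro k
    set κ' := min (1 / ((n:ℝ) + 1)) (1 / ((k:ℝ) + 1)) with hκ'
    have hκ'0 : 0 < κ' := lt_min (by positivity) (by positivity)
    have hfa : ∀ y, f y ≠ 0 → κ' ≤ |y - a₀| := fun y hy => by
      have h1 : y ∈ K n := by by_contra h0; exact hy (hn y h0)
      exact (min_le_left _ _).trans h1
    set F : ℝ → ℂ := fun y => (f y : ℂ) / ((y : ℂ) - (a₀ : ℂ)) with hF
    have hFle : ∀ y, ‖F y‖ ≤ κ'⁻¹ * ‖(f y : ℂ)‖ := by
      intro y
      simp only [hF]
      rw [norm_div, sub_norm]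
      rcases eq_or_ne (f y) 0 with h0 | h0
      · rw [h0]; simp
      · rw [div_eq_mul_inv, mul_comm]
        exact mul_le_mul_of_nonneg_right (inv_anti₀ hκ'0 (hfa y h0)) (norm_nonneg _)
    have hFi : Integrable F := by
      refine (hf.cint.norm.const_mul κ'⁻¹).mono ?_ (Eventually.of_forall fun y => ?_)
      · have hm : Measurable (fun y : ℝ => ((y : ℂ) - (a₀ : ℂ))) := by fun_prop
        exact (hf.cint.1.aemeasurable.div hm.aemeasurable).aestronglyMeasurable
      · exact (hFle y).trans (le_abs_self _)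
    set cF := ∫ y, F y with hcF
    have hcFle : ‖cF‖ ≤ κ'⁻¹ * c := by
      have h1 : ∫ y, κ'⁻¹ * ‖(f y : ℂ)‖ = κ'⁻¹ * c := by
        rw [integral_const_mul, hc]
        congr 2
        ext y
        rw [Complex.norm_real, Real.norm_eq_abs, abs_of_nonneg (hf.nonneg y)]
      rw [← h1]
      exact norm_integral_le_of_norm_le (hf.cint.norm.const_mul _) (Eventually.of_forall hFle)
    have hK : (C:ℝ≥0∞) * (2 ^ (p - 1) * ‖cF‖ₑ ^ p) ≠ ∞ := by
      apply ENNReal.mul_ne_top ENNReal.coe_ne_top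
      apply ENNReal.mul_ne_top
      · exact ENNReal.rpow_ne_top_of_nonneg hp1.le (by simp)
      · exact ENNReal.rpow_ne_top_of_nonneg hp0.le (by simp)
    apply le_of_small _ hK
    intro η hη
    set ρ := min (κ' / 2) (κ' ^ 2 / (8 * l)) with hρ
    have hρ0 : 0 < ρ := lt_min (by positivity) (by positivity)
    obtain ⟨h, hh, hhE, hh1, hhU⟩ := exists_bump hp hUm
      (measurableSet_lt (by fun_prop) measurable_const : MeasurableSet {x : ℝ | |x - a₀| < ρ})
      (hinf ρ hρ0) η hη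
    have hhρ : ∀ y, h y ≠ 0 → |y - a₀| < ρ := fun y hy => by
      by_contra h0; exact hy (hhE y h0)
    set g : ℝ → ℂ := fun y => F y - cF * (h y : ℂ) with hg
    have hgi : Integrable g := hFi.sub (hh.cint.const_mul _)
    have hg0 : ∫ x, g x = 0 := by
      rw [hg, integral_sub hFi (hh.cint.const_mul _), integral_const_mul,
        integral_complex_ofReal, hh1, ← hcF]
      simp
    have hFr : ∀ x, (F x).im = 0 := by
      intro x
      simp only [hF]
      rw [← Complex.ofReal_sub, ← Complex.ofReal_div, Complex.ofReal_im]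
    have hcr : cF.im = 0 := by
      have h1 := integral_im hFi
      simp only [RCLike.im_to_complex] at h1
      rw [hcF, ← h1]
      simp_rw [hFr]
      simp
    have hgr : ∀ x, (g x).im = 0 := by
      intro x
      simp only [hg]
      rw [Complex.sub_im, hFr, Complex.mul_im, hcr, Complex.ofReal_im]
      simp
    have hmain := hC g hgr hgi hg0
    have hrhs := rhs_bound hp hUm F hh cF
    have e1 : ∫⁻ x, ‖F x‖ₑ ^ p * ENNReal.ofReal (U x) =
        ∫⁻ x, ENNReal.ofReal (f x) ^ p * ENNReal.ofReal (W x) := by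
      apply lintegral_congr
      intro x
      rcases eq_or_ne (f x) 0 with h0 | h0
      · simp only [hF]
        rw [h0]
        simp [hp0]
      · have h1 : 0 < |x - a₀| := lt_of_lt_of_le hκ'0 (hfa x h0)
        have h2 : ‖F x‖ₑ = ENNReal.ofReal (f x / |x - a₀|) := by
          rw [← ofReal_norm]
          simp only [hF]
          rw [norm_div, sub_norm, Complex.norm_real, Real.norm_eq_abs, abs_of_nonneg (hf.nonneg x)]
        rw [h2, hW, ENNReal.ofReal_rpow_of_nonneg (div_nonneg (hf.nonneg x) h1.le) hp0.le,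
          ENNReal.ofReal_rpow_of_nonneg (hf.nonneg x) hp0.le,
          ← ENNReal.ofReal_mul (by have := hf.nonneg x; positivity),
          ← ENNReal.ofReal_mul (by have := hf.nonneg x; positivity)]
        congr 1
        show (f x / |x - a₀|) ^ p * U x = f x ^ p * (|x - a₀| ^ (-p) * U x)
        rw [Real.div_rpow (hf.nonneg x) h1.le, Real.rpow_neg h1.le]
        ring
    rw [e1] at hrhs
    -- lower bound
    have hlow : (∫⁻ x in Ioo a b ∩ K k, ENNReal.ofReal (W x)) *
        ENNReal.ofReal (c / (4 * π * l)) ^ p ≤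
        ∫⁻ x, ‖hilbert g x‖ₑ ^ p * ENNReal.ofReal (U x) := by
      rw [← lintegral_mul_const' _ _ (ENNReal.rpow_ne_top_of_nonneg hp0.le ENNReal.ofReal_ne_top)]
      refine le_trans ?_ (setLIntegral_le_lintegral (Ioo a b ∩ K k) _)
      apply setLIntegral_mono' (measurableSet_Ioo.inter (hKm k))
      intro x hx
      obtain ⟨κ, hκ, hI⟩ := hadj x hx.1
      have hxa : κ' ≤ |x - a₀| := (min_le_right _ _).trans hx.2
      have hxa0 : 0 < |x - a₀| := lt_of_lt_of_le hκ'0 hxa
      have hfy : ∀ y, f y ≠ 0 → κ ≤ ε * (x - y) ∧ ε * (x - y) ≤ 2 * l := fun y hy =>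
        hI y (by by_contra h0; exact hy (hsup y h0))
      have hfD : ∀ y, f y ≠ 0 → κ ≤ |x - y| := fun y hy => abs_of_adj hε (hfy y hy).1
      have hhD : ∀ y, h y ≠ 0 → κ' / 2 ≤ |x - y| := by
        intro y hy
        have h1 := hhρ y hy
        have h2 : ρ ≤ κ' / 2 := min_le_left _ _
        have h3 := abs_sub_le x y a₀
        linarith
      set D := min κ (κ' / 2) with hD
      have hD0 : 0 < D := lt_min hκ (by linarith)
      have k₁ : ∀ y, F y ≠ 0 → D ≤ |x - y| := fun y hy =>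
        (min_le_left _ _).trans (hfD y (by
          intro h0
          apply hy
          simp only [hF]
          rw [h0]; simp))
      have k₂ : ∀ y, (h y : ℂ) ≠ 0 → D ≤ |x - y| := fun y hy =>
        (min_le_right _ _).trans (hhD y (by exact_mod_cast hy))
      have k₃ : ∀ y, g y ≠ 0 → D ≤ |x - y| := by
        intro y hy
        by_cases h0 : F y = 0
        · apply k₂ y
          intro h1
          apply hy
          simp only [hg]
          rw [h0, h1, mul_zero, sub_zero]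
        · exact k₁ y h0
      have e5 : (fun y : ℝ => ((y : ℂ) - (a₀ : ℂ)) * g y) =
          fun y => (f y : ℂ) - cF * (((y : ℂ) - (a₀ : ℂ)) * (h y : ℂ)) := by
        ext y
        simp only [hg, hF]
        rcases eq_or_ne (f y) 0 with h0 | h0
        · rw [h0]
          push_cast
          ring
        · have h1 : 0 < |y - a₀| := lt_of_lt_of_le hκ'0 (hfa y h0)
          have h2 : (y : ℂ) - (a₀ : ℂ) ≠ 0 := by
            rw [← norm_ne_zero_iff, sub_norm]
            exact h1.ne'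
          field_simp
      have hmh : Integrable (fun y : ℝ => ((y : ℂ) - (a₀ : ℂ)) * (h y : ℂ)) := by
        refine (hh.cint.norm.const_mul ρ).mono ?_ (Eventually.of_forall fun y => ?_)
        · exact (by fun_prop : Continuous fun y : ℝ => ((y : ℂ) - (a₀ : ℂ))).aestronglyMeasurable.mul
            hh.cint.1
        · rw [norm_mul, sub_norm]
          refine le_trans ?_ (le_abs_self _)
          rcases eq_or_ne (h y) 0 with h0 | h0
          · rw [h0]; simp
          · exact mul_le_mul_of_nonneg_right (hhρ y h0).le (norm_nonneg _)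
      have hgz : Integrable (fun y : ℝ => ((y : ℂ) - (a₀ : ℂ)) * g y) := by
        rw [e5]
        exact hf.cint.sub (hmh.const_mul _)
      have hmul := HI_mul hgi hD0 k₃ (a₀ : ℂ) hgz
      rw [hg0, zero_add, e5, HI_sub hf.cint hmh hD0
        (fun y hy => (min_le_left _ _).trans (hfD y (by exact_mod_cast hy)))
        (fun y hy => k₂ y (right_ne_zero_of_mul hy))] at hmul
      have hlo := HI_lower hf hε hκ hfy
      have hup := HI_upper hmh (by linarith : 0 < κ' / 2) (x := x) (fun y hy =>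
        hhD y (by exact_mod_cast (right_ne_zero_of_mul hy)))
      have e3 : ∫ y : ℝ, ‖((y : ℂ) - (a₀ : ℂ)) * (h y : ℂ)‖ ≤ ρ := by
        calc ∫ y : ℝ, ‖((y : ℂ) - (a₀ : ℂ)) * (h y : ℂ)‖ ≤ ∫ y, ρ * h y := by
              apply integral_mono hmh.norm (hh.integrable.const_mul _)
              intro y
              simp only []
              rw [norm_mul, sub_norm, Complex.norm_real, Real.norm_eq_abs, abs_of_nonneg (hh.nonneg y)]
              rcases eq_or_ne (h y) 0 with h0 | h0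
              · rw [h0]; simp
              · exact mul_le_mul_of_nonneg_right (hhρ y h0).le (hh.nonneg y)
          _ = ρ := by rw [integral_const_mul, hh1, mul_one]
      have h5 : c / (4 * l) ≤ |x - a₀| * ‖HI g x‖ := by
        have h6 : ‖((x:ℂ) - (a₀:ℂ)) * HI g x‖ = |x - a₀| * ‖HI g x‖ := by rw [norm_mul, sub_norm]
        rw [← h6, hmul]
        refine le_trans ?_ (norm_sub_norm_le _ _)
        have h7 : ‖cF * HI (fun y => ((y : ℂ) - (a₀ : ℂ)) * (h y : ℂ)) x‖ ≤ c * (4 * l)⁻¹ := by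
          rw [norm_mul]
          calc ‖cF‖ * ‖HI (fun y => ((y : ℂ) - (a₀ : ℂ)) * (h y : ℂ)) x‖
              ≤ (κ'⁻¹ * c) * ((κ' / 2)⁻¹ * ρ) := by
                apply mul_le_mul hcFle _ (norm_nonneg _) (by positivity)
                exact hup.trans (mul_le_mul_of_nonneg_left e3 (by positivity))
            _ ≤ (κ'⁻¹ * c) * ((κ' / 2)⁻¹ * (κ' ^ 2 / (8 * l))) := by
                gcongr
                exact min_le_right _ _
            _ = c * (4 * l)⁻¹ := by
                have hκn : κ' ≠ 0 := hκ'0.ne'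
                field_simp
                ring
        have h8 : c / (2 * l) - c * (4 * l)⁻¹ = c / (4 * l) := by field_simp; norm_num
        rw [← hc] at hlo
        linarith
      have h9 : c / (4 * π * l) ≤ |x - a₀| * ‖hilbert g x‖ := by
        rw [norm_hilbert_HI hD0 k₃]
        calc c / (4 * π * l) = π⁻¹ * (c / (4 * l)) := by field_simp
          _ ≤ π⁻¹ * (|x - a₀| * ‖HI g x‖) := by gcongr
          _ = _ := by ring
      rw [← ofReal_norm, ENNReal.ofReal_rpow_of_nonneg (by positivity) hp0.le,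
        ENNReal.ofReal_rpow_of_nonneg (norm_nonneg _) hp0.le,
        ← ENNReal.ofReal_mul (by have := hU.nonneg x; positivity),
        ← ENNReal.ofReal_mul (by positivity)]
      apply ENNReal.ofReal_le_ofReal
      have h10 : (c / (4 * π * l)) ^ p ≤ (|x - a₀| * ‖hilbert g x‖) ^ p :=
        Real.rpow_le_rpow (by positivity) h9 hp0.le
      rw [Real.mul_rpow hxa0.le (norm_nonneg _)] at h10
      simp only [hW]
      calc |x - a₀| ^ (-p) * U x * (c / (4 * π * l)) ^ p
          ≤ |x - a₀| ^ (-p) * U x * (|x - a₀| ^ p * ‖hilbert g x‖ ^ p) := by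
            apply mul_le_mul_of_nonneg_left h10
            have := hU.nonneg x
            positivity
        _ = (|x - a₀| ^ (-p) * |x - a₀| ^ p) * (‖hilbert g x‖ ^ p * U x) := by ring
        _ = ‖hilbert g x‖ ^ p * U x := by
            rw [← Real.rpow_add hxa0, neg_add_cancel, Real.rpow_zero, one_mul]
    calc (∫⁻ x in Ioo a b ∩ K k, ENNReal.ofReal (W x)) * ENNReal.ofReal (c / (4 * π * l)) ^ p
        ≤ C * ∫⁻ x, ‖g x‖ₑ ^ p * ENNReal.ofReal (U x) := hlow.trans hmain
      _ ≤ C * (2 ^ (p - 1) * ((∫⁻ x, ENNReal.ofReal (f x) ^ p * ENNReal.ofReal (W x)) +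
          ‖cF‖ₑ ^ p * η)) := by
          gcongr
          exact hrhs.trans (by gcongr)
      _ = _ := by ring
  -- monotone limit
  have hlim : Tendsto (fun k : ℕ => ∫⁻ x in Ioo a b ∩ K k, ENNReal.ofReal (W x)) atTop
      (𝓝 (∫⁻ x in Ioo a b, ENNReal.ofReal (W x))) := by
    set μ := (volume : Measure ℝ).withDensity (fun x => ENNReal.ofReal (W x)) with hμ
    have e1 : ∀ s : Set ℝ, MeasurableSet s → ∫⁻ x in s, ENNReal.ofReal (W x) = μ s :=
      fun s hs => (withDensity_apply _ hs).symm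
    rw [e1 _ measurableSet_Ioo]
    have e2 : ∀ k, ∫⁻ x in Ioo a b ∩ K k, ENNReal.ofReal (W x) = μ (Ioo a b ∩ K k) := fun k =>
      e1 _ (measurableSet_Ioo.inter (hKm k))
    simp_rw [e2]
    have h5 : Tendsto (fun n : ℕ => μ (Ioo a b ∩ K n)) atTop (𝓝 (μ (⋃ n, Ioo a b ∩ K n))) :=
      tendsto_measure_iUnion_atTop (fun m n hmn => inter_subset_inter_right _ (hKmono hmn))
    have h6 : μ (⋃ n, Ioo a b ∩ K n) = μ (Ioo a b) := by
      apply measure_congr
      have hac : μ ≪ volume := withDensity_absolutelyContinuous _ _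
      apply hac.ae_le
      rw [← inter_iUnion]
      have : (⋃ n, K n) =ᵐ[volume] (univ : Set ℝ) := by
        rw [eventuallyEq_univ]
        filter_upwards [hKae] with x hx
        exact mem_iUnion.2 hx
      have h8 := (ae_eq_refl (Ioo a b)).inter this
      rwa [inter_univ] at h8
    rwa [h6] at h5
  by_cases hct : ENNReal.ofReal (c / (4 * π * l)) ^ p = 0
  · rw [hct, mul_zero]; exact bot_le
  · have h5 := ENNReal.Tendsto.mul_const (b := ENNReal.ofReal (c / (4 * π * l)) ^ p) hlim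
      (Or.inr (ENNReal.rpow_ne_top_of_nonneg hp0.le ENNReal.ofReal_ne_top))
    exact le_of_tendsto h5 (Eventually.of_forall hred)

end Pool.Agent.E8helper96.HT
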