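import Pool.Agent.E8helper96.HT.Nec2

/-!
# Necessity: the third case
-/

set_option autoImplicit false

open MeasureTheory Filter Topology Set
open scoped ENNReal NNReal Real

namespace Pool.Agent.E8helper96.HT

/-- `|x - i|` -/
noncomputable def nI (x : ℝ) : ℝ := ‖(x : ℂ) - Complex.I‖

lemma nI_sq (x : ℝ) : nI x ^ 2 = 1 + x ^ 2 := by
  unfold nI
  rw [Complex.sq_norm, Complex.normSq_apply]
  simp
  ring

lemma nI_pos (x : ℝ) : 0 < nI x := by
  have h := nI_sq x
  have h1 : 0 ≤ nI x := norm_nonneg _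
  rcases h1.lt_or_eq with h2 | h2
  · exact h2
  · rw [← h2] at h; nlinarith [sq_nonneg x]

lemma nI_rpow (p x : ℝ) : (1 + x ^ 2) ^ (-(p / 2)) = nI x ^ (-p) := by
  rw [← nI_sq, ← Real.rpow_natCast, ← Real.rpow_mul (nI_pos x).le]
  congr 1
  push_cast
  ring

lemma nI_le (x : ℝ) : nI x ≤ 1 + |x| := by
  unfold nI
  refine (norm_sub_le _ _).trans ?_
  rw [Complex.norm_real, Complex.norm_I, Real.norm_eq_abs]
  linarith

lemma nI_one (x : ℝ) : 1 ≤ nI x := by
  have h := nI_sq x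
  have h1 := nI_pos x
  nlinarith [sq_nonneg x]

lemma nI_meas : Measurable nI := by
  unfold nI
  fun_prop

/-- indicator test functions -/
noncomputable def hb (s : ℝ) : ℝ → ℝ := (Icc s (s + 1)).indicator (fun _ => 1)

lemma hb_TF (s : ℝ) : TF (hb s) := by
  refine ⟨aestronglyMeasurable_const.indicator measurableSet_Icc, ?_, ⟨1, ?_⟩,
    ⟨max |s| |s + 1|, ?_⟩⟩
  · intro x
    exact indicator_nonneg (fun _ _ => zero_le_one) x
  · intro x
    unfold hb
    by_cases hx : x ∈ Icc s (s + 1)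
    · rw [indicator_of_mem hx]
    · rw [indicator_of_notMem hx]; exact zero_le_one
  · intro x hx
    unfold hb
    rw [indicator_of_notMem]
    intro h3
    have : |x| ≤ max |s| |s + 1| := abs_le_max_abs_abs h3.1 h3.2
    linarith

lemma hb_supp {s x : ℝ} (h : hb s x ≠ 0) : s ≤ x ∧ x ≤ s + 1 := by
  by_contra h0
  apply h
  unfold hb
  rw [indicator_of_notMem]
  exact h0

lemma hb_int (s : ℝ) : ∫ x, hb s x = 1 := by
  unfold hb
  rw [integral_indicator measurableSet_Icc]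
  simp

lemma hb_int_mul (s : ℝ) : ∫ x, x * hb s x = s + 1 / 2 := by
  have e : (fun x => x * hb s x) = (Icc s (s + 1)).indicator (fun x => x) := by
    ext x
    unfold hb
    by_cases hx : x ∈ Icc s (s + 1)
    · rw [indicator_of_mem hx, indicator_of_mem hx, mul_one]
    · rw [indicator_of_notMem hx, indicator_of_notMem hx, mul_zero]
  rw [e, integral_indicator measurableSet_Icc, integral_Icc_eq_integral_Ioc,
    ← intervalIntegral.integral_of_le (by linarith), integral_id]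
  ring

/-- a test function times a polynomial is integrable -/
lemma TF.mul_int {f : ℝ → ℝ} (hf : TF f) {m : ℝ → ℂ} (hm : Continuous m) :
    Integrable (fun y => m y * (f y : ℂ)) := by
  obtain ⟨R, hR⟩ := hf.supp
  obtain ⟨B, hB⟩ := (isCompact_Icc (a := -R) (b := R)).exists_bound_of_continuousOn hm.continuousOn
  refine (hf.cint.norm.const_mul B).mono (hm.aestronglyMeasurable.mul hf.cint.1)
    (Eventually.of_forall fun y => ?_)
  rcases eq_or_ne (f y) 0 with h0 | h0
  · rw [h0]; simp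
  · have h1 : y ∈ Icc (-R) R := by
      by_contra h3
      apply h0
      apply hR
      by_contra h4
      exact h3 (abs_le.1 (not_lt.1 h4))
    rw [norm_mul]
    refine le_trans ?_ (le_abs_self _)
    exact mul_le_mul_of_nonneg_right (hB y h1) (norm_nonneg _)

/-- the test function `1_{[0,1]} - 1_{[3,4]}` -/
noncomputable def g0 (y : ℝ) : ℂ := (hb 0 y : ℂ) - 1 * (hb 3 y : ℂ)

lemma g0_supp {y : ℝ} (h : g0 y ≠ 0) : 0 ≤ y ∧ y ≤ 4 := by
  by_cases h0 : hb 0 y = 0
  · by_cases h1 : hb 3 y = 0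
    · exfalso; apply h; unfold g0; rw [h0, h1]; simp
    · have := hb_supp h1
      constructor <;> linarith [this.1, this.2]
  · have := hb_supp h0
    constructor <;> linarith [this.1, this.2]

lemma g0_mul_int {m : ℝ → ℂ} (hm : Continuous m) : Integrable (fun y => m y * g0 y) := by
  have h1 := ((hb_TF 0).mul_int hm).sub ((hb_TF 3).mul_int hm)
  refine h1.congr (Eventually.of_forall fun y => ?_)
  simp only [g0, Pi.sub_apply]
  ring

lemma g0_norm_le (y : ℝ) : ‖g0 y‖ ≤ hb 0 y + hb 3 y := by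
  unfold g0
  refine (norm_sub_le _ _).trans ?_
  rw [one_mul, Complex.norm_real, Complex.norm_real, Real.norm_eq_abs, Real.norm_eq_abs,
    abs_of_nonneg ((hb_TF 0).nonneg y), abs_of_nonneg ((hb_TF 3).nonneg y)]

lemma HI_g0 {x : ℝ} (hx : 30 ≤ |x|) : 1 / nI x ^ 2 ≤ ‖HI g0 x‖ := by
  have hD : ∀ y, g0 y ≠ 0 → |x| - 4 ≤ |x - y| := by
    intro y hy
    have h1 := g0_supp hy
    have h2 := abs_sub_abs_le_abs_sub x y
    rw [abs_of_nonneg h1.1] at h2
    linarith
  have hD0 : 0 < |x| - 4 := by linarith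
  have i1 : Integrable g0 := by
    have := g0_mul_int (continuous_const (y := (1:ℂ)) : Continuous fun _ : ℝ => (1:ℂ))
    simpa using this
  have i2 : Integrable (fun y : ℝ => ((y : ℂ) - 0) * g0 y) := g0_mul_int (by fun_prop)
  have i3 : Integrable (fun y : ℝ => ((y : ℂ) - 0) * (((y : ℂ) - 0) * g0 y)) := by
    have := g0_mul_int (m := fun y : ℝ => ((y : ℂ) - 0) * ((y : ℂ) - 0)) (by fun_prop)
    refine this.congr (Eventually.of_forall fun y => ?_)
    simp only []
    ring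
  have h1 := HI_mul i1 hD0 hD 0 i2
  have h2 := HI_mul i2 hD0 (fun y hy => hD y (right_ne_zero_of_mul hy)) 0 i3
  have e1 : ∫ y, g0 y = 0 := by
    unfold g0
    rw [integral_sub (hb_TF 0).cint ((hb_TF 3).cint.const_mul _), integral_const_mul,
      integral_complex_ofReal, integral_complex_ofReal, hb_int, hb_int]
    simp
  have e2 : ∫ y : ℝ, ((y : ℂ) - 0) * g0 y = -3 := by
    have e3 : ∀ y : ℝ, ((y : ℂ) - 0) * g0 y = ((y * hb 0 y : ℝ) : ℂ) - ((y * hb 3 y : ℝ) : ℂ) := by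
      intro y
      unfold g0
      push_cast
      ring
    have k1 : ∀ s : ℝ, Integrable (fun y : ℝ => ((y * hb s y : ℝ) : ℂ)) := by
      intro s
      have := (hb_TF s).mul_int (m := fun y : ℝ => (y : ℂ)) (by fun_prop)
      refine this.congr (Eventually.of_forall fun y => ?_)
      push_cast
      rfl
    simp_rw [e3]
    rw [integral_sub (k1 0) (k1 3), integral_complex_ofReal, integral_complex_ofReal,
      hb_int_mul, hb_int_mul]
    push_cast
    norm_num
  have e4 : ‖HI (fun y : ℝ => ((y : ℂ) - 0) * (((y : ℂ) - 0) * g0 y)) x‖ ≤ 3 / 2 := by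
    refine (HI_upper i3 hD0 (x := x) (fun y hy => hD y (right_ne_zero_of_mul
      (right_ne_zero_of_mul hy)))).trans ?_
    have e5 : ∫ y : ℝ, ‖((y : ℂ) - 0) * (((y : ℂ) - 0) * g0 y)‖ ≤ 32 := by
      calc ∫ y : ℝ, ‖((y : ℂ) - 0) * (((y : ℂ) - 0) * g0 y)‖
          ≤ ∫ y, 16 * (hb 0 y + hb 3 y) := by
            apply integral_mono i3.norm (((hb_TF 0).integrable.add (hb_TF 3).integrable).const_mul _)
            intro y
            simp only []
            rcases eq_or_ne (g0 y) 0 with h0 | h0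
            · rw [h0]
              rw [mul_zero, mul_zero, norm_zero]
              have h6 := (hb_TF 0).nonneg y
              have h7 := (hb_TF 3).nonneg y
              show (0:ℝ) ≤ 16 * (hb 0 y + hb 3 y)
              linarith
            · have h3 := g0_supp h0
              rw [sub_zero, norm_mul, norm_mul, Complex.norm_real, Real.norm_eq_abs,
                abs_of_nonneg h3.1]
              have h4 := g0_norm_le y
              have h5 : y * y ≤ 16 := by nlinarith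
              calc y * (y * ‖g0 y‖) = (y * y) * ‖g0 y‖ := by ring
                _ ≤ 16 * (hb 0 y + hb 3 y) := by
                  apply mul_le_mul h5 h4 (norm_nonneg _) (by norm_num)
        _ = 32 := by
            rw [integral_const_mul, integral_add (hb_TF 0).integrable (hb_TF 3).integrable,
              hb_int, hb_int]
            norm_num
    calc (|x| - 4)⁻¹ * ∫ y : ℝ, ‖((y : ℂ) - 0) * (((y : ℂ) - 0) * g0 y)‖
        ≤ (|x| - 4)⁻¹ * 32 := mul_le_mul_of_nonneg_left e5 (inv_nonneg.2 hD0.le)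
      _ ≤ 3 / 2 := by
          rw [inv_mul_le_iff₀ hD0]
          linarith
  rw [e1, zero_add] at h1
  rw [e2] at h2
  have h3 : ((x:ℂ) - 0) * (((x:ℂ) - 0) * HI g0 x) =
      -3 + HI (fun y : ℝ => ((y : ℂ) - 0) * (((y : ℂ) - 0) * g0 y)) x := by rw [h1, h2]
  have h4 : |x| * (|x| * ‖HI g0 x‖) = ‖((x:ℂ) - 0) * (((x:ℂ) - 0) * HI g0 x)‖ := by
    rw [sub_zero, norm_mul, norm_mul, Complex.norm_real, Real.norm_eq_abs]
  have h5 : 3 / 2 ≤ |x| * (|x| * ‖HI g0 x‖) := by
    rw [h4, h3]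
    have h6 : ‖(-3 : ℂ)‖ - ‖HI (fun y : ℝ => ((y : ℂ) - 0) * (((y : ℂ) - 0) * g0 y)) x‖ ≤
        ‖(-3 : ℂ) + HI (fun y : ℝ => ((y : ℂ) - 0) * (((y : ℂ) - 0) * g0 y)) x‖ := by
      have := norm_sub_norm_le (-3 : ℂ) (-HI (fun y : ℝ => ((y : ℂ) - 0) * (((y : ℂ) - 0) * g0 y)) x)
      rw [norm_neg (HI _ _), sub_neg_eq_add] at this
      exact this
    have h7 : ‖(-3 : ℂ)‖ = 3 := by rw [norm_neg]; norm_num
    rw [h7] at h6
    linarith
  have h8 := nI_sq x
  have h9 : (0:ℝ) < nI x ^ 2 := by have := nI_pos x; positivity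
  rw [div_le_iff₀ h9, h8]
  have h10 : |x| * |x| = x ^ 2 := by rw [← sq, sq_abs]
  nlinarith [norm_nonneg (HI g0 x), sq_nonneg x]

/-- the tail weight is integrable -/
lemma tail_finite {p : ℝ} (hp : 1 < p) {U : ℝ → ℝ} (hU : IsWeight U) {C : ℝ≥0}
    (hC : Adm p U C) : ∫⁻ x, ENNReal.ofReal (nI x ^ (-(2 * p)) * U x) ≠ ∞ := by
  have hp0 : 0 < p := by linarith
  have hp1 : 0 < p - 1 := by linarith
  have hπ := Real.pi_pos
  have hUm := hU.locInt.aestronglyMeasurable
  have i1 : Integrable g0 := by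
    have := g0_mul_int (continuous_const (y := (1:ℂ)) : Continuous fun _ : ℝ => (1:ℂ))
    simpa using this
  have e1 : ∫ y, g0 y = 0 := by
    unfold g0
    rw [integral_sub (hb_TF 0).cint ((hb_TF 3).cint.const_mul _), integral_const_mul,
      integral_complex_ofReal, integral_complex_ofReal, hb_int, hb_int]
    simp
  have hg0r : ∀ x, (g0 x).im = 0 := by
    intro x
    simp [g0]
  have hmain := hC g0 hg0r i1 e1
  have hrhs := rhs_bound hp hUm (fun y => (hb 0 y : ℂ)) (hb_TF 3) 1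
  have e2 : ∀ x, ‖((hb 0 x : ℝ) : ℂ)‖ₑ = ENNReal.ofReal (hb 0 x) := by
    intro x
    rw [← ofReal_norm, Complex.norm_real, Real.norm_eq_abs, abs_of_nonneg ((hb_TF 0).nonneg x)]
  simp_rw [e2] at hrhs
  have hfin : ∫⁻ x, ‖hilbert g0 x‖ₑ ^ p * ENNReal.ofReal (U x) ≠ ∞ := by
    refine ne_top_of_le_ne_top ?_ (hmain.trans (mul_le_mul_right hrhs _))
    apply ENNReal.mul_ne_top ENNReal.coe_ne_top
    apply ENNReal.mul_ne_top (ENNReal.rpow_ne_top_of_nonneg hp1.le (by simp))
    apply ENNReal.add_ne_top.2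
    refine ⟨(hb_TF 0).rpow_integrable hU hp0, ENNReal.mul_ne_top ?_
      ((hb_TF 3).rpow_integrable hU hp0)⟩
    exact ENNReal.rpow_ne_top_of_nonneg hp0.le (by simp)
  rw [← lintegral_add_compl _ (measurableSet_Icc (a := (-30:ℝ)) (b := 30))]
  apply ENNReal.add_ne_top.2
  constructor
  · have h2 := hU.locInt.integrableOn_isCompact (isCompact_Icc (a := (-30:ℝ)) (b := 30))
    have h3 := h2.2
    rw [hasFiniteIntegral_iff_ofReal (Eventually.of_forall hU.nonneg)] at h3
    refine ne_top_of_le_ne_top h3.ne ?_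
    apply lintegral_mono
    intro x
    apply ENNReal.ofReal_le_ofReal
    have h4 : nI x ^ (-(2 * p)) ≤ 1 := Real.rpow_le_one_of_one_le_of_nonpos (nI_one x) (by linarith)
    exact mul_le_of_le_one_left (hU.nonneg x) h4
  · have h1 : ∫⁻ x in (Icc (-30:ℝ) 30)ᶜ, ENNReal.ofReal (nI x ^ (-(2 * p)) * U x) ≤
        ENNReal.ofReal π ^ p * ∫⁻ x, ‖hilbert g0 x‖ₑ ^ p * ENNReal.ofReal (U x) := by
      rw [← lintegral_const_mul' _ _ (ENNReal.rpow_ne_top_of_nonneg hp0.le ENNReal.ofReal_ne_top)]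
      refine le_trans ?_ (setLIntegral_le_lintegral (Icc (-30:ℝ) 30)ᶜ _)
      apply setLIntegral_mono' measurableSet_Icc.compl
      intro x hx
      have hx30 : 30 ≤ |x| := by
        by_contra h3
        exact hx (abs_le.1 (not_le.1 h3).le)
      have hD : ∀ y, g0 y ≠ 0 → |x| - 4 ≤ |x - y| := by
        intro y hy
        have h1 := g0_supp hy
        have h2 := abs_sub_abs_le_abs_sub x y
        rw [abs_of_nonneg h1.1] at h2
        linarith
      have h4 := norm_hilbert_HI (by linarith : 0 < |x| - 4) hD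
      have h5 := HI_g0 hx30
      have hn := nI_pos x
      rw [← ofReal_norm, ← mul_assoc, ← ENNReal.mul_rpow_of_nonneg _ _ hp0.le,
        ← ENNReal.ofReal_mul hπ.le, ENNReal.ofReal_rpow_of_nonneg (by positivity) hp0.le,
        ← ENNReal.ofReal_mul (by positivity)]
      apply ENNReal.ofReal_le_ofReal
      apply mul_le_mul_of_nonneg_right _ (hU.nonneg x)
      rw [h4, ← mul_assoc, mul_inv_cancel₀ hπ.ne', one_mul]
      have h6 : nI x ^ (-(2 * p)) = (1 / nI x ^ 2) ^ p := by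
        rw [Real.rpow_neg hn.le, one_div, Real.inv_rpow (by positivity)]
        congr 1
        rw [Real.rpow_mul hn.le]
        norm_cast
      rw [h6]
      exact Real.rpow_le_rpow (by positivity) h5 hp0.le
    refine ne_top_of_le_ne_top ?_ h1
    exact ENNReal.mul_ne_top (ENNReal.rpow_ne_top_of_nonneg hp0.le ENNReal.ofReal_ne_top) hfin

/-- the Hölder estimate for the correction constant -/
lemma holder_step {p : ℝ} (hp : 1 < p) {U : ℝ → ℝ} (hU : IsWeight U)
    (hfin : ∫⁻ x, dens p U x ≠ ∞) {f : ℝ → ℝ} (hf : TF f) :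
    (∫⁻ y : ℝ, ENNReal.ofReal (f y / nI y)) ^ p ≤
      (∫⁻ x, dens p U x) ^ (p - 1) *
        ∫⁻ x, ENNReal.ofReal (f x) ^ p * ENNReal.ofReal ((1 + x ^ 2) ^ (-(p / 2)) * U x) := by
  have hp0 : 0 < p := by linarith
  have hp1 : 0 < p - 1 := by linarith
  have hUm := hU.locInt.aestronglyMeasurable
  set q : ℝ := p / (p - 1) with hq
  have hpq : p.HolderConjugate q := Real.HolderConjugate.conjExponent hp
  have hq0 := hpq.symm.pos
  set W : ℝ → ℝ := fun x => (1 + x ^ 2) ^ (-(p / 2)) * U x with hW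
  have hWm : AEStronglyMeasurable W volume := by
    have h1 : Measurable (fun x : ℝ => (1 + x ^ 2) ^ (-(p / 2))) := by fun_prop
    exact h1.aestronglyMeasurable.mul hUm
  have hdm : AEMeasurable (dens p U) volume := hUm.aemeasurable.ennreal_ofReal.pow_const _
  set φ : ℝ → ℝ≥0∞ := fun x => ENNReal.ofReal (f x) * ENNReal.ofReal (W x) ^ (1 / p) with hφ
  set ψ : ℝ → ℝ≥0∞ := fun x => dens p U x ^ (1 / q) with hψ
  have hφm : AEMeasurable φ volume := (hf.meas.aemeasurable.ennreal_ofReal).mul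
    (hWm.aemeasurable.ennreal_ofReal.pow_const _)
  have hψm : AEMeasurable ψ volume := hdm.pow_const _
  have hH := ENNReal.lintegral_mul_le_Lp_mul_Lq volume hpq hφm hψm
  have e1 : ∀ x, φ x ^ p = ENNReal.ofReal (f x) ^ p * ENNReal.ofReal (W x) := by
    intro x
    simp only [hφ]
    rw [ENNReal.mul_rpow_of_nonneg _ _ hp0.le, ← ENNReal.rpow_mul, one_div_mul_cancel hp0.ne',
      ENNReal.rpow_one]
  have e2 : ∀ x, ψ x ^ q = dens p U x := by
    intro x
    simp only [hψ]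
    rw [← ENNReal.rpow_mul, one_div_mul_cancel hq0.ne', ENNReal.rpow_one]
  simp_rw [e1, e2] at hH
  have e3 : ∫⁻ x, ENNReal.ofReal (f x / nI x) ≤ ∫⁻ x, (φ * ψ) x := by
    apply lintegral_mono_ae
    filter_upwards [ae_lt_top' hdm hfin] with x hx
    have hUx : 0 < U x := by
      rcases (hU.nonneg x).lt_or_eq with h | h
      · exact h
      · exfalso
        unfold dens at hx
        rw [← h, ENNReal.ofReal_zero, ENNReal.zero_rpow_of_neg (by
          have : 0 < 1 / (p - 1) := by positivity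
          linarith)] at hx
        exact lt_irrefl _ hx
    have hn := nI_pos x
    have hWx : 0 < W x := by
      simp only [hW]
      positivity
    simp only [Pi.mul_apply, hφ, hψ]
    unfold dens
    rw [ENNReal.ofReal_rpow_of_pos hWx, ENNReal.ofReal_rpow_of_pos hUx,
      ENNReal.ofReal_rpow_of_pos (by positivity), ← ENNReal.ofReal_mul (hf.nonneg x),
      ← ENNReal.ofReal_mul (by have := hf.nonneg x; positivity)]
    apply ENNReal.ofReal_le_ofReal
    apply le_of_eq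
    simp only [hW]
    rw [nI_rpow, Real.mul_rpow (by positivity) hUx.le, ← Real.rpow_mul hn.le, ← Real.rpow_mul hUx.le]
    have h2 : -p * (1 / p) = -1 := by field_simp
    have h3 : U x ^ (1 / p) * U x ^ (-(1 / (p - 1)) * (1 / q)) = 1 := by
      rw [← Real.rpow_add hUx]
      have : 1 / p + -(1 / (p - 1)) * (1 / q) = 0 := by
        rw [hq]; field_simp; ring
      rw [this, Real.rpow_zero]
    rw [h2, Real.rpow_neg_one, div_eq_mul_inv]
    calc f x * (nI x)⁻¹ = f x * (nI x)⁻¹ *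
          (U x ^ (1 / p) * U x ^ (-(1 / (p - 1)) * (1 / q))) := by rw [h3, mul_one]
      _ = _ := by ring
  calc (∫⁻ y : ℝ, ENNReal.ofReal (f y / nI y)) ^ p
      ≤ ((∫⁻ x, ENNReal.ofReal (f x) ^ p * ENNReal.ofReal (W x)) ^ (1 / p) *
          (∫⁻ x, dens p U x) ^ (1 / q)) ^ p := by
        gcongr
        exact e3.trans hH
    _ = _ := by
        rw [ENNReal.mul_rpow_of_nonneg _ _ hp0.le, ← ENNReal.rpow_mul, ← ENNReal.rpow_mul,
          one_div_mul_cancel hp0.ne', ENNReal.rpow_one, mul_comm]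
        congr 2
        rw [hq]
        field_simp

/-- the estimate on a part of the interval which is away from the support of `h` -/
lemma step_iii {p : ℝ} (hp : 1 < p) {U : ℝ → ℝ} (hU : IsWeight U) {C : ℝ≥0} (hC : Adm p U C)
    (hfin : ∫⁻ x, dens p U x ≠ ∞) {s z : ℝ} (hs0 : 0 ≤ s) (hs3 : s ≤ 3) (hz0 : 0 ≤ z) (hz3 : z ≤ 3)
    {ε l : ℝ} {I J : Set ℝ}
    (hε : ε = 1 ∨ ε = -1) (hJm : MeasurableSet J) (hadj : Adj ε l I J)
    (hJ : ∀ x ∈ J, ∀ y, hb s y ≠ 0 → 1 ≤ |x - y|)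
    {f : ℝ → ℝ} (hf : TF f) (hsup : ∀ x, x ∉ I → f x = 0) (hfz : ∀ y, f y ≠ 0 → nI y ≤ 2 * |y - z|) :
    (∫⁻ x in J, ENNReal.ofReal ((1 + x ^ 2) ^ (-(p / 2)) * U x)) *
      ENNReal.ofReal ((∫ x, f x) / (2 * l)) ^ p ≤
      (2 ^ (p - 1) * (ENNReal.ofReal (4 * π) ^ p * (C * (2 ^ (p - 1) * (2 ^ p + 2 ^ p *
        (∫⁻ x, dens p U x) ^ (p - 1) *
        ∫⁻ x, ENNReal.ofReal (hb s x) ^ p * ENNReal.ofReal (U x)))) +
        2 ^ p * (∫⁻ x, dens p U x) ^ (p - 1) * (ENNReal.ofReal 30 ^ p *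
          ∫⁻ x, ENNReal.ofReal (nI x ^ (-(2 * p)) * U x)))) *
      ∫⁻ x, ENNReal.ofReal (f x) ^ p * ENNReal.ofReal ((1 + x ^ 2) ^ (-(p / 2)) * U x) := by
  have hp0 : 0 < p := by linarith
  have hp1 : 0 < p - 1 := by linarith
  have hπ := Real.pi_pos
  have hUm := hU.locInt.aestronglyMeasurable
  have hhold := holder_step hp hU hfin hf
  set W : ℝ → ℝ := fun x => (1 + x ^ 2) ^ (-(p / 2)) * U x with hW
  set S := (∫⁻ x, dens p U x) ^ (p - 1) with hS
  set A := ∫⁻ x, ENNReal.ofReal (f x) ^ p * ENNReal.ofReal (W x) with hA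
  set V := ∫⁻ x, ENNReal.ofReal (nI x ^ (-(2 * p)) * U x) with hV
  set Uh := ∫⁻ x, ENNReal.ofReal (hb s x) ^ p * ENNReal.ofReal (U x) with hUh
  set c := ∫ x, f x with hc
  have hc0 : 0 ≤ c := integral_nonneg hf.nonneg
  have hh := hb_TF s
  have t2p : (2:ℝ≥0∞) ^ p ≠ ∞ := ENNReal.rpow_ne_top_of_nonneg hp0.le (by simp)
  set F : ℝ → ℂ := fun y => (f y : ℂ) / ((y : ℂ) - (z : ℂ)) with hF
  have hFle : ∀ y, ‖F y‖ ≤ 2 * (f y / nI y) := by
    intro y
    simp only [hF]
    rw [norm_div, sub_norm, Complex.norm_real, Real.norm_eq_abs, abs_of_nonneg (hf.nonneg y)]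
    rcases eq_or_ne (f y) 0 with h0 | h0
    · rw [h0]; simp
    · have h1 := hfz y h0
      have h2 := nI_pos y
      have h3 : 0 < |y - z| := by linarith
      rw [mul_div_assoc', div_le_div_iff₀ h3 h2]
      have := hf.nonneg y
      nlinarith
  have hFi : Integrable F := by
    refine (hf.integrable.const_mul 2).mono ?_ (Eventually.of_forall fun y => ?_)
    · have hm : Measurable (fun y : ℝ => ((y : ℂ) - (z : ℂ))) := by fun_prop
      exact (hf.cint.1.aemeasurable.div hm.aemeasurable).aestronglyMeasurable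
    · refine (hFle y).trans ?_
      have h1 := hf.nonneg y
      rw [Real.norm_eq_abs, abs_of_nonneg (by positivity)]
      have h2 := nI_one y
      have h3 : f y / nI y ≤ f y := div_le_self h1 h2
      linarith
  set cF := ∫ y, F y with hcF
  have hcF2 : ‖cF‖ₑ ^ p ≤ 2 ^ p * S * A := by
    have h1 : ‖cF‖ₑ ≤ 2 * ∫⁻ y : ℝ, ENNReal.ofReal (f y / nI y) := by
      refine (enorm_integral_le_lintegral_enorm _).trans ?_
      rw [← lintegral_const_mul' _ _ (by simp)]
      apply lintegral_mono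
      intro y
      simp only []
      rw [← ofReal_norm]
      have h3 : (2:ℝ≥0∞) = ENNReal.ofReal 2 := by simp
      rw [h3, ← ENNReal.ofReal_mul (by norm_num)]
      exact ENNReal.ofReal_le_ofReal (hFle y)
    calc ‖cF‖ₑ ^ p ≤ (2 * ∫⁻ y : ℝ, ENNReal.ofReal (f y / nI y)) ^ p := by gcongr
      _ = 2 ^ p * (∫⁻ y : ℝ, ENNReal.ofReal (f y / nI y)) ^ p :=
          ENNReal.mul_rpow_of_nonneg _ _ hp0.le
      _ ≤ 2 ^ p * (S * A) := by gcongr
      _ = _ := by ring
  set g : ℝ → ℂ := fun y => F y - cF * (hb s y : ℂ) with hg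
  have hgi : Integrable g := hFi.sub (hh.cint.const_mul _)
  have hg0 : ∫ x, g x = 0 := by
    rw [hg, integral_sub hFi (hh.cint.const_mul _), integral_const_mul,
      integral_complex_ofReal, hb_int, ← hcF]
    simp
  have hFr : ∀ x, (F x).im = 0 := by
    intro x
    simp only [hF]
    rw [← Complex.ofReal_sub, ← Complex.ofReal_div, Complex.ofReal_im]
  have hcr : cF.im = 0 := by
    have h1 := integral_im hFi
    simp only [RCLike.im_to_complex] at h1
    rw [hcF, ← h1]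
    simp_rw [hFr]
    simp
  have hgr : ∀ x, (g x).im = 0 := by
    intro x
    simp only [hg]
    rw [Complex.sub_im, hFr, Complex.mul_im, hcr, Complex.ofReal_im]
    simp
  have hmain := hC g hgr hgi hg0
  have hrhs := rhs_bound hp hUm F hh cF
  have e1 : ∫⁻ x, ‖F x‖ₑ ^ p * ENNReal.ofReal (U x) ≤ 2 ^ p * A := by
    rw [hA, ← lintegral_const_mul' _ _ t2p]
    apply lintegral_mono
    intro x
    simp only []
    have h1 := nI_pos x
    have h2 : ‖F x‖ₑ ≤ ENNReal.ofReal (2 * (f x / nI x)) := by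
      rw [← ofReal_norm]
      exact ENNReal.ofReal_le_ofReal (hFle x)
    calc ‖F x‖ₑ ^ p * ENNReal.ofReal (U x)
        ≤ ENNReal.ofReal (2 * (f x / nI x)) ^ p * ENNReal.ofReal (U x) := by gcongr
      _ = 2 ^ p * (ENNReal.ofReal (f x) ^ p * ENNReal.ofReal (W x)) := by
          have h3 : ENNReal.ofReal (2:ℝ) = (2:ℝ≥0∞) := by simp
          rw [ENNReal.ofReal_mul (by norm_num), ENNReal.mul_rpow_of_nonneg _ _ hp0.le, h3, mul_assoc]
          congr 1
          rw [ENNReal.ofReal_rpow_of_nonneg (div_nonneg (hf.nonneg x) h1.le) hp0.le,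
            ENNReal.ofReal_rpow_of_nonneg (hf.nonneg x) hp0.le,
            ← ENNReal.ofReal_mul (by have := hf.nonneg x; positivity),
            ← ENNReal.ofReal_mul (by have := hf.nonneg x; positivity)]
          congr 1
          show (f x / nI x) ^ p * U x = f x ^ p * ((1 + x ^ 2) ^ (-(p / 2)) * U x)
          rw [Real.div_rpow (hf.nonneg x) h1.le, nI_rpow, Real.rpow_neg h1.le]
          ring
  have hrhs2 : ∫⁻ x, ‖g x‖ₑ ^ p * ENNReal.ofReal (U x) ≤
      2 ^ (p - 1) * ((2 ^ p + 2 ^ p * S * Uh) * A) := by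
    refine hrhs.trans ?_
    gcongr
    calc (∫⁻ x, ‖F x‖ₑ ^ p * ENNReal.ofReal (U x)) + ‖cF‖ₑ ^ p * Uh
        ≤ 2 ^ p * A + (2 ^ p * S * A) * Uh := by gcongr
      _ = (2 ^ p + 2 ^ p * S * Uh) * A := by ring
  -- pointwise bound
  have hpt : ∀ x ∈ J, ENNReal.ofReal (W x) * ENNReal.ofReal (c / (2 * l)) ^ p ≤
      2 ^ (p - 1) * (ENNReal.ofReal (4 * π) ^ p * (‖hilbert g x‖ₑ ^ p * ENNReal.ofReal (U x)) +
        ‖cF‖ₑ ^ p * (ENNReal.ofReal 30 ^ p * ENNReal.ofReal (nI x ^ (-(2 * p)) * U x))) := by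
    intro x hx
    obtain ⟨κ, hκ, hI⟩ := hadj x hx
    have hn := nI_pos x
    have hfy : ∀ y, f y ≠ 0 → κ ≤ ε * (x - y) ∧ ε * (x - y) ≤ 2 * l := fun y hy =>
      hI y (by by_contra h0; exact hy (hsup y h0))
    have hfD : ∀ y, f y ≠ 0 → κ ≤ |x - y| := fun y hy => abs_of_adj hε (hfy y hy).1
    have hhD : ∀ y, hb s y ≠ 0 → 1 ≤ |x - y| := hJ x hx
    set D := min κ 1 with hD
    have hD0 : 0 < D := lt_min hκ one_pos
    have k₁ : ∀ y, F y ≠ 0 → D ≤ |x - y| := fun y hy =>
      (min_le_left _ _).trans (hfD y (by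
        intro h0
        apply hy
        simp only [hF]
        rw [h0]; simp))
    have k₂ : ∀ y, (hb s y : ℂ) ≠ 0 → D ≤ |x - y| := fun y hy =>
      (min_le_right _ _).trans (hhD y (by exact_mod_cast hy))
    have k₃ : ∀ y, g y ≠ 0 → D ≤ |x - y| := by
      intro y hy
      by_cases h0 : F y = 0
      · apply k₂ y
        intro h1
        apply hy
        simp only [hg]
        rw [h0, h1, mul_zero, sub_zero]
      · exact k₁ y h0
    have e5 : (fun y : ℝ => ((y : ℂ) - (z : ℂ)) * g y) =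
        fun y => (f y : ℂ) - cF * (((y : ℂ) - (z : ℂ)) * (hb s y : ℂ)) := by
      ext y
      simp only [hg, hF]
      rcases eq_or_ne (f y) 0 with h0 | h0
      · rw [h0]
        push_cast
        ring
      · have h1 := hfz y h0
        have h1' := nI_pos y
        have h2 : (y : ℂ) - (z : ℂ) ≠ 0 := by
          rw [← norm_ne_zero_iff, sub_norm]
          intro h3
          rw [h3] at h1
          linarith
        field_simp
    have hmh : Integrable (fun y : ℝ => ((y : ℂ) - (z : ℂ)) * (hb s y : ℂ)) :=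
      hh.mul_int (by fun_prop)
    have hgz : Integrable (fun y : ℝ => ((y : ℂ) - (z : ℂ)) * g y) := by
      rw [e5]
      exact hf.cint.sub (hmh.const_mul _)
    have hmul := HI_mul hgi hD0 k₃ (z : ℂ) hgz
    rw [hg0, zero_add, e5, HI_sub hf.cint hmh hD0
      (fun y hy => (min_le_left _ _).trans (hfD y (by exact_mod_cast hy)))
      (fun y hy => k₂ y (right_ne_zero_of_mul hy))] at hmul
    have hlo := HI_lower hf hε hκ hfy
    have hsy : ∀ y, hb s y ≠ 0 → 0 ≤ y ∧ y ≤ 4 := fun y hy => by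
      have := hb_supp hy
      constructor <;> linarith [this.1, this.2]
    have hup := HI_upper hmh (by positivity : 0 < nI x / 6) (x := x) (fun y hy => by
      have hy' : hb s y ≠ 0 := by exact_mod_cast (right_ne_zero_of_mul hy)
      have h1 := hhD y hy'
      have h2 := hsy y hy'
      have h3 := nI_le x
      have h4 := abs_sub_abs_le_abs_sub x y
      rw [abs_of_nonneg h2.1] at h4
      linarith)
    have e3 : ∫ y : ℝ, ‖((y : ℂ) - (z : ℂ)) * (hb s y : ℂ)‖ ≤ 5 := by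
      calc ∫ y : ℝ, ‖((y : ℂ) - (z : ℂ)) * (hb s y : ℂ)‖ ≤ ∫ y, 5 * hb s y := by
            apply integral_mono hmh.norm (hh.integrable.const_mul _)
            intro y
            simp only []
            rw [norm_mul, Complex.norm_real, Real.norm_eq_abs, abs_of_nonneg (hh.nonneg y), sub_norm]
            rcases eq_or_ne (hb s y) 0 with h0 | h0
            · rw [h0]; simp
            · apply mul_le_mul_of_nonneg_right _ (hh.nonneg y)
              have h1 := hsy y h0
              rw [abs_le]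
              constructor <;> linarith
        _ = 5 := by rw [integral_const_mul, hb_int, mul_one]
    have hup2 : ‖HI (fun y : ℝ => ((y : ℂ) - (z : ℂ)) * (hb s y : ℂ)) x‖ ≤ 30 / nI x := by
      refine (hup.trans (mul_le_mul_of_nonneg_left e3 (by positivity))).trans (le_of_eq ?_)
      field_simp
      norm_num
    have hxz : |x - z| ≤ 4 * nI x := by
      have h1 : |x| ≤ nI x := by
        refine abs_le_of_sq_le_sq ?_ hn.le
        rw [nI_sq]; linarith
      have h2 := nI_one x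
      have h3 := abs_sub x z
      rw [abs_of_nonneg hz0] at h3
      linarith
    have h5 : c / (2 * l) ≤ nI x * (4 * π * ‖hilbert g x‖) + ‖cF‖ * (30 / nI x) := by
      rw [norm_hilbert_HI hD0 k₃]
      have h6 : |x - z| * ‖HI g x‖ = ‖((x:ℂ) - (z:ℂ)) * HI g x‖ := by
        rw [norm_mul, sub_norm]
      have h6' : nI x * (4 * π * (π⁻¹ * ‖HI g x‖)) = (4 * nI x) * ‖HI g x‖ := by
        field_simp
      have h6'' : |x - z| * ‖HI g x‖ ≤ (4 * nI x) * ‖HI g x‖ :=
        mul_le_mul_of_nonneg_right hxz (norm_nonneg _)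
      rw [h6']
      rw [h6, hmul] at h6''
      have h7 : ‖HI (fun y => (f y : ℂ)) x‖ ≤ ‖HI (fun y => (f y : ℂ)) x -
          cF * HI (fun y : ℝ => ((y : ℂ) - (z : ℂ)) * (hb s y : ℂ)) x‖ +
          ‖cF * HI (fun y : ℝ => ((y : ℂ) - (z : ℂ)) * (hb s y : ℂ)) x‖ := by
        have := norm_add_le (HI (fun y => (f y : ℂ)) x -
          cF * HI (fun y : ℝ => ((y : ℂ) - (z : ℂ)) * (hb s y : ℂ)) x)
          (cF * HI (fun y : ℝ => ((y : ℂ) - (z : ℂ)) * (hb s y : ℂ)) x)
        rwa [sub_add_cancel] at this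
      have h8 : ‖cF * HI (fun y : ℝ => ((y : ℂ) - (z : ℂ)) * (hb s y : ℂ)) x‖ ≤
          ‖cF‖ * (30 / nI x) := by
        rw [norm_mul]
        exact mul_le_mul_of_nonneg_left hup2 (norm_nonneg _)
      linarith
    have h9 : ENNReal.ofReal (c / (2 * l)) ^ p ≤ 2 ^ (p - 1) *
        ((ENNReal.ofReal (nI x) * (ENNReal.ofReal (4 * π) * ‖hilbert g x‖ₑ)) ^ p +
          (‖cF‖ₑ * ENNReal.ofReal (30 / nI x)) ^ p) := by
      refine le_trans ?_ (ENNReal.rpow_add_le_mul_rpow_add_rpow _ _ hp.le)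
      apply ENNReal.rpow_le_rpow _ hp0.le
      rw [← ofReal_norm, ← ofReal_norm, ← ENNReal.ofReal_mul (by positivity),
        ← ENNReal.ofReal_mul hn.le,
        ← ENNReal.ofReal_mul (norm_nonneg _), ← ENNReal.ofReal_add (by positivity) (by positivity)]
      exact ENNReal.ofReal_le_ofReal h5
    have h10 : ENNReal.ofReal (W x) * ENNReal.ofReal (nI x) ^ p = ENNReal.ofReal (U x) := by
      rw [ENNReal.ofReal_rpow_of_pos hn, ← ENNReal.ofReal_mul (by
        have := hU.nonneg x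
        simp only [hW]
        positivity)]
      congr 1
      simp only [hW]
      rw [nI_rpow]
      calc nI x ^ (-p) * U x * nI x ^ p = (nI x ^ (-p) * nI x ^ p) * U x := by ring
        _ = U x := by rw [← Real.rpow_add hn, neg_add_cancel, Real.rpow_zero, one_mul]
    have h11 : ENNReal.ofReal (W x) * ENNReal.ofReal (30 / nI x) ^ p =
        ENNReal.ofReal 30 ^ p * ENNReal.ofReal (nI x ^ (-(2 * p)) * U x) := by
      rw [ENNReal.ofReal_rpow_of_pos (by positivity), ENNReal.ofReal_rpow_of_pos (by norm_num),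
        ← ENNReal.ofReal_mul (by
          have := hU.nonneg x
          simp only [hW]
          positivity), ← ENNReal.ofReal_mul (by positivity)]
      congr 1
      simp only [hW]
      rw [nI_rpow, Real.div_rpow (by norm_num) hn.le]
      have h12 : nI x ^ (-(2 * p)) = nI x ^ (-p) * nI x ^ (-p) := by
        rw [← Real.rpow_add hn]; congr 1; ring
      rw [h12, Real.rpow_neg hn.le]
      ring
    calc ENNReal.ofReal (W x) * ENNReal.ofReal (c / (2 * l)) ^ p
        ≤ ENNReal.ofReal (W x) * (2 ^ (p - 1) *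
          ((ENNReal.ofReal (nI x) * (ENNReal.ofReal (4 * π) * ‖hilbert g x‖ₑ)) ^ p +
          (‖cF‖ₑ * ENNReal.ofReal (30 / nI x)) ^ p)) := by gcongr
      _ = 2 ^ (p - 1) * (ENNReal.ofReal (4 * π) ^ p * (‖hilbert g x‖ₑ ^ p *
            (ENNReal.ofReal (W x) * ENNReal.ofReal (nI x) ^ p)) +
          ‖cF‖ₑ ^ p * (ENNReal.ofReal (W x) * ENNReal.ofReal (30 / nI x) ^ p)) := by
          rw [ENNReal.mul_rpow_of_nonneg _ _ hp0.le, ENNReal.mul_rpow_of_nonneg _ _ hp0.le,
            ENNReal.mul_rpow_of_nonneg _ _ hp0.le]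
          ring
      _ = _ := by rw [h10, h11]
  have hVm : AEMeasurable (fun x => ENNReal.ofReal (nI x ^ (-(2 * p)) * U x)) volume :=
    ((nI_meas.pow_const _).aemeasurable.mul hUm.aemeasurable).ennreal_ofReal
  have t2 : (2:ℝ≥0∞) ^ (p - 1) ≠ ∞ := ENNReal.rpow_ne_top_of_nonneg hp1.le (by simp)
  have tπ : ENNReal.ofReal (4 * π) ^ p ≠ ∞ :=
    ENNReal.rpow_ne_top_of_nonneg hp0.le ENNReal.ofReal_ne_top
  have t30 : ENNReal.ofReal 30 ^ p ≠ ∞ := ENNReal.rpow_ne_top_of_nonneg hp0.le ENNReal.ofReal_ne_top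
  have tc : ‖cF‖ₑ ^ p ≠ ∞ := ENNReal.rpow_ne_top_of_nonneg hp0.le (by simp)
  calc (∫⁻ x in J, ENNReal.ofReal (W x)) * ENNReal.ofReal (c / (2 * l)) ^ p
      = ∫⁻ x in J, ENNReal.ofReal (W x) * ENNReal.ofReal (c / (2 * l)) ^ p :=
        (lintegral_mul_const' _ _ (ENNReal.rpow_ne_top_of_nonneg hp0.le ENNReal.ofReal_ne_top)).symm
    _ ≤ ∫⁻ x in J, 2 ^ (p - 1) * (ENNReal.ofReal (4 * π) ^ p *
          (‖hilbert g x‖ₑ ^ p * ENNReal.ofReal (U x)) +
        ‖cF‖ₑ ^ p * (ENNReal.ofReal 30 ^ p * ENNReal.ofReal (nI x ^ (-(2 * p)) * U x))) :=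
        setLIntegral_mono' hJm hpt
    _ ≤ ∫⁻ x, 2 ^ (p - 1) * (ENNReal.ofReal (4 * π) ^ p *
          (‖hilbert g x‖ₑ ^ p * ENNReal.ofReal (U x)) +
        ‖cF‖ₑ ^ p * (ENNReal.ofReal 30 ^ p * ENNReal.ofReal (nI x ^ (-(2 * p)) * U x))) :=
        setLIntegral_le_lintegral _ _
    _ = 2 ^ (p - 1) * (ENNReal.ofReal (4 * π) ^ p *
          (∫⁻ x, ‖hilbert g x‖ₑ ^ p * ENNReal.ofReal (U x)) +
        ‖cF‖ₑ ^ p * (ENNReal.ofReal 30 ^ p * V)) := by
        rw [lintegral_const_mul' _ _ t2, lintegral_add_right' _ ((hVm.const_mul _).const_mul _),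
          lintegral_const_mul' _ _ tπ, lintegral_const_mul' _ _ tc, lintegral_const_mul' _ _ t30]
    _ ≤ 2 ^ (p - 1) * (ENNReal.ofReal (4 * π) ^ p *
          (C * (2 ^ (p - 1) * ((2 ^ p + 2 ^ p * S * Uh) * A))) +
        (2 ^ p * S * A) * (ENNReal.ofReal 30 ^ p * V)) := by
        gcongr
        exact hmain.trans (by gcongr)
    _ = _ := by ring

/-- restriction of a test function -/
lemma TF.restr {f : ℝ → ℝ} (hf : TF f) {E : Set ℝ} (hE : MeasurableSet E) : TF (E.indicator f) := by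
  obtain ⟨M, hM⟩ := hf.bdd
  obtain ⟨R, hR⟩ := hf.supp
  refine ⟨hf.meas.indicator hE, fun x => indicator_nonneg (fun x _ => hf.nonneg x) x,
    ⟨M, fun x => ?_⟩, ⟨R, fun x hx => ?_⟩⟩
  · exact (indicator_le_self' (fun x _ => hf.nonneg x) x).trans (hM x)
  · by_cases h : x ∈ E
    · rw [indicator_of_mem h, hR x hx]
    · rw [indicator_of_notMem h]

theorem case_iii {p : ℝ} (hp : 1 < p) {U : ℝ → ℝ} (hU : IsWeight U) {C : ℝ≥0} (hC : Adm p U C)
    (hfin : ∫⁻ x, dens p U x ≠ ∞) : MemAp p (fun x => (1 + x ^ 2) ^ (-(p / 2)) * U x) := by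
  have hp0 : 0 < p := by linarith
  have hp1 : 0 < p - 1 := by linarith
  have hUm := hU.locInt.aestronglyMeasurable
  set W : ℝ → ℝ := fun x => (1 + x ^ 2) ^ (-(p / 2)) * U x with hW
  have hWm : AEStronglyMeasurable W volume := by
    have h1 : Measurable (fun x : ℝ => (1 + x ^ 2) ^ (-(p / 2))) := by fun_prop
    exact h1.aestronglyMeasurable.mul hUm
  set S := (∫⁻ x, dens p U x) ^ (p - 1) with hS
  set V := ∫⁻ x, ENNReal.ofReal (nI x ^ (-(2 * p)) * U x) with hV
  have hSt : S ≠ ∞ := ENNReal.rpow_ne_top_of_nonneg hp1.le hfin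
  have hVt : V ≠ ∞ := tail_finite hp hU hC
  have t2 : (2:ℝ≥0∞) ^ (p - 1) ≠ ∞ := ENNReal.rpow_ne_top_of_nonneg hp1.le (by simp)
  have t2p : (2:ℝ≥0∞) ^ p ≠ ∞ := ENNReal.rpow_ne_top_of_nonneg hp0.le (by simp)
  have tπ : ENNReal.ofReal (4 * π) ^ p ≠ ∞ :=
    ENNReal.rpow_ne_top_of_nonneg hp0.le ENNReal.ofReal_ne_top
  have t30 : ENNReal.ofReal 30 ^ p ≠ ∞ := ENNReal.rpow_ne_top_of_nonneg hp0.le ENNReal.ofReal_ne_top
  set B : ℝ → ℝ≥0∞ := fun s => 2 ^ (p - 1) * (ENNReal.ofReal (4 * π) ^ p *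
        (C * (2 ^ (p - 1) * (2 ^ p + 2 ^ p *
        S * ∫⁻ x, ENNReal.ofReal (hb s x) ^ p * ENNReal.ofReal (U x)))) +
        2 ^ p * S * (ENNReal.ofReal 30 ^ p * V)) with hB
  have hBt : ∀ s, B s ≠ ∞ := by
    intro s
    simp only [hB]
    have h1 := (hb_TF s).rpow_integrable hU hp0
    apply ENNReal.mul_ne_top t2
    apply ENNReal.add_ne_top.2
    refine ⟨ENNReal.mul_ne_top tπ (ENNReal.mul_ne_top ENNReal.coe_ne_top
      (ENNReal.mul_ne_top t2 (ENNReal.add_ne_top.2 ⟨t2p,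
        ENNReal.mul_ne_top (ENNReal.mul_ne_top t2p hSt) h1⟩))),
        ENNReal.mul_ne_top (ENNReal.mul_ne_top t2p hSt) (ENNReal.mul_ne_top t30 hVt)⟩
  have hBB : 2 ^ (p - 1) * (2 * ((B 0 + B 3) * 2 ^ p)) ≠ ∞ :=
    ENNReal.mul_ne_top t2 (ENNReal.mul_ne_top (by simp)
      (ENNReal.mul_ne_top (ENNReal.add_ne_top.2 ⟨hBt 0, hBt 3⟩) t2p))
  apply memAp_of_test hp hWm (2 ^ (p - 1) * (2 * ((B 0 + B 3) * 2 ^ p))).toNNReal
    (K := fun _ => univ) (fun _ => MeasurableSet.univ) (fun _ _ _ => le_rfl)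
    (Eventually.of_forall fun x => ⟨0, mem_univ x⟩)
  intro ε l a b I hε hl hadj f hf hsup _
  rw [ENNReal.coe_toNNReal hBB]
  -- one piece of `f`
  have hpiece : ∀ (z : ℝ), 0 ≤ z → z ≤ 3 → ∀ f : ℝ → ℝ, TF f → (∀ x, x ∉ I → f x = 0) →
      (∀ y, f y ≠ 0 → nI y ≤ 2 * |y - z|) →
      (∫⁻ x in Ioo a b, ENNReal.ofReal (W x)) * ENNReal.ofReal (∫ x, f x) ^ p ≤
        (B 0 + B 3) * 2 ^ p * ENNReal.ofReal l ^ p *
        ∫⁻ x, ENNReal.ofReal (f x) ^ p * ENNReal.ofReal (W x) := by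
    intro z hz0 hz3 f hf hsup hfz
    set c := ∫ x, f x with hc
    have hc0 : 0 ≤ c := integral_nonneg hf.nonneg
    set A := ∫⁻ x, ENNReal.ofReal (f x) ^ p * ENNReal.ofReal (W x) with hA
    have h1 := step_iii hp hU hC hfin (s := 0) le_rfl (by norm_num) hz0 hz3 hε
      (J := Ioo a b ∩ Ici 2) (measurableSet_Ioo.inter measurableSet_Ici)
      (fun x hx => hadj x hx.1) (fun x hx y hy => by
        have h3 := hb_supp hy
        have h4 : (2:ℝ) ≤ x := hx.2
        have h5 := le_abs_self (x - y)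
        linarith [h3.2]) hf hsup hfz
    have h2 := step_iii hp hU hC hfin (s := 3) (by norm_num) le_rfl hz0 hz3 hε
      (J := Ioo a b ∩ Iio 2) (measurableSet_Ioo.inter measurableSet_Iio)
      (fun x hx => hadj x hx.1) (fun x hx y hy => by
        have h3 := hb_supp hy
        have h4 : x < (2:ℝ) := hx.2
        have h5 := neg_abs_le (x - y)
        linarith [h3.1]) hf hsup hfz
    have h1' : (∫⁻ x in Ioo a b ∩ Ici 2, ENNReal.ofReal (W x)) *
        ENNReal.ofReal (c / (2 * l)) ^ p ≤ B 0 * A := h1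
    have h2' : (∫⁻ x in Ioo a b ∩ Iio 2, ENNReal.ofReal (W x)) *
        ENNReal.ofReal (c / (2 * l)) ^ p ≤ B 3 * A := h2
    have hsplit : ∫⁻ x in Ioo a b, ENNReal.ofReal (W x) ≤
        (∫⁻ x in Ioo a b ∩ Ici 2, ENNReal.ofReal (W x)) +
        ∫⁻ x in Ioo a b ∩ Iio 2, ENNReal.ofReal (W x) := by
      refine le_trans (lintegral_mono_set ?_) (lintegral_union_le _ _ _)
      intro x hx
      rcases le_or_gt 2 x with h | h
      · exact Or.inl ⟨hx, h⟩
      · exact Or.inr ⟨hx, h⟩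
    have e : ENNReal.ofReal c ^ p = ENNReal.ofReal (c / (2 * l)) ^ p *
        (2 ^ p * ENNReal.ofReal l ^ p) := by
      rw [← ENNReal.mul_rpow_of_nonneg _ _ hp0.le, ← ENNReal.mul_rpow_of_nonneg _ _ hp0.le]
      congr 1
      have h3 : (2:ℝ≥0∞) = ENNReal.ofReal 2 := by simp
      rw [h3, ← ENNReal.ofReal_mul (by norm_num), ← ENNReal.ofReal_mul (by positivity)]
      congr 1
      field_simp
    calc (∫⁻ x in Ioo a b, ENNReal.ofReal (W x)) * ENNReal.ofReal c ^ p
        ≤ ((∫⁻ x in Ioo a b ∩ Ici 2, ENNReal.ofReal (W x)) +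
            ∫⁻ x in Ioo a b ∩ Iio 2, ENNReal.ofReal (W x)) * ENNReal.ofReal c ^ p := by gcongr
      _ = ((∫⁻ x in Ioo a b ∩ Ici 2, ENNReal.ofReal (W x)) * ENNReal.ofReal (c / (2 * l)) ^ p +
            (∫⁻ x in Ioo a b ∩ Iio 2, ENNReal.ofReal (W x)) * ENNReal.ofReal (c / (2 * l)) ^ p) *
            (2 ^ p * ENNReal.ofReal l ^ p) := by rw [e]; ring
      _ ≤ (B 0 * A + B 3 * A) * (2 ^ p * ENNReal.ofReal l ^ p) := by gcongr
      _ = _ := by ring
  set E : Set ℝ := {x | 1 ≤ |x|} with hE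
  have hEm : MeasurableSet E := measurableSet_le measurable_const (by fun_prop)
  have hf1 := hf.restr hEm
  have hf2 := hf.restr hEm.compl
  have p1 := hpiece 0 le_rfl (by norm_num) _ hf1 (fun x hx => by
    by_cases h : x ∈ E
    · rw [indicator_of_mem h, hsup x hx]
    · rw [indicator_of_notMem h]) (fun y hy => by
    have hyE : y ∈ E := by
      by_contra h
      exact hy (indicator_of_notMem h f)
    have h1 : 1 ≤ |y| := hyE
    have h2 := nI_le y
    rw [sub_zero]
    linarith)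
  have p2 := hpiece 3 (by norm_num) le_rfl _ hf2 (fun x hx => by
    by_cases h : x ∈ Eᶜ
    · rw [indicator_of_mem h, hsup x hx]
    · rw [indicator_of_notMem h]) (fun y hy => by
    have hyE : y ∈ Eᶜ := by
      by_contra h
      exact hy (indicator_of_notMem h f)
    have h1 : |y| < 1 := not_le.1 hyE
    have h2 := nI_le y
    have h3 := neg_abs_le (y - 3)
    have h4 := le_abs_self y
    linarith)
  have hmono : ∀ G : Set ℝ, ∫⁻ x, ENNReal.ofReal (G.indicator f x) ^ p * ENNReal.ofReal (W x) ≤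
      ∫⁻ x, ENNReal.ofReal (f x) ^ p * ENNReal.ofReal (W x) := by
    intro G
    apply lintegral_mono
    intro x
    simp only []
    gcongr
    exact indicator_le_self' (fun x _ => hf.nonneg x) x
  have hsum : ∫ x, f x = (∫ x, E.indicator f x) + ∫ x, Eᶜ.indicator f x := by
    rw [← integral_add hf1.integrable hf2.integrable]
    congr 1
    ext x
    exact (congrFun (indicator_self_add_compl E f) x).symm
  have hsum2 : ∫⁻ x, ENNReal.ofReal (f x) = ENNReal.ofReal (∫ x, E.indicator f x) +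
      ENNReal.ofReal (∫ x, Eᶜ.indicator f x) := by
    rw [hf.lint, hsum, ENNReal.ofReal_add (integral_nonneg hf1.nonneg) (integral_nonneg hf2.nonneg)]
  rw [hsum2]
  set A := ∫⁻ x, ENNReal.ofReal (f x) ^ p * ENNReal.ofReal (W x) with hA
  set WJ := ∫⁻ x in Ioo a b, ENNReal.ofReal (W x) with hWJ
  calc WJ * (ENNReal.ofReal (∫ x, E.indicator f x) + ENNReal.ofReal (∫ x, Eᶜ.indicator f x)) ^ p
      ≤ WJ * (2 ^ (p - 1) * (ENNReal.ofReal (∫ x, E.indicator f x) ^ p +
          ENNReal.ofReal (∫ x, Eᶜ.indicator f x) ^ p)) := by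
        gcongr
        exact ENNReal.rpow_add_le_mul_rpow_add_rpow _ _ hp.le
    _ = 2 ^ (p - 1) * (WJ * ENNReal.ofReal (∫ x, E.indicator f x) ^ p +
          WJ * ENNReal.ofReal (∫ x, Eᶜ.indicator f x) ^ p) := by ring
    _ ≤ 2 ^ (p - 1) * ((B 0 + B 3) * 2 ^ p * ENNReal.ofReal l ^ p * A +
          (B 0 + B 3) * 2 ^ p * ENNReal.ofReal l ^ p * A) := by
        have q1 := p1.trans (mul_le_mul_right (hmono E) _)
        have q2 := p2.trans (mul_le_mul_right (hmono Eᶜ) _)
        exact mul_le_mul_right (add_le_add q1 q2) _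
    _ = _ := by ring

/-- if the dual density is integrable near infinity and near every point, it is integrable -/
lemma dens_finite {p : ℝ} {U : ℝ → ℝ} 
    (h1 : ∃ R : ℝ, ∫⁻ x in {x : ℝ | R < |x|}, dens p U x ≠ ∞)
    (h2 : ∀ a : ℝ, ∃ r : ℝ, 0 < r ∧ ∫⁻ x in {x : ℝ | |x - a| < r}, dens p U x ≠ ∞) :
    ∫⁻ x, dens p U x ≠ ∞ := by
  obtain ⟨R, hR⟩ := h1
  set μ := (volume : Measure ℝ).withDensity (dens p U) with hμ
  have e : ∀ s : Set ℝ, MeasurableSet s → ∫⁻ x in s, dens p U x = μ s :=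
    fun s hs => (withDensity_apply _ hs).symm
  have hc : μ (Icc (-R) R) < ∞ := by
    apply (isCompact_Icc (a := -R) (b := R)).measure_lt_top_of_nhdsWithin
    intro a _
    obtain ⟨r, hr, hr2⟩ := h2 a
    have hm : MeasurableSet {x : ℝ | |x - a| < r} := measurableSet_lt (by fun_prop) measurable_const
    rw [e _ hm] at hr2
    refine ⟨{x : ℝ | |x - a| < r}, ?_, lt_top_iff_ne_top.2 hr2⟩
    apply mem_nhdsWithin_of_mem_nhds
    have : {x : ℝ | |x - a| < r} = Metric.ball a r := by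
      ext x
      simp [Real.dist_eq]
    rw [this]
    exact Metric.ball_mem_nhds a hr
  have hm : MeasurableSet {x : ℝ | R < |x|} := measurableSet_lt measurable_const (by fun_prop)
  rw [← setLIntegral_univ]
  refine ne_top_of_le_ne_top ?_ (le_trans (lintegral_mono_set (s := univ)
    (t := Icc (-R) R ∪ {x : ℝ | R < |x|}) ?_) (lintegral_union_le _ _ _))
  · apply ENNReal.add_ne_top.2
    refine ⟨?_, hR⟩
    rw [e _ measurableSet_Icc]
    exact hc.ne
  · intro x _
    rcases le_or_gt |x| R with h | h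
    · exact Or.inl (abs_le.1 h)
    · exact Or.inr h

/-- necessity -/
theorem necessity {p : ℝ} (hp : 1 < p) {U : ℝ → ℝ} (hU : IsWeight U) (hA : AdmissibleReal p U) :
    MemAp p U ∨ MemAp p (fun x => (1 + x ^ 2) ^ (-(p / 2)) * U x) ∨
      ∃ a : ℝ, MemAp p (fun x => |x - a| ^ (-p) * U x) := by
  obtain ⟨C, hC'⟩ := hA
  have hC : Adm p U C := by
    intro f hfr hf h0
    have e1 : (fun y => (((f y).re : ℝ) : ℂ)) = f := by
      ext y
      apply Complex.ext
      · simp
      · simp [hfr y]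
    have h2 := hC' (fun y => (f y).re) hf.re (by
      have h3 := integral_re hf
      simp only [RCLike.re_to_complex] at h3
      rw [h3, h0, Complex.zero_re])
    rw [e1] at h2
    refine h2.trans (le_of_eq ?_)
    congr 1
    apply lintegral_congr
    intro x
    congr 2
    have h4 := congrFun e1 x
    rw [← ofReal_norm, ← ofReal_norm]
    nth_rewrite 2 [← h4]
    rw [Complex.norm_real]
  by_cases h1 : ∀ R : ℝ, ∫⁻ x in {x : ℝ | R < |x|}, dens p U x = ∞
  · exact Or.inl (case_i hp hU hC h1)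
  by_cases h2 : ∃ a : ℝ, ∀ r : ℝ, 0 < r → ∫⁻ x in {x : ℝ | |x - a| < r}, dens p U x = ∞
  · obtain ⟨a, ha⟩ := h2
    exact Or.inr (Or.inr ⟨a, case_ii hp hU hC a ha⟩)
  · push Not at h1 h2
    exact Or.inr (Or.inl (case_iii hp hU hC (dens_finite h1 h2)))

end Pool.Agent.E8helper96.HT
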