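import Pool.Agent.E8helper96.HT.WB

/-!
# Uniform weighted bound for the regularised Hilbert transforms
-/

set_option autoImplicit false

open MeasureTheory Filter Topology Set
open scoped ENNReal NNReal Real

namespace Pool.Agent.E8helper96.HT

open Pool.Dav (QQ)

lemma setInt_scale (g : ℝ → ℝ) {δ : ℝ} (hδ : 0 < δ) (a l : ℝ) (hl : 0 < l) :
    l⁻¹ * ∫ x in Ioo a (a + l), g (δ * x) =
      (δ * l)⁻¹ * ∫ x in Ioo (δ * a) (δ * a + δ * l), g x := by
  rw [← integral_Ioc_eq_integral_Ioo, ← integral_Ioc_eq_integral_Ioo,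
    ← intervalIntegral.integral_of_le (by linarith),
    ← intervalIntegral.integral_of_le (by nlinarith [mul_pos hδ hl]),
    intervalIntegral.integral_comp_mul_left _ hδ.ne', smul_eq_mul, mul_inv, mul_add]
  ring

lemma intOn_scale {g : ℝ → ℝ} (hg : ∀ a b, IntegrableOn g (Ioo a b)) {δ : ℝ} (hδ : 0 < δ)
    (a b : ℝ) : IntegrableOn (fun x => g (δ * x)) (Ioo a b) := by
  have h := (integrable_indicator_iff (measurableSet_Ioo (a := δ * a) (b := δ * b))).2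
    (hg (δ * a) (δ * b))
  have h2 := h.comp_mul_left' hδ.ne'
  rw [← integrable_indicator_iff measurableSet_Ioo]
  refine h2.congr (Eventually.of_forall fun x => ?_)
  have e : (δ * x ∈ Ioo (δ * a) (δ * b)) ↔ x ∈ Ioo a b := by
    simp only [mem_Ioo, mul_lt_mul_iff_right₀ hδ]
  show (Ioo (δ * a) (δ * b)).indicator g (δ * x) = (Ioo a b).indicator (fun x => g (δ * x)) x
  by_cases hx : x ∈ Ioo a b
  · rw [indicator_of_mem hx, indicator_of_mem (e.2 hx)]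
  · rw [indicator_of_notMem hx, indicator_of_notMem (fun h => hx (e.1 h))]

lemma RAp.scale {p N : ℝ} {v : ℝ → ℝ} (h : RAp p N v) {δ : ℝ} (hδ : 0 < δ) :
    RAp p N (fun x => v (δ * x)) where
  meas := h.meas.comp (measurable_const_mul δ)
  pos := fun x => h.pos _
  intv := intOn_scale h.intv hδ
  ints := intOn_scale (g := fun x => v x ^ (-(1 / (p - 1)))) h.ints hδ
  bd := by
    intro a l hl
    rw [setInt_scale v hδ a l hl, setInt_scale (fun x => v x ^ (-(1 / (p - 1)))) hδ a l hl]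
    exact h.bd (δ * a) (δ * l) (mul_pos hδ hl)

lemma lint_scale (g : ℝ → ℝ≥0∞) {δ : ℝ} (hδ : 0 < δ) :
    ∫⁻ x, g x = ENNReal.ofReal δ * ∫⁻ x, g (δ * x) := by
  have h := Real.smul_map_volume_mul_left hδ.ne'
  conv_lhs => rw [← h]
  rw [lintegral_smul_measure, abs_of_pos hδ, smul_eq_mul]
  congr 1
  exact lintegral_map_equiv g (Homeomorph.mulLeft₀ δ hδ.ne').toMeasurableEquiv

lemma QQ_scale (f : ℝ → ℂ) {δ : ℝ} (hδ : 0 < δ) (x : ℝ) :
    QQ f δ (δ * x) = (π⁻¹ : ℝ) * S (fun t => f (δ * t)) x := by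
  unfold QQ S
  have h := Measure.integral_comp_mul_left (fun s => (k1 (x - δ⁻¹ * s) : ℂ) * f s) δ
  have e : (∫ t, (k1 (x - t) : ℂ) * f (δ * t)) = ∫ t, (k1 (x - δ⁻¹ * (δ * t)) : ℂ) * f (δ * t) := by
    congr 1
    ext t
    rw [inv_mul_cancel_left₀ hδ.ne']
  rw [e, h, ← integral_smul, ← integral_const_mul]
  congr 1
  ext t
  rw [abs_of_pos (inv_pos.2 hδ), Complex.real_smul, ← mul_assoc, ← mul_assoc, ← Complex.ofReal_mul,
    ← Complex.ofReal_mul]
  congr 2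
  unfold k1 Pool.Agent.Helper49.Sq.Keps.k
  rw [mul_assoc]
  congr 1
  have h1 : (0:ℝ) < (δ * x - t) ^ 2 + δ ^ 2 := by positivity
  have h2 : (0:ℝ) < (x - δ⁻¹ * t) ^ 2 + 1 ^ 2 := by positivity
  rw [div_eq_iff h1.ne', ← mul_div_assoc, div_mul_eq_mul_div, eq_div_iff h2.ne']
  field_simp
  
lemma QQ_bound2 {p : ℝ} (hp : 1 < p) (N : ℝ) (hN : 0 ≤ N) : ∃ C : ℝ≥0, ∀ v : ℝ → ℝ, RAp p N v →
    ∀ f : ℝ → ℂ, MemLp f 2 volume → ∫⁻ x, ‖f x‖ₑ ^ p * ENNReal.ofReal (v x) ≠ ∞ →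
      ∀ δ : ℝ, 0 < δ → ∫⁻ x, ‖QQ f δ x‖ₑ ^ p * ENNReal.ofReal (v x) ≤
        C * ∫⁻ x, ‖f x‖ₑ ^ p * ENNReal.ofReal (v x) := by
  obtain ⟨C, hC⟩ := RAp_bound hp N hN
  have hp0 : 0 < p := by linarith
  refine ⟨C * ‖(π⁻¹ : ℝ)‖₊ ^ p, ?_⟩
  intro v hv f hf hfin δ hδ
  have hf2 : MemLp (fun t => f (δ * t)) 2 volume := by
    have hq : AEStronglyMeasurable (fun t => f (δ * t)) volume :=
      hf.1.comp_quasiMeasurePreserving
        ⟨(measurable_const_mul δ), by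
          rw [Real.map_volume_mul_left hδ.ne']
          exact Measure.smul_absolutelyContinuous⟩
    refine ⟨hq, ?_⟩
    have h2 := hf.2
    rw [eLp2] at h2 ⊢
    rw [ENNReal.rpow_lt_top_iff_of_pos (by norm_num)] at h2 ⊢
    rw [lint_scale _ hδ] at h2
    rcases eq_or_ne (∫⁻ x, ‖f (δ * x)‖ₑ ^ (2:ℝ)) ∞ with h3 | h3
    · rw [h3, ENNReal.mul_top (by simpa using hδ)] at h2
      exact absurd h2 (lt_irrefl _)
    · exact lt_top_iff_ne_top.2 h3
  have e1 := lint_scale (fun x => ‖f x‖ₑ ^ p * ENNReal.ofReal (v x)) hδ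
  have hfin2 : ∫⁻ x, ‖f (δ * x)‖ₑ ^ p * ENNReal.ofReal (v (δ * x)) ≠ ∞ := by
    intro h
    rw [e1, h, ENNReal.mul_top (by simpa using hδ)] at hfin
    exact hfin rfl
  have h3 := hC _ (hv.scale hδ) _ hf2 hfin2
  rw [lint_scale (fun x => ‖QQ f δ x‖ₑ ^ p * ENNReal.ofReal (v x)) hδ, e1]
  have e2 : ∀ x, ‖QQ f δ (δ * x)‖ₑ ^ p * ENNReal.ofReal (v (δ * x)) =
      (‖(π⁻¹ : ℝ)‖₊ ^ p : ℝ≥0) * (‖S (fun t => f (δ * t)) x‖ₑ ^ p * ENNReal.ofReal (v (δ * x))) := by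
    intro x
    rw [QQ_scale f hδ, enorm_mul, ENNReal.mul_rpow_of_nonneg _ _ hp0.le, mul_assoc]
    congr 1
    rw [ENNReal.coe_rpow_of_nonneg _ hp0.le]
    congr 1
    rw [← enorm_eq_nnnorm, ← ofReal_norm, Complex.norm_real, ofReal_norm]
  simp_rw [e2]
  rw [lintegral_const_mul' _ _ ENNReal.coe_ne_top, ENNReal.coe_mul]
  calc ENNReal.ofReal δ * (((‖(π⁻¹ : ℝ)‖₊ ^ p : ℝ≥0) : ℝ≥0∞) *
        ∫⁻ x, ‖S (fun t => f (δ * t)) x‖ₑ ^ p * ENNReal.ofReal (v (δ * x)))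
      ≤ ENNReal.ofReal δ * (((‖(π⁻¹ : ℝ)‖₊ ^ p : ℝ≥0) : ℝ≥0∞) *
        (C * ∫⁻ x, ‖f (δ * x)‖ₑ ^ p * ENNReal.ofReal (v (δ * x)))) := by gcongr
    _ = _ := by ring

lemma ker_bd (x δ : ℝ) (hδ : 0 < δ) (t : ℝ) :
    |π⁻¹ * ((x - t) / ((x - t) ^ 2 + δ ^ 2))| * (1 + |t|) ≤ (1 + |x|) / δ + 1 := by
  have hd : (0:ℝ) < (x - t) ^ 2 + δ ^ 2 := by positivity
  rw [abs_mul, abs_div, abs_of_pos hd, abs_of_pos (inv_pos.2 Real.pi_pos)]
  have h1 : π⁻¹ ≤ 1 := inv_le_one_of_one_le₀ (by linarith [Real.pi_gt_three])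
  have h2 : |t| ≤ |x| + |x - t| := by
    have := abs_sub_abs_le_abs_sub t x
    rw [abs_sub_comm t x] at this
    linarith
  set u := |x - t| with hu
  have hu2 : (x - t) ^ 2 = u ^ 2 := (sq_abs _).symm
  have hu0 : 0 ≤ u := abs_nonneg _
  rw [hu2] at hd ⊢
  have h3 : u / (u ^ 2 + δ ^ 2) * (1 + |t|) ≤ (1 + |x|) / δ + 1 := by
    rw [div_mul_eq_mul_div, div_le_iff₀ hd]
    have h4 : u * (1 + |t|) ≤ u * (1 + |x|) + u ^ 2 := by nlinarith
    have h5 : u * (1 + |x|) ≤ (1 + |x|) / δ * (u ^ 2 + δ ^ 2) := by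
      rw [div_mul_eq_mul_div, le_div_iff₀ hδ]
      have : u * δ ≤ u ^ 2 + δ ^ 2 := by nlinarith [sq_nonneg (u - δ)]
      nlinarith [abs_nonneg x]
    nlinarith
  have h6 : 0 ≤ u / (u ^ 2 + δ ^ 2) * (1 + |t|) := by positivity
  calc π⁻¹ * (u / (u ^ 2 + δ ^ 2)) * (1 + |t|) = π⁻¹ * (u / (u ^ 2 + δ ^ 2) * (1 + |t|)) := by ring
    _ ≤ 1 * (u / (u ^ 2 + δ ^ 2) * (1 + |t|)) := by gcongr
    _ ≤ _ := by rw [one_mul]; exact h3

lemma ker_cont (x δ : ℝ) (hδ : 0 < δ) :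
    Continuous (fun t : ℝ => ((π⁻¹ * ((x - t) / ((x - t) ^ 2 + δ ^ 2)) : ℝ) : ℂ)) := by
  apply Complex.continuous_ofReal.comp
  apply continuous_const.mul
  apply Continuous.div (by fun_prop) (by fun_prop)
  intro t
  positivity

/-- functions with `F / (1 + |y|)` integrable -/
def Int1 (F : ℝ → ℂ) : Prop := Integrable (fun y : ℝ => ((1 + |y|)⁻¹ : ℝ) • F y)

lemma Int1.aesm {F : ℝ → ℂ} (h : Int1 F) : AEStronglyMeasurable F volume := by
  have h1 : AEStronglyMeasurable (fun y : ℝ => (1 + |y|) • (((1 + |y|)⁻¹ : ℝ) • F y)) volume :=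
    (by fun_prop : Continuous fun y : ℝ => (1 + |y|)).aestronglyMeasurable.smul h.1
  refine h1.congr (Eventually.of_forall fun y => ?_)
  have : (0:ℝ) < 1 + |y| := by positivity
  simp only []
  rw [smul_smul, mul_inv_cancel₀ this.ne', one_smul]

lemma QQ_integrand_le (F : ℝ → ℂ) (x δ : ℝ) (hδ : 0 < δ) (t : ℝ) :
    ‖((π⁻¹ * ((x - t) / ((x - t) ^ 2 + δ ^ 2)) : ℝ) : ℂ) * F t‖ ≤
      ((1 + |x|) / δ + 1) * ‖((1 + |t|)⁻¹ : ℝ) • F t‖ := by
  have h : (0:ℝ) < 1 + |t| := by positivity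
  rw [norm_mul, Complex.norm_real, norm_smul, Real.norm_eq_abs, Real.norm_eq_abs,
    abs_of_pos (inv_pos.2 h), ← mul_assoc]
  apply mul_le_mul_of_nonneg_right _ (norm_nonneg _)
  rw [← div_eq_mul_inv, le_div_iff₀ h]
  exact ker_bd x δ hδ t

lemma QQ_integrable {F : ℝ → ℂ} (h : Int1 F) (x δ : ℝ) (hδ : 0 < δ) :
    Integrable (fun t : ℝ => ((π⁻¹ * ((x - t) / ((x - t) ^ 2 + δ ^ 2)) : ℝ) : ℂ) * F t) := by
  refine (h.norm.const_mul ((1 + |x|) / δ + 1)).mono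
    ((ker_cont x δ hδ).aestronglyMeasurable.mul h.aesm) (Eventually.of_forall fun t => ?_)
  refine (QQ_integrand_le F x δ hδ t).trans (le_abs_self _)

lemma QQ_aesm {f : ℝ → ℂ} (hf : AEStronglyMeasurable f volume) {δ : ℝ} (hδ : 0 < δ) :
    AEStronglyMeasurable (QQ f δ) volume := by
  unfold QQ
  have hc : Continuous (fun z : ℝ × ℝ =>
      ((π⁻¹ * ((z.1 - z.2) / ((z.1 - z.2) ^ 2 + δ ^ 2)) : ℝ) : ℂ)) := by
    apply Complex.continuous_ofReal.comp
    apply continuous_const.mul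
    apply Continuous.div (by fun_prop) (by fun_prop)
    intro t
    positivity
  have h : AEStronglyMeasurable (fun z : ℝ × ℝ =>
      ((π⁻¹ * ((z.1 - z.2) / ((z.1 - z.2) ^ 2 + δ ^ 2)) : ℝ) : ℂ) * f z.2)
      ((volume : Measure ℝ).prod volume) := hc.aestronglyMeasurable.mul hf.comp_snd
  exact h.integral_prod_right'

theorem QQ_bound {p : ℝ} (hp : 1 < p) (N : ℝ) (hN : 0 ≤ N) : ∃ C : ℝ≥0, ∀ v : ℝ → ℝ, RAp p N v →
    ∀ F : ℝ → ℂ, Int1 F →
      ∀ δ : ℝ, 0 < δ → ∫⁻ x, ‖QQ F δ x‖ₑ ^ p * ENNReal.ofReal (v x) ≤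
        C * ∫⁻ x, ‖F x‖ₑ ^ p * ENNReal.ofReal (v x) := by
  obtain ⟨C, hC⟩ := QQ_bound2 hp N hN
  have hp0 : 0 < p := by linarith
  refine ⟨C + 1, ?_⟩
  intro v hv F hF δ hδ
  rcases eq_or_ne (∫⁻ x, ‖F x‖ₑ ^ p * ENNReal.ofReal (v x)) ∞ with hinf | hfin
  · rw [hinf, ENNReal.mul_top]
    · exact le_top
    · simp
  wlog hm : Measurable F generalizing F with H
  · obtain ⟨G, hG, hFG⟩ := hF.aesm.aemeasurable
    have e1 : ∀ x, QQ F δ x = QQ G δ x := by
      intro x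
      unfold QQ
      apply integral_congr_ae
      filter_upwards [hFG] with t ht
      rw [ht]
    have e2 : ∫⁻ x, ‖F x‖ₑ ^ p * ENNReal.ofReal (v x) = ∫⁻ x, ‖G x‖ₑ ^ p * ENNReal.ofReal (v x) := by
      apply lintegral_congr_ae
      filter_upwards [hFG] with t ht
      rw [ht]
    have hG1 : Int1 G := by
      unfold Int1
      refine (show Integrable (fun y : ℝ => ((1 + |y|)⁻¹ : ℝ) • F y) volume from hF).congr ?_
      filter_upwards [hFG] with t ht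
      rw [ht]
    simp_rw [e1]
    rw [e2]
    exact H G hG1 (by rw [← e2]; exact hfin) hG
  set A : ℕ → Set ℝ := fun n => {x | |x| ≤ n ∧ ‖F x‖ ≤ n} with hA
  have hAm : ∀ n, MeasurableSet (A n) := fun n =>
    (measurableSet_le continuous_abs.measurable measurable_const).inter
      (measurableSet_le hm.norm measurable_const)
  set G : ℕ → ℝ → ℂ := fun n => (A n).indicator F with hG
  have hGm : ∀ n, Measurable (G n) := fun n => hm.indicator (hAm n)
  have hGle : ∀ n x, ‖G n x‖ ≤ ‖F x‖ := fun n x => norm_indicator_le_norm_self _ _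
  have hG2 : ∀ n, MemLp (G n) 2 volume := by
    intro n
    refine (memLp_indicator_const 2 (measurableSet_Icc (a := -(n:ℝ)) (b := n)) (n:ℝ)
      (Or.inr (by simp))).mono (hGm n).aestronglyMeasurable (Eventually.of_forall fun x => ?_)
    by_cases hx : x ∈ A n
    · have h1 : x ∈ Icc (-(n:ℝ)) n := abs_le.1 hx.1
      rw [indicator_of_mem h1]
      simp only [hG]
      rw [indicator_of_mem hx]
      exact hx.2.trans (le_abs_self _)
    · simp only [hG]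
      rw [indicator_of_notMem hx, norm_zero]
      exact norm_nonneg _
  have hlim : ∀ x, Tendsto (fun n => QQ (G n) δ x) atTop (𝓝 (QQ F δ x)) := by
    intro x
    unfold QQ
    apply tendsto_integral_of_dominated_convergence
      (fun t => ((1 + |x|) / δ + 1) * ‖((1 + |t|)⁻¹ : ℝ) • F t‖)
    · intro n
      exact (ker_cont x δ hδ).aestronglyMeasurable.mul (hGm n).aestronglyMeasurable
    · exact hF.norm.const_mul _
    · intro n
      refine Eventually.of_forall fun t => ?_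
      refine (QQ_integrand_le (G n) x δ hδ t).trans ?_
      apply mul_le_mul_of_nonneg_left _ (by positivity)
      rw [norm_smul, norm_smul]
      exact mul_le_mul_of_nonneg_left (hGle n t) (norm_nonneg _)
    · refine Eventually.of_forall fun t => ?_
      apply tendsto_const_nhds.congr'
      obtain ⟨M, hM⟩ := exists_nat_ge (max |t| ‖F t‖)
      filter_upwards [eventually_ge_atTop M] with n hn
      have hn' : max |t| ‖F t‖ ≤ (n:ℝ) := hM.trans (by exact_mod_cast hn)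
      have h1 : t ∈ A n := ⟨(le_max_left _ _).trans hn', (le_max_right _ _).trans hn'⟩
      simp only [hG]
      rw [indicator_of_mem h1]
  have hle : ∀ n, ∫⁻ x, ‖G n x‖ₑ ^ p * ENNReal.ofReal (v x) ≤
      ∫⁻ x, ‖F x‖ₑ ^ p * ENNReal.ofReal (v x) := by
    intro n
    apply lintegral_mono
    intro x
    apply mul_le_mul_left
    apply ENNReal.rpow_le_rpow _ hp0.le
    exact enorm_le_iff_norm_le.2 (hGle n x)
  calc ∫⁻ x, ‖QQ F δ x‖ₑ ^ p * ENNReal.ofReal (v x)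
      = ∫⁻ x, liminf (fun n => ‖QQ (G n) δ x‖ₑ ^ p * ENNReal.ofReal (v x)) atTop := by
        congr 1
        ext x
        symm
        apply Tendsto.liminf_eq
        apply ENNReal.Tendsto.mul_const _ (Or.inr ENNReal.ofReal_ne_top)
        exact (ENNReal.continuous_rpow_const.tendsto _).comp (hlim x).enorm
    _ ≤ liminf (fun n => ∫⁻ x, ‖QQ (G n) δ x‖ₑ ^ p * ENNReal.ofReal (v x)) atTop := by
        apply lintegral_liminf_le'
        intro n
        exact ((QQ_aesm (hGm n).aestronglyMeasurable hδ).enorm.pow_const p).mul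
          hv.meas.ennreal_ofReal.aemeasurable
    _ ≤ _ := by
        refine liminf_le_of_frequently_le' (Frequently.of_forall fun n => ?_)
        refine (hC v hv (G n) (hG2 n) (ne_top_of_le_ne_top hfin (hle n)) δ hδ).trans ?_
        refine mul_le_mul' ?_ (hle n)
        exact_mod_cast le_self_add

end Pool.Agent.E8helper96.HT
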