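import Pool.Agent.E8helper96.HT.QB
import Pool.Agent.E8helper96.HT.Defs

/-!
# Sufficiency
-/

set_option autoImplicit false

open MeasureTheory Filter Topology Set
open scoped ENNReal NNReal Real

namespace Pool.Agent.E8helper96.HT

open Pool.Dav (QQ truncH)

lemma trunc_eq (f : ℝ → ℂ) (δ x : ℝ) : truncHilbert f δ x = truncH f δ x := by
  unfold truncHilbert truncH
  simp_rw [abs_sub_comm]

/-- from `A_p` (with infinite values allowed) to the real form -/
lemma exists_RAp {p : ℝ} (hp : 1 < p) {W : ℝ → ℝ} (hW0 : ∀ x, 0 ≤ W x)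
    (hWm : AEStronglyMeasurable W volume) (hWz : ¬ W =ᵐ[volume] 0) (hA : MemAp p W) :
    ∃ (v : ℝ → ℝ) (N : ℝ), 0 ≤ N ∧ RAp p N v ∧ W =ᵐ[volume] v := by
  have hp1 : 0 < p - 1 := by linarith
  obtain ⟨C, hC⟩ := hA
  set σ : ℝ → ℝ≥0∞ := fun x => ENNReal.ofReal (W x) ^ (-(1 / (p - 1))) with hσ
  have hWa : AEMeasurable (fun x => ENNReal.ofReal (W x)) volume := hWm.aemeasurable.ennreal_ofReal
  have hσa : AEMeasurable σ volume := hWa.pow_const _
  have hσ0 : ∀ x, σ x ≠ 0 := by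
    intro x h
    simp only [hσ] at h
    rw [ENNReal.rpow_eq_zero_iff] at h
    rcases h with ⟨_, h⟩ | ⟨h, _⟩
    · have : 0 < 1 / (p - 1) := by positivity
      linarith
    · exact ENNReal.ofReal_ne_top h
  -- an interval where W has positive integral
  have h1 : ∃ n₀ : ℕ, ∫⁻ x in Ioo (-(n₀:ℝ)) n₀, ENNReal.ofReal (W x) ≠ 0 := by
    by_contra hcon
    push Not at hcon
    apply hWz
    have h2 : ∀ᵐ x, ∀ n : ℕ, x ∈ Ioo (-(n:ℝ)) n → ENNReal.ofReal (W x) = 0 := by
      rw [ae_all_iff]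
      intro n
      have h3 := (lintegral_eq_zero_iff' hWa.restrict).1 (hcon n)
      exact (ae_restrict_iff' measurableSet_Ioo).1 h3
    filter_upwards [h2] with x hx
    obtain ⟨n, hn⟩ := exists_nat_gt |x|
    have := hx n (by rw [abs_lt] at hn; exact hn)
    rw [ENNReal.ofReal_eq_zero] at this
    exact le_antisymm this (hW0 x)
  obtain ⟨n₀, hn₀⟩ := h1
  have hn₀pos : 0 < n₀ := by
    rcases Nat.eq_zero_or_pos n₀ with h | h
    · subst h
      simp at hn₀
    · exact h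
  -- finiteness on large intervals
  have hfinσ : ∀ a b : ℝ, ∫⁻ x in Ioo a b, σ x ≠ ∞ := by
    intro a b
    obtain ⟨n, hn⟩ := exists_nat_ge (max (max |a| |b|) n₀)
    have hna : max |a| |b| ≤ n := (le_max_left _ _).trans hn
    have hn0 : (n₀:ℝ) ≤ n := (le_max_right _ _).trans hn
    have hnpos : (0:ℝ) < n := lt_of_lt_of_le (by exact_mod_cast hn₀pos) hn0
    have hsub : Ioo a b ⊆ Ioo (-(n:ℝ)) n := by
      apply Ioo_subset_Ioo
      · have := (le_max_left |a| |b|).trans hna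
        linarith [neg_abs_le a]
      · have := (le_max_right |a| |b|).trans hna
        linarith [le_abs_self b]
    have h2 : ∫⁻ x in Ioo a b, σ x ≤ ∫⁻ x in Ioo (-(n:ℝ)) n, σ x := lintegral_mono_set hsub
    apply ne_top_of_le_ne_top _ h2
    intro htop
    have h3 := hC (-(n:ℝ)) n (by linarith)
    have h4 : ∫⁻ x in Ioo (-(n:ℝ)) n, ENNReal.ofReal (W x) ≠ 0 := by
      intro h
      apply hn₀
      rw [← nonpos_iff_eq_zero, ← h]
      exact lintegral_mono_set (Ioo_subset_Ioo (by linarith) hn0)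
    rw [show (∫⁻ x in Ioo (-(n:ℝ)) n, ENNReal.ofReal (W x) ^ (-(1 / (p - 1)))) = ∞ from htop,
      ENNReal.top_div_of_ne_top ENNReal.ofReal_ne_top, ENNReal.top_rpow_of_pos hp1,
      ENNReal.mul_top] at h3
    · exact absurd h3 (by simp)
    · exact (ENNReal.div_pos h4 ENNReal.ofReal_ne_top).ne'
  have hfinW : ∀ a b : ℝ, ∫⁻ x in Ioo a b, ENNReal.ofReal (W x) ≠ ∞ := by
    intro a b htop
    rcases le_or_gt b a with hba | hab
    · rw [Ioo_eq_empty (by linarith)] at htop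
      simp at htop
    have h3 := hC a b hab
    have h4 : ∫⁻ x in Ioo a b, σ x ≠ 0 := by
      intro h
      have h5 := (lintegral_eq_zero_iff' hσa.restrict).1 h
      have h6 : ∀ᵐ x ∂(volume.restrict (Ioo a b)), False := by
        filter_upwards [h5] with x hx
        exact hσ0 x hx
      rw [ae_iff] at h6
      simp only [not_false_eq_true] at h6
      have h7 : volume.restrict (Ioo a b) univ = 0 := h6
      rw [Measure.restrict_apply_univ, Real.volume_Ioo] at h7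
      have : 0 < b - a := by linarith
      simp only [ENNReal.ofReal_eq_zero] at h7
      linarith
    rw [htop, ENNReal.top_div_of_ne_top ENNReal.ofReal_ne_top, ENNReal.top_mul] at h3
    · exact absurd h3 (by simp)
    · have h5 : (∫⁻ x in Ioo a b, σ x) / ENNReal.ofReal (b - a) ≠ 0 :=
        (ENNReal.div_pos h4 ENNReal.ofReal_ne_top).ne'
      intro h
      rw [ENNReal.rpow_eq_zero_iff] at h
      rcases h with ⟨h, _⟩ | ⟨_, h⟩
      · exact h5 h
      · linarith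
  have hpos : ∀ᵐ x, 0 < W x := by
    have h2 : ∀ᵐ x, ∀ n : ℕ, x ∈ Ioo (-(n:ℝ)) n → σ x < ∞ := by
      rw [ae_all_iff]
      intro n
      have h3 := ae_lt_top' hσa.restrict (hfinσ (-(n:ℝ)) n)
      exact (ae_restrict_iff' measurableSet_Ioo).1 h3
    filter_upwards [h2] with x hx
    obtain ⟨n, hn⟩ := exists_nat_gt |x|
    have h3 := hx n (by rw [abs_lt] at hn; exact hn)
    rcases (hW0 x).lt_or_eq with h | h
    · exact h
    · exfalso
      simp only [hσ] at h3
      rw [← h, ENNReal.ofReal_zero, ENNReal.zero_rpow_of_neg (by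
        have : 0 < 1 / (p - 1) := by positivity
        linarith)] at h3
      exact lt_irrefl _ h3
  obtain ⟨g, hg, hWg⟩ := hWm.aemeasurable
  set v : ℝ → ℝ := fun x => if 0 < g x then g x else 1 with hv
  have hvm : Measurable v := Measurable.ite (measurableSet_lt measurable_const hg) hg
    measurable_const
  have hv0 : ∀ x, 0 < v x := by
    intro x
    simp only [hv]
    split_ifs with h
    · exact h
    · exact one_pos
  have hWv : W =ᵐ[volume] v := by
    filter_upwards [hWg, hpos] with x hx h1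
    rw [hx] at h1
    simp only [hv]
    rw [if_pos h1, hx]
  have hs0 : ∀ x, 0 ≤ v x ^ (-(1 / (p - 1))) := fun x => Real.rpow_nonneg (hv0 x).le _
  have hsm : Measurable (fun x => v x ^ (-(1 / (p - 1)))) := hvm.pow_const _
  have eW : ∀ a b : ℝ, ∫⁻ x in Ioo a b, ENNReal.ofReal (v x) =
      ∫⁻ x in Ioo a b, ENNReal.ofReal (W x) := by
    intro a b
    apply lintegral_congr_ae
    filter_upwards [ae_restrict_of_ae hWv] with x hx
    rw [hx]
  have eσ : ∀ a b : ℝ, ∫⁻ x in Ioo a b, ENNReal.ofReal (v x ^ (-(1 / (p - 1)))) =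
      ∫⁻ x in Ioo a b, σ x := by
    intro a b
    apply lintegral_congr_ae
    filter_upwards [ae_restrict_of_ae hWv] with x hx
    simp only [hσ]
    rw [hx, ENNReal.ofReal_rpow_of_pos (hv0 x)]
  have iv : ∀ a b : ℝ, IntegrableOn v (Ioo a b) := by
    intro a b
    refine ⟨hvm.aestronglyMeasurable, ?_⟩
    rw [hasFiniteIntegral_iff_ofReal (Eventually.of_forall fun x => (hv0 x).le), eW]
    exact lt_top_iff_ne_top.2 (hfinW a b)
  have is : ∀ a b : ℝ, IntegrableOn (fun x => v x ^ (-(1 / (p - 1)))) (Ioo a b) := by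
    intro a b
    refine ⟨hsm.aestronglyMeasurable, ?_⟩
    rw [hasFiniteIntegral_iff_ofReal (Eventually.of_forall fun x => hs0 x), eσ]
    exact lt_top_iff_ne_top.2 (hfinσ a b)
  refine ⟨v, C, C.2, ⟨hvm, hv0, iv, is, ?_⟩, hWv⟩
  intro a l hl
  have h3 := hC a (a + l) (by linarith)
  have i0 : 0 ≤ ∫ x in Ioo a (a + l), v x := integral_nonneg fun x => (hv0 x).le
  have j0 : 0 ≤ ∫ x in Ioo a (a + l), v x ^ (-(1 / (p - 1))) := integral_nonneg fun x => hs0 x
  have e1 : (∫⁻ x in Ioo a (a + l), ENNReal.ofReal (W x)) / ENNReal.ofReal (a + l - a) =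
      ENNReal.ofReal (l⁻¹ * ∫ x in Ioo a (a + l), v x) := by
    rw [add_sub_cancel_left, ← eW,
      ← ofReal_integral_eq_lintegral_ofReal (iv _ _) (Eventually.of_forall fun x => (hv0 x).le),
      ← ENNReal.ofReal_div_of_pos hl, div_eq_inv_mul]
  have e2 : (∫⁻ x in Ioo a (a + l), ENNReal.ofReal (W x) ^ (-(1 / (p - 1)))) /
      ENNReal.ofReal (a + l - a) =
      ENNReal.ofReal (l⁻¹ * ∫ x in Ioo a (a + l), v x ^ (-(1 / (p - 1)))) := by
    rw [show (∫⁻ x in Ioo a (a + l), ENNReal.ofReal (W x) ^ (-(1 / (p - 1)))) =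
      ∫⁻ x in Ioo a (a + l), σ x from rfl, add_sub_cancel_left, ← eσ,
      ← ofReal_integral_eq_lintegral_ofReal (is _ _) (Eventually.of_forall fun x => hs0 x),
      ← ENNReal.ofReal_div_of_pos hl, div_eq_inv_mul]
  rw [e1, e2, ENNReal.ofReal_rpow_of_nonneg (by positivity) hp1.le,
    ← ENNReal.ofReal_mul (by positivity), ENNReal.ofReal_le_iff_le_toReal ENNReal.coe_ne_top] at h3
  exact h3

lemma rpow_liminf_le {p : ℝ} (hp0 : 0 < p) {g : ℕ → ℝ≥0∞} {a : ℝ≥0∞} (c : ℝ)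
    (h : a ≤ liminf g atTop) :
    a ^ p * ENNReal.ofReal c ≤ liminf (fun n => g n ^ p * ENNReal.ofReal c) atTop := by
  have h1 : (liminf g atTop) ^ p * ENNReal.ofReal c =
      liminf (fun n => g n ^ p * ENNReal.ofReal c) atTop := by
    have hm : Monotone (fun y : ℝ≥0∞ => y ^ p * ENNReal.ofReal c) := fun x y hxy =>
      mul_le_mul_left (ENNReal.rpow_le_rpow hxy hp0.le) _
    have hc : Continuous (fun y : ℝ≥0∞ => y ^ p * ENNReal.ofReal c) :=
      (ENNReal.continuous_mul_const ENNReal.ofReal_ne_top).comp ENNReal.continuous_rpow_const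
    exact hm.map_liminf_of_continuousAt _ hc.continuousAt
  rw [← h1]
  exact mul_le_mul_left (ENNReal.rpow_le_rpow h hp0.le) _

/-- the pointwise bound -/
lemma hilbert_le {f : ℝ → ℂ} (hf : Integrable f) :
    ∀ᵐ x : ℝ, ‖hilbert f x‖ₑ ≤ liminf (fun n : ℕ => ‖QQ f (1 / ((n:ℝ) + 1)) x‖ₑ) atTop := by
  filter_upwards [Pool.Dav.trunc_ae f hf] with x hx
  unfold hilbert
  split_ifs with h
  · have h0' : Tendsto (fun δ : ℝ => truncHilbert f δ x) (𝓝[>] 0) (𝓝 h.choose) := h.choose_spec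
    generalize h.choose = L at h0' ⊢
    have h1 : Tendsto (fun δ : ℝ => truncH f δ x) (𝓝[>] 0) (𝓝 L) :=
      h0'.congr (fun δ => trunc_eq f δ x)
    have h2 := hx.add h1
    simp only [sub_add_cancel, zero_add] at h2
    have h3 : Tendsto (fun n : ℕ => 1 / ((n:ℝ) + 1)) atTop (𝓝[>] 0) :=
      tendsto_nhdsWithin_iff.2 ⟨tendsto_one_div_add_atTop_nhds_zero_nat,
        Eventually.of_forall fun n => by
          show (0:ℝ) < 1 / ((n:ℝ) + 1)
          positivity⟩
    have h4 : Tendsto (fun n : ℕ => ‖QQ f (1 / ((n:ℝ) + 1)) x‖ₑ) atTop (𝓝 ‖L‖ₑ) :=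
      (h2.comp h3).enorm
    rw [h4.liminf_eq]
  · simp

lemma int1_of_integrable {f : ℝ → ℂ} (hf : Integrable f) : Int1 f := by
  refine (show Integrable (fun y : ℝ => ((1 + |y|)⁻¹ : ℝ) • f y) volume from ?_)
  have hc : Continuous fun y : ℝ => (1 + |y|)⁻¹ := by
    apply Continuous.inv₀ (by fun_prop)
    intro y
    positivity
  refine hf.mono (hc.aestronglyMeasurable.smul hf.1) (Eventually.of_forall fun y => ?_)
  rw [norm_smul, Real.norm_eq_abs, abs_of_pos (by positivity)]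
  have : (1 + |y|)⁻¹ ≤ 1 := inv_le_one_of_one_le₀ (by linarith [abs_nonneg y])
  exact mul_le_of_le_one_left (norm_nonneg _) this

lemma int1_mul {f : ℝ → ℂ} (hf : Integrable f) (z : ℂ) : Int1 (fun y => ((y:ℂ) - z) * f y) := by
  refine (show Integrable (fun y : ℝ => ((1 + |y|)⁻¹ : ℝ) • (((y:ℂ) - z) * f y)) volume from ?_)
  have hc : Continuous fun y : ℝ => (1 + |y|)⁻¹ := by
    apply Continuous.inv₀ (by fun_prop)
    intro y
    positivity
  refine (hf.norm.const_mul (1 + ‖z‖)).mono (hc.aestronglyMeasurable.smul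
    ((by fun_prop : Continuous fun y : ℝ => (y:ℂ) - z).aestronglyMeasurable.mul hf.1))
    (Eventually.of_forall fun y => ?_)
  rw [norm_smul, Real.norm_eq_abs, abs_of_pos (by positivity), norm_mul, norm_mul, norm_norm,
    ← mul_assoc]
  apply mul_le_mul_of_nonneg_right _ (norm_nonneg _)
  rw [Real.norm_eq_abs, abs_of_nonneg (by positivity : 0 ≤ 1 + ‖z‖), inv_mul_eq_div,
    div_le_iff₀ (by positivity)]
  calc ‖(y:ℂ) - z‖ ≤ ‖(y:ℂ)‖ + ‖z‖ := norm_sub_le _ _
    _ = |y| + ‖z‖ := by rw [Complex.norm_real, Real.norm_eq_abs]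
    _ ≤ (1 + ‖z‖) * (1 + |y|) := by nlinarith [norm_nonneg z, abs_nonneg y]

/-- the corrected limit -/
lemma lim_corr {f : ℝ → ℂ} (hf : Integrable f) (h0 : ∫ x, f x = 0) (z : ℂ) (x : ℝ) :
    Tendsto (fun n : ℕ => ((x:ℂ) - z) * QQ f (1 / ((n:ℝ) + 1)) x -
      QQ (fun y => ((y:ℂ) - z) * f y) (1 / ((n:ℝ) + 1)) x) atTop (𝓝 0) := by
  have e : ∀ n : ℕ, ((x:ℂ) - z) * QQ f (1 / ((n:ℝ) + 1)) x -
      QQ (fun y => ((y:ℂ) - z) * f y) (1 / ((n:ℝ) + 1)) x =
      ∫ t, ((π⁻¹ * ((x - t) ^ 2 / ((x - t) ^ 2 + (1 / ((n:ℝ) + 1)) ^ 2)) : ℝ) : ℂ) * f t := by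
    intro n
    have hδ : (0:ℝ) < 1 / ((n:ℝ) + 1) := by positivity
    unfold QQ
    rw [← integral_const_mul, ← integral_sub ((QQ_integrable (int1_of_integrable hf) x _ hδ).const_mul _)
      (QQ_integrable (int1_mul hf z) x _ hδ)]
    congr 1
    ext t
    push_cast
    ring
  simp_rw [e]
  have h1 : ∫ t, ((π⁻¹ : ℝ) : ℂ) * f t = 0 := by
    rw [integral_const_mul, h0, mul_zero]
  rw [← h1]
  apply tendsto_integral_of_dominated_convergence (fun t => π⁻¹ * ‖f t‖)
  · intro n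
    have hδ : (0:ℝ) < 1 / ((n:ℝ) + 1) := by positivity
    have hc : Continuous (fun t : ℝ =>
        ((π⁻¹ * ((x - t) ^ 2 / ((x - t) ^ 2 + (1 / ((n:ℝ) + 1)) ^ 2)) : ℝ) : ℂ)) := by
      apply Complex.continuous_ofReal.comp
      apply continuous_const.mul
      apply Continuous.div (by fun_prop) (by fun_prop)
      intro t
      positivity
    exact hc.aestronglyMeasurable.mul hf.1
  · exact hf.norm.const_mul _
  · intro n
    refine Eventually.of_forall fun t => ?_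
    have hδ : (0:ℝ) < 1 / ((n:ℝ) + 1) := by positivity
    rw [norm_mul, Complex.norm_real, Real.norm_eq_abs, abs_of_nonneg (by positivity)]
    apply mul_le_mul_of_nonneg_right _ (norm_nonneg _)
    have : (x - t) ^ 2 / ((x - t) ^ 2 + (1 / ((n:ℝ) + 1)) ^ 2) ≤ 1 := by
      rw [div_le_one (by positivity)]
      nlinarith [sq_nonneg (1 / ((n:ℝ) + 1))]
    exact mul_le_of_le_one_right (inv_nonneg.2 Real.pi_pos.le) this
  · have hne : ∀ᵐ t : ℝ, t ≠ x := by
      rw [ae_iff]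
      simp
    filter_upwards [hne] with t ht
    apply Tendsto.mul_const
    apply (Complex.continuous_ofReal.tendsto _).comp
    have h2 : Tendsto (fun n : ℕ => (x - t) ^ 2 / ((x - t) ^ 2 + (1 / ((n:ℝ) + 1)) ^ 2)) atTop
        (𝓝 ((x - t) ^ 2 / ((x - t) ^ 2 + 0 ^ 2))) := by
      apply Tendsto.div tendsto_const_nhds
      · exact tendsto_const_nhds.add (tendsto_one_div_add_atTop_nhds_zero_nat.pow 2)
      · have : x - t ≠ 0 := sub_ne_zero.2 (Ne.symm ht)
        positivity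
    have h3 : (x - t) ^ 2 / ((x - t) ^ 2 + 0 ^ 2) = 1 := by
      have : x - t ≠ 0 := sub_ne_zero.2 (Ne.symm ht)
      rw [zero_pow two_ne_zero, add_zero, div_self (by positivity)]
    rw [h3] at h2
    have h4 := h2.const_mul (π⁻¹)
    rw [mul_one] at h4
    exact h4

lemma hilbert_le' {f : ℝ → ℂ} (hf : Integrable f) (h0 : ∫ x, f x = 0) (z : ℂ) :
    ∀ᵐ x : ℝ, ‖((x:ℂ) - z) * hilbert f x‖ₑ ≤
      liminf (fun n : ℕ => ‖QQ (fun y => ((y:ℂ) - z) * f y) (1 / ((n:ℝ) + 1)) x‖ₑ) atTop := by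
  filter_upwards [Pool.Dav.trunc_ae f hf] with x hx
  unfold hilbert
  split_ifs with h
  · have h0' : Tendsto (fun δ : ℝ => truncHilbert f δ x) (𝓝[>] 0) (𝓝 h.choose) := h.choose_spec
    generalize h.choose = L at h0' ⊢
    have h1 : Tendsto (fun δ : ℝ => truncH f δ x) (𝓝[>] 0) (𝓝 L) :=
      h0'.congr (fun δ => trunc_eq f δ x)
    have h2 := hx.add h1
    simp only [sub_add_cancel, zero_add] at h2
    have h3 : Tendsto (fun n : ℕ => 1 / ((n:ℝ) + 1)) atTop (𝓝[>] 0) :=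
      tendsto_nhdsWithin_iff.2 ⟨tendsto_one_div_add_atTop_nhds_zero_nat,
        Eventually.of_forall fun n => by
          show (0:ℝ) < 1 / ((n:ℝ) + 1)
          positivity⟩
    have h4 : Tendsto (fun n : ℕ => ((x:ℂ) - z) * QQ f (1 / ((n:ℝ) + 1)) x) atTop
        (𝓝 (((x:ℂ) - z) * L)) := (h2.comp h3).const_mul _
    have h5 := h4.sub (lim_corr hf h0 z x)
    simp only [sub_sub_cancel, sub_zero] at h5
    rw [h5.enorm.liminf_eq]
  · simp

theorem suff_A {p : ℝ} (hp : 1 < p) {U : ℝ → ℝ} (hU : IsWeight U) (hA : MemAp p U) :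
    Admissible p U := by
  have hp0 : 0 < p := by linarith
  obtain ⟨v, N, hN, hv, hUv⟩ := exists_RAp hp hU.nonneg hU.locInt.aestronglyMeasurable hU.ne_zero hA
  obtain ⟨C, hC⟩ := QQ_bound hp N hN
  refine ⟨C, fun f hf _ => ?_⟩
  have e1 : ∀ g : ℝ → ℂ, ∫⁻ x, ‖g x‖ₑ ^ p * ENNReal.ofReal (U x) =
      ∫⁻ x, ‖g x‖ₑ ^ p * ENNReal.ofReal (v x) := by
    intro g
    apply lintegral_congr_ae
    filter_upwards [hUv] with x hx
    rw [hx]
  rw [e1, e1]
  calc ∫⁻ x, ‖hilbert f x‖ₑ ^ p * ENNReal.ofReal (v x)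
      ≤ ∫⁻ x, liminf (fun n : ℕ => ‖QQ f (1 / ((n:ℝ) + 1)) x‖ₑ ^ p * ENNReal.ofReal (v x))
          atTop := by
        apply lintegral_mono_ae
        filter_upwards [hilbert_le hf] with x hx
        exact rpow_liminf_le hp0 _ hx
    _ ≤ liminf (fun n : ℕ => ∫⁻ x, ‖QQ f (1 / ((n:ℝ) + 1)) x‖ₑ ^ p * ENNReal.ofReal (v x))
          atTop := by
        apply lintegral_liminf_le'
        intro n
        exact ((QQ_aesm hf.1 (by positivity)).enorm.pow_const p).mul
          hv.meas.ennreal_ofReal.aemeasurable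
    _ ≤ _ := by
        refine liminf_le_of_frequently_le' (Frequently.of_forall fun n => ?_)
        exact hC v hv f (int1_of_integrable hf) _ (by positivity)

theorem suff_z {p : ℝ} (hp : 1 < p) {U : ℝ → ℝ} (hU : IsWeight U) (z : ℂ)
    (hA : MemAp p (fun x => ‖(x:ℂ) - z‖ ^ (-p) * U x)) :
    Admissible p U := by
  have hp0 : 0 < p := by linarith
  have hz : ∀ᵐ x : ℝ, 0 < ‖(x:ℂ) - z‖ := by
    have h1 : ∀ᵐ x : ℝ, x ≠ z.re := by
      rw [ae_iff]
      simp
    filter_upwards [h1] with x hx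
    rw [norm_pos_iff]
    intro h
    apply hx
    rw [← (sub_eq_zero.1 h)]
    simp
  have hWm : AEStronglyMeasurable (fun x : ℝ => ‖(x:ℂ) - z‖ ^ (-p) * U x) volume := by
    have h1 : Measurable (fun x : ℝ => ‖(x:ℂ) - z‖ ^ (-p)) := by fun_prop
    exact h1.aestronglyMeasurable.mul hU.locInt.aestronglyMeasurable
  have hWz : ¬ (fun x : ℝ => ‖(x:ℂ) - z‖ ^ (-p) * U x) =ᵐ[volume] 0 := by
    intro h
    apply hU.ne_zero
    filter_upwards [h, hz] with x hx hx0
    have h2 : ‖(x:ℂ) - z‖ ^ (-p) * U x = 0 := hx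
    rcases mul_eq_zero.1 h2 with h3 | h3
    · exact absurd h3 (Real.rpow_pos_of_pos hx0 _).ne'
    · exact h3
  obtain ⟨v, N, hN, hv, hUv⟩ := exists_RAp hp (fun x => mul_nonneg (Real.rpow_nonneg
    (norm_nonneg _) _) (hU.nonneg x)) hWm hWz hA
  obtain ⟨C, hC⟩ := QQ_bound hp N hN
  refine ⟨C, fun f hf h0 => ?_⟩
  have e1 : ∀ g : ℝ → ℂ, ∫⁻ x, ‖g x‖ₑ ^ p * ENNReal.ofReal (U x) =
      ∫⁻ x : ℝ, ‖((x:ℂ) - z) * g x‖ₑ ^ p * ENNReal.ofReal (v x) := by
    intro g
    apply lintegral_congr_ae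
    filter_upwards [hUv, hz] with x hx hx0
    rw [← hx, ENNReal.ofReal_mul (by positivity), enorm_mul, ENNReal.mul_rpow_of_nonneg _ _ hp0.le]
    have e2 : ‖(x:ℂ) - z‖ₑ ^ p * ENNReal.ofReal (‖(x:ℂ) - z‖ ^ (-p)) = 1 := by
      rw [← ofReal_norm, ENNReal.ofReal_rpow_of_pos hx0, ← ENNReal.ofReal_mul (by positivity),
        ← Real.rpow_add hx0, add_neg_cancel, Real.rpow_zero, ENNReal.ofReal_one]
    calc ‖g x‖ₑ ^ p * ENNReal.ofReal (U x) = 1 * (‖g x‖ₑ ^ p * ENNReal.ofReal (U x)) := by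
          rw [one_mul]
      _ = _ := by rw [← e2]; ring
  rw [e1, e1]
  calc ∫⁻ x : ℝ, ‖((x:ℂ) - z) * hilbert f x‖ₑ ^ p * ENNReal.ofReal (v x)
      ≤ ∫⁻ x, liminf (fun n : ℕ => ‖QQ (fun y => ((y:ℂ) - z) * f y) (1 / ((n:ℝ) + 1)) x‖ₑ ^ p *
          ENNReal.ofReal (v x)) atTop := by
        apply lintegral_mono_ae
        filter_upwards [hilbert_le' hf h0 z] with x hx
        exact rpow_liminf_le hp0 _ hx
    _ ≤ liminf (fun n : ℕ => ∫⁻ x, ‖QQ (fun y => ((y:ℂ) - z) * f y) (1 / ((n:ℝ) + 1)) x‖ₑ ^ p *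
          ENNReal.ofReal (v x)) atTop := by
        apply lintegral_liminf_le'
        intro n
        exact ((QQ_aesm (int1_mul hf z).aesm (by positivity)).enorm.pow_const p).mul
          hv.meas.ennreal_ofReal.aemeasurable
    _ ≤ _ := by
        refine liminf_le_of_frequently_le' (Frequently.of_forall fun n => ?_)
        exact hC v hv _ (int1_mul hf z) _ (by positivity)

end Pool.Agent.E8helper96.HT
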