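import Pool.Agent.E8helper96.HT.CZO
import Pool.Agent.Helper458.Dav.P_trunc_ae

/-!
# Weighted bound for the regularised Hilbert transform
-/

set_option autoImplicit false

open MeasureTheory Filter Topology Set
open scoped ENNReal NNReal

namespace Pool.Agent.E8helper96.HT

/-- real form of the `A_p` condition for positive measurable functions -/
structure RAp (p N : ℝ) (v : ℝ → ℝ) : Prop where
  meas : Measurable v
  pos : ∀ x, 0 < v x
  intv : ∀ a b, IntegrableOn v (Ioo a b)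
  ints : ∀ a b, IntegrableOn (fun x => v x ^ (-(1 / (p - 1)))) (Ioo a b)
  bd : ∀ a l, 0 < l → (l⁻¹ * ∫ x in Ioo a (a + l), v x) *
    (l⁻¹ * ∫ x in Ioo a (a + l), v x ^ (-(1 / (p - 1)))) ^ (p - 1) ≤ N

lemma cube_pre (c : Fin 1 → ℝ) (l : ℝ) :
    Pool.Agent.H433R3.Sep.cube c l = e1 ⁻¹' (Ico (c 0) (c 0 + l)) := by
  ext x
  constructor
  · intro h
    exact h 0
  · intro h i
    fin_cases i
    exact h

lemma vol_cube (c : Fin 1 → ℝ) (l : ℝ) (hl : 0 < l) :
    (volume (Pool.Agent.H433R3.Sep.cube c l)).toReal = l := by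
  rw [cube_pre, e1_mp.measure_preimage measurableSet_Ico.nullMeasurableSet, Real.volume_Ico]
  rw [add_sub_cancel_left, ENNReal.toReal_ofReal hl.le]

lemma int_cube (g : ℝ → ℝ) (c : Fin 1 → ℝ) (l : ℝ) :
    ∫ x in Pool.Agent.H433R3.Sep.cube c l, g (e1 x) = ∫ x in Ioo (c 0) (c 0 + l), g x := by
  rw [cube_pre, e1_mp.setIntegral_preimage_emb e1.measurableEmbedding, integral_Ico_eq_integral_Ioo]

lemma intOn_cube {g : ℝ → ℝ} (hg : ∀ a b, IntegrableOn g (Ioo a b)) (c : Fin 1 → ℝ) (l : ℝ) :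
    IntegrableOn (fun x => g (e1 x)) (Pool.Agent.H433R3.Sep.cube c l) := by
  rw [cube_pre]
  have h := (e1_mp.integrableOn_comp_preimage e1.measurableEmbedding (f := g)
    (s := Ico (c 0) (c 0 + l))).2
  apply h
  rw [integrableOn_Ico_iff_integrableOn_Ioo]
  exact hg _ _

theorem RAp_bound {p : ℝ} (hp : 1 < p) (N : ℝ) (hN : 0 ≤ N) : ∃ C : ℝ≥0, ∀ v : ℝ → ℝ, RAp p N v →
    ∀ f : ℝ → ℂ, MemLp f 2 volume → ∫⁻ x, ‖f x‖ₑ ^ p * ENNReal.ofReal (v x) ≠ ∞ →
      ∫⁻ x, ‖S f x‖ₑ ^ p * ENNReal.ofReal (v x) ≤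
        C * ∫⁻ x, ‖f x‖ₑ ^ p * ENNReal.ofReal (v x) := by
  have hp0 : 0 < p := by linarith
  have hp1 : 0 < p - 1 := by linarith
  set q : ℝ := p / (p - 1) with hq
  have hpq : p.HolderConjugate q := Real.HolderConjugate.conjExponent hp
  have hq1 : 1 < q := hpq.symm.lt
  have hq0 := hpq.symm.pos
  have hqq : 1 - q = -(1 / (p - 1)) := by rw [hq]; field_simp; ring
  have hqp : (q - 1) = 1 / (p - 1) := by linarith
  obtain ⟨T', hT', hTT⟩ := isCZO.toSep
  obtain ⟨C, hC⟩ := Pool.Agent.H433R3.Ml.czoGen (d := 1) one_pos hT' hpq (θ := 1) (η := 1)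
    (by rw [div_lt_one hp0]; exact hp) (by rw [div_lt_one hq0]; exact hq1)
  refine ⟨C * Real.toNNReal ((N + N ^ (q - 1)) ^ p), ?_⟩
  intro v hv f hf hfin
  set w : (Fin 1 → ℝ) → ℝ := fun x => v (e1 x) with hw
  have hwd : Pool.Agent.H433R3.Ml.WData q w := by
    refine ⟨hv.meas.comp e1.measurable, fun x => hv.pos _, fun c l _ => intOn_cube hv.intv c l,
      fun c l _ => ?_⟩
    have := intOn_cube hv.ints c l
    rw [← hqq] at this
    exact this
  have hAVw : ∀ (c : Fin 1 → ℝ) (l : ℝ), 0 < l →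
      Pool.Agent.H433R3.Ml.AV w (Pool.Agent.H433R3.Sep.cube c l) =
        l⁻¹ * ∫ x in Ioo (c 0) (c 0 + l), v x := by
    intro c l hl
    unfold Pool.Agent.H433R3.Ml.AV
    rw [vol_cube c l hl, int_cube v c l]
  have hAVs : ∀ (c : Fin 1 → ℝ) (l : ℝ), 0 < l →
      Pool.Agent.H433R3.Ml.AV (Pool.Agent.H433R3.Ml.sg q w) (Pool.Agent.H433R3.Sep.cube c l) =
        l⁻¹ * ∫ x in Ioo (c 0) (c 0 + l), v x ^ (-(1 / (p - 1))) := by
    intro c l hl
    unfold Pool.Agent.H433R3.Ml.AV Pool.Agent.H433R3.Ml.sg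
    rw [vol_cube c l hl, hqq]
    rw [← int_cube (fun x => v x ^ (-(1 / (p - 1)))) c l]
  have h1 : Pool.Agent.H433R3.Ml.OneSup p 1 N w (Pool.Agent.H433R3.Ml.sg q w) := by
    intro c l hl
    rw [Real.rpow_one, sub_self, Real.rpow_zero, mul_one, hAVw c l hl, hAVs c l hl]
    exact hv.bd (c 0) l hl
  have h2 : Pool.Agent.H433R3.Ml.OneSup q 1 (N ^ (q - 1)) (Pool.Agent.H433R3.Ml.sg q w) w := by
    intro c l hl
    rw [Real.rpow_one, sub_self, Real.rpow_zero, mul_one, hAVw c l hl, hAVs c l hl]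
    set A := l⁻¹ * ∫ x in Ioo (c 0) (c 0 + l), v x with hA
    set B := l⁻¹ * ∫ x in Ioo (c 0) (c 0 + l), v x ^ (-(1 / (p - 1))) with hB
    have hA0 : 0 ≤ A := mul_nonneg (by positivity) (integral_nonneg fun x => (hv.pos x).le)
    have hB0 : 0 ≤ B := mul_nonneg (by positivity)
      (integral_nonneg fun x => Real.rpow_nonneg (hv.pos x).le _)
    have h := hv.bd (c 0) l hl
    rw [← hA, ← hB] at h
    have h3 := Real.rpow_le_rpow (by positivity) h (show 0 ≤ q - 1 by linarith)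
    rw [Real.mul_rpow hA0 (by positivity), ← Real.rpow_mul hB0, hqp,
      mul_one_div_cancel hp1.ne', Real.rpow_one] at h3
    rw [hqp, mul_comm]
    exact h3
  have key : ∀ g : ℝ → ℂ, ∫⁻ x, ‖g (e1 x)‖ₑ ^ p ∂(Pool.Agent.H433R3.Ml.WM w) =
      ∫⁻ x, ‖g x‖ₑ ^ p * ENNReal.ofReal (v x) := by
    intro g
    unfold Pool.Agent.H433R3.Ml.WM
    rw [lintegral_withDensity_eq_lintegral_mul_non_measurable]
    · rw [← e1_mp.lintegral_comp_emb e1.measurableEmbedding]
      congr 1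
      ext x
      rw [Pi.mul_apply, mul_comm]
    · exact (hv.meas.comp e1.measurable).ennreal_ofReal
    · exact Eventually.of_forall fun x => ENNReal.ofReal_lt_top
  have hf2 : MemLp (fun x => f (e1 x)) 2 volume := hf.comp_measurePreserving e1_mp
  have h3 := (hC w hwd N hN h1 (fun x => f (e1 x)) hf2 (by rw [key f]; exact hfin)).2
    (N ^ (q - 1)) (by positivity) h2
  have h4 : ∫⁻ y, ‖Pool.Agent.H433R3.Sep.TT T' (fun x => f (e1 x)) y‖ₑ ^ p
      ∂(Pool.Agent.H433R3.Ml.WM w) = ∫⁻ x, ‖S f (e1 x)‖ₑ ^ p ∂(Pool.Agent.H433R3.Ml.WM w) := by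
    have hac : Pool.Agent.H433R3.Ml.WM w ≪ volume := withDensity_absolutelyContinuous _ _
    apply lintegral_congr_ae
    filter_upwards [hac.ae_le (hTT _ hf2)] with x hx
    rw [hx]
    unfold T
    simp only [MeasurableEquiv.apply_symm_apply]
  rw [h4, key (S f), key f] at h3
  exact h3

end Pool.Agent.E8helper96.HT
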